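import Mathlib

/-!
# The equation `x ^ 2 + 3 = 4 k ^ 2 y ^ 2 + 4 ω y z + 2 e z ^ 2`: the arithmetic core
-/

set_option autoImplicit false

namespace Pool.Agent.L5helper19.GS

open NumberTheorySymbols

/-- The divisibility condition which gives a solution of the equation. -/
def Sol (k ω e : ℤ) : Prop :=
  ∃ u z t : ℤ, t = ω * z - k * u ∧ t ≠ 0 ∧ 4 * t ∣ u ^ 2 + 3 - 2 * e * z ^ 2

theorem Sol.exists_eq {k ω e : ℤ} (h : Sol k ω e) :
    ∃ x y z : ℤ, x ^ 2 + 3 = 4 * k ^ 2 * y ^ 2 + 4 * ω * y * z + 2 * e * z ^ 2 := by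
  obtain ⟨u, z, t, rfl, -, y, hy⟩ := h
  refine ⟨u + 2 * k * y, y, z, ?_⟩
  linear_combination hy

/-- The step which uses Dirichlet's theorem. -/
theorem dirichlet_step {k ω e z0 u0 d r : ℤ} (hk : 0 < k) (hd : 0 < d)
    (hL : 0 < 2 * k ^ 2 * e - ω ^ 2) (ht : ω * z0 - k * u0 = d * r)
    (h4 : 4 * d ∣ u0 ^ 2 + 3 - 2 * e * z0 ^ 2) (n : ℕ) (hn : 24 * k ∣ n - r)
    (hcop : IsCoprime (n : ℤ) (12 * k * (2 * k ^ 2 * e - ω ^ 2)))
    (hJ : J(3 * (2 * k ^ 2 * e - ω ^ 2) | n) = 1) : Sol k ω e := by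
  set L := 2 * k ^ 2 * e - ω ^ 2 with hLdef
  set N : ℕ := (12 * k * L).natAbs with hN
  have hN0 : N ≠ 0 := by
    rw [hN]
    exact Int.natAbs_ne_zero.2 (by positivity)
  have hNc : (N : ℤ) = 12 * k * L := by
    rw [hN, Int.natCast_natAbs, abs_of_pos (by positivity)]
  obtain ⟨q, hq1, hq, hqn⟩ := Nat.forall_exists_prime_gt_and_zmodEq
    (2 + (12 * k * L).natAbs + d.natAbs) (q := N) (a := n) hN0 (by rw [hNc]; exact hcop)
  have hqF : Fact q.Prime := ⟨hq⟩
  have hqmod : (12 * k * L : ℤ) ∣ (q : ℤ) - n := by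
    have := hqn.symm.dvd
    rwa [hNc] at this
  have hodd : ∀ m : ℕ, (m : ℤ) ≡ n [ZMOD 2] → Odd m := by
    intro m hm
    have h2 : ¬ (2 : ℤ) ∣ (n : ℤ) := by
      intro h
      have h3 : (2 : ℤ) ∣ 12 * k * L := ⟨6 * k * L, by ring⟩
      have := hcop.isUnit_of_dvd' h h3
      exact absurd (Int.isUnit_iff.1 this) (by norm_num)
    rw [← Nat.not_even_iff_odd]
    rintro hev
    apply h2
    have h3 : (2 : ℤ) ∣ m := by exact_mod_cast hev.two_dvd
    exact (Int.ModEq.dvd_iff hm).1 h3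
  have hno : Odd n := hodd n (Int.ModEq.refl _)
  have hqo : Odd q := hodd q (by
    apply Int.ModEq.symm
    rw [Int.modEq_iff_dvd]
    exact Dvd.dvd.trans ⟨6 * k * L, by ring⟩ hqmod)
  -- the symbol
  have hJq : J(3 * L | q) = 1 := by
    rw [jacobiSym.mod_right _ hqo, ← hJ, jacobiSym.mod_right _ hno]
    congr 1
    have h3 : (4 * (3 * L).natAbs : ℕ) = (12 * L).natAbs := by
      rw [Int.natAbs_mul, Int.natAbs_mul]
      norm_num
      ring
    rw [h3]
    have h5 : (q : ℤ) ≡ n [ZMOD ((12 * L).natAbs : ℤ)] := by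
      apply Int.ModEq.symm
      rw [Int.modEq_iff_dvd]
      refine Dvd.dvd.trans ?_ hqmod
      rw [Int.natCast_natAbs, abs_dvd]
      exact ⟨k, by ring⟩
    exact_mod_cast h5
  -- nonvanishing modulo `q`
  have hbig : ∀ m : ℤ, m ≠ 0 → m.natAbs < q → (m : ZMod q) ≠ 0 := by
    intro m hm0 hm h
    rw [ZMod.intCast_zmod_eq_zero_iff_dvd] at h
    have h1 := Int.natAbs_dvd_natAbs.2 h
    rw [Int.natAbs_natCast] at h1
    exact absurd (Nat.le_of_dvd (Int.natAbs_pos.2 hm0) h1) (by omega)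
  have h12 : ((12 * k * L : ℤ) : ZMod q) ≠ 0 := hbig _ (by positivity) (by omega)
  have hdq : ((d : ℤ) : ZMod q) ≠ 0 := hbig _ (by positivity) (by omega)
  push_cast at h12
  have hkq : (k : ZMod q) ≠ 0 := by
    intro h
    rw [h] at h12
    simp at h12
  have hLq : (L : ZMod q) ≠ 0 := by
    intro h
    rw [h] at h12
    simp at h12
  have h4q : (4 : ZMod q) ≠ 0 := by
    intro h
    apply h12
    linear_combination (3 * (k : ZMod q) * L) * h
  -- the square root
  obtain ⟨s, hs⟩ : IsSquare ((3 * L : ℤ) : ZMod q) := by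
    have h1 : legendreSym q (3 * L) = 1 := by
      rw [jacobiSym.legendreSym.to_jacobiSym]
      exact hJq
    refine (legendreSym.eq_one_iff q ?_).1 h1
    intro h
    rw [legendreSym.eq_zero_iff q (3 * L) |>.2 h] at h1
    exact zero_ne_one h1
  push_cast at hs
  -- the choice of `z`
  set a : ℤ := (((s * k * (L : ZMod q)⁻¹ - z0) * (4 * d * k : ZMod q)⁻¹ : ZMod q).val : ℤ) with ha
  have hz : ((z0 + 4 * d * k * a : ℤ) : ZMod q) = s * k * (L : ZMod q)⁻¹ := by
    rw [ha]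
    push_cast
    rw [ZMod.natCast_zmod_val]
    have h5 : (4 * d * k : ZMod q) ≠ 0 := mul_ne_zero (mul_ne_zero h4q hdq) hkq
    field_simp
    ring
  obtain ⟨b1, hb1⟩ := hqmod
  obtain ⟨b2, hb2⟩ := hn
  -- `q = r + 4 k b`
  set b : ℤ := 3 * L * b1 + 6 * b2 with hb
  have hqr : (q : ℤ) = r + 4 * k * b := by
    rw [hb]
    linear_combination hb1 + hb2
  set z : ℤ := z0 + 4 * d * k * a with hzdef
  set u : ℤ := u0 + 4 * d * (a * ω - b) with hudef
  have htt : ω * z - k * u = d * q := by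
    rw [hzdef, hudef, hqr]
    linear_combination ht
  refine ⟨u, z, d * q, htt.symm, ?_, ?_⟩
  · have : (0 : ℤ) < q := by exact_mod_cast hq.pos
    positivity
  · have h5 : 4 * d ∣ u ^ 2 + 3 - 2 * e * z ^ 2 := by
      have h6 : u ^ 2 + 3 - 2 * e * z ^ 2 = (u0 ^ 2 + 3 - 2 * e * z0 ^ 2) +
          4 * d * ((a * ω - b) * (2 * u0 + 4 * d * (a * ω - b)) -
            2 * e * k * a * (2 * z0 + 4 * d * k * a)) := by
        rw [hzdef, hudef]
        ring
      rw [h6]
      exact dvd_add h4 (dvd_mul_right _ _)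
    have h7 : (q : ℤ) ∣ u ^ 2 + 3 - 2 * e * z ^ 2 := by
      rw [← ZMod.intCast_zmod_eq_zero_iff_dvd]
      have h8 : (k : ZMod q) * u = ω * z := by
        have h9 := congrArg (fun t : ℤ => (t : ZMod q)) htt
        push_cast at h9
        rw [ZMod.natCast_self] at h9
        linear_combination -h9
      have h9 : (L : ZMod q) * z ^ 2 = 3 * k ^ 2 := by
        have h10 : (z : ZMod q) = s * k * (L : ZMod q)⁻¹ := hz
        rw [h10]
        field_simp
        linear_combination -hs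
      have h10 : (k : ZMod q) ^ 2 * ((u ^ 2 + 3 - 2 * e * z ^ 2 : ℤ) : ZMod q) = 0 := by
        have h11 : (L : ZMod q) = 2 * k ^ 2 * e - ω ^ 2 := by
          rw [hLdef]
          push_cast
          ring
        rw [h11] at h9
        push_cast
        linear_combination (k * u + ω * z : ZMod q) * h8 - h9
      exact (mul_eq_zero.1 h10).resolve_left (pow_ne_zero 2 hkq)
    have h8 : IsCoprime (q : ℤ) (4 * d) := by
      rw [(Nat.prime_iff_prime_int.1 hq).coprime_iff_not_dvd]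
      intro h
      have h10 := (ZMod.intCast_zmod_eq_zero_iff_dvd (4 * d) q).2 h
      push_cast at h10
      exact mul_ne_zero h4q hdq h10
    have h9 := h8.symm.mul_dvd h5 h7
    have h10 : 4 * (d * (q : ℤ)) = 4 * d * q := by ring
    rw [h10]
    exact h9

end Pool.Agent.L5helper19.GS
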