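import Mathlib

/-!
# Local solutions
-/

set_option autoImplicit false

namespace Pool.Agent.L5helper19.GS

theorem hensel_odd {p : ℕ} (hp : p.Prime) (hp2 : p ≠ 2) {N u0 : ℤ} (hu : ¬ (p : ℤ) ∣ u0)
    (h : (p : ℤ) ∣ u0 ^ 2 - N) (J : ℕ) : ∃ u : ℤ, (p : ℤ) ^ J ∣ u ^ 2 - N ∧ (p : ℤ) ∣ u - u0 := by
  have hpp := Nat.prime_iff_prime_int.1 hp
  have h2 : ¬ (p : ℤ) ∣ 2 := by
    intro h
    have h3 : p ∣ 2 := by exact_mod_cast h
    exact hp2 ((Nat.prime_dvd_prime_iff_eq hp Nat.prime_two).1 h3)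
  induction J with
  | zero => exact ⟨u0, by simp, by simp⟩
  | succ J ih =>
    obtain ⟨u, hu1, hu2⟩ := ih
    by_cases hJ : J = 0
    · subst hJ
      exact ⟨u0, by simpa using h, by simp⟩
    obtain ⟨q, hq⟩ := hu1
    have hu3 : ¬ (p : ℤ) ∣ 2 * u := by
      intro h4
      rcases hpp.dvd_or_dvd h4 with h5 | h5
      · exact h2 h5
      · exact hu ((Int.dvd_iff_dvd_of_dvd_sub hu2).1 h5)
    have hcop : IsCoprime (p : ℤ) (2 * u) := hpp.coprime_iff_not_dvd.2 hu3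
    obtain ⟨a, b, hab⟩ := hcop
    refine ⟨u + p ^ J * (-(q * b)), ?_, ?_⟩
    · obtain ⟨J', rfl⟩ := Nat.exists_eq_succ_of_ne_zero hJ
      refine ⟨q * a + p ^ J' * (q * b) ^ 2, ?_⟩
      have e1 : (u + (p : ℤ) ^ (J' + 1) * (-(q * b))) ^ 2 - N = (u ^ 2 - N) -
        p ^ (J' + 1) * (q * b) * (2 * u) + p ^ (J' + 1) * p ^ (J' + 1) * (q * b) ^ 2 := by ring
      rw [Nat.succ_eq_add_one] at *
      rw [e1, hq]
      linear_combination -(p : ℤ) ^ (J' + 1) * q * hab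
    · obtain ⟨J', rfl⟩ := Nat.exists_eq_succ_of_ne_zero hJ
      have e1 : u + (p : ℤ) ^ (J' + 1) * (-(q * b)) - u0 = (u - u0) -
        p * (p ^ J' * (q * b)) := by ring
      rw [Nat.succ_eq_add_one, e1]
      exact dvd_sub hu2 (dvd_mul_right _ _)

theorem hensel_two {N : ℤ} (hN : (8 : ℤ) ∣ N - 1) (J : ℕ) :
    ∃ u : ℤ, Odd u ∧ (2 : ℤ) ^ J ∣ u ^ 2 - N := by
  have key : ∀ J : ℕ, ∃ u : ℤ, Odd u ∧ (2 : ℤ) ^ (J + 3) ∣ u ^ 2 - N := by
    intro J
    induction J with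
    | zero => exact ⟨1, odd_one, by
        obtain ⟨c, hc⟩ := hN
        exact ⟨-c, by linear_combination -hc⟩⟩
    | succ J ih =>
      obtain ⟨u, hu, q, hq⟩ := ih
      rcases Int.even_or_odd q with ⟨c, hc⟩ | ⟨c, hc⟩
      · exact ⟨u, hu, c, by rw [hq, hc]; ring⟩
      · obtain ⟨b, hb⟩ := hu
        refine ⟨u + 2 ^ (J + 2), ?_, c + b + 1 + 2 ^ J, ?_⟩
        · rw [hb]
          exact ⟨b + 2 ^ (J + 1), by ring⟩
        · have e1 : (u + 2 ^ (J + 2)) ^ 2 - N = (u ^ 2 - N) + 2 ^ (J + 3) * u +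
            2 ^ (J + 2) * 2 ^ (J + 2) := by ring
          rw [e1, hq, hc, hb]
          ring
  obtain ⟨u, hu, h⟩ := key J
  exact ⟨u, hu, (pow_dvd_pow 2 (by omega)).trans h⟩

theorem exists_exact {p t : ℤ} {m : ℕ} (h : ¬ p ^ (m + 1) ∣ t) :
    ∃ c ≤ m, p ^ c ∣ t ∧ ¬ p ^ (c + 1) ∣ t := by
  induction m with
  | zero => exact ⟨0, le_rfl, by simp, h⟩
  | succ m ih =>
    by_cases h1 : p ^ (m + 1) ∣ t
    · exact ⟨m + 1, le_rfl, h1, h⟩
    · obtain ⟨c, hc, h2⟩ := ih h1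
      exact ⟨c, hc.trans (Nat.le_succ m), h2⟩

theorem sign_choice {p a b : ℤ} {m : ℕ} (h : ¬ p ^ (m + 1) ∣ 2 * b) :
    ∃ ε : ℤ, (ε = 1 ∨ ε = -1) ∧ ∃ c ≤ m, p ^ c ∣ a - ε * b ∧ ¬ p ^ (c + 1) ∣ a - ε * b := by
  by_cases h1 : p ^ (m + 1) ∣ a - 1 * b
  · refine ⟨-1, Or.inr rfl, exists_exact fun h2 => h ?_⟩
    have e : 2 * b = (a - -1 * b) - (a - 1 * b) := by ring
    rw [e]
    exact dvd_sub h2 h1
  · exact ⟨1, Or.inl rfl, exists_exact h1⟩

/-- The factor at the prime number two. -/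
def four (p : ℕ) : ℤ := if p = 2 then 4 else 1

/-- The local condition at `p`. -/
structure Loc (p : ℕ) (k a e u : ℤ) (c : ℕ) : Prop where
  dvd : (p : ℤ) ^ c ∣ a - k * u
  exact : ¬ (p : ℤ) ^ (c + 1) ∣ a - k * u
  quad : four p * (p : ℤ) ^ c ∣ u ^ 2 + 3 - 2 * e

theorem not_dvd_mul_unit {p : ℕ} (hp : p.Prime) {k x : ℤ} {m : ℕ} (h : ¬ (p : ℤ) ^ m ∣ k)
    (hx : ¬ (p : ℤ) ∣ x) : ¬ (p : ℤ) ^ m ∣ k * x := by
  intro h1
  apply h
  have hpp := Nat.prime_iff_prime_int.1 hp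
  exact ((hpp.coprime_iff_not_dvd.2 hx).pow_left).dvd_of_dvd_mul_right h1

/-- The odd primes, from an approximate solution with a unit `u`. -/
theorem loc_of_unit {p : ℕ} (hp : p.Prime) (hp2 : p ≠ 2) {k ω e u z : ℤ} {κ : ℕ}
    (hk : ¬ (p : ℤ) ^ (κ + 1) ∣ k) (hu : ¬ (p : ℤ) ∣ u)
    (h : (p : ℤ) ^ κ ∣ u ^ 2 + 3 - 2 * e * z ^ 2) :
    ∃ u' c, Loc p k (ω * z) (e * z ^ 2) u' c := by
  have hpp := Nat.prime_iff_prime_int.1 hp
  have h2 : ¬ (p : ℤ) ∣ 2 := by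
    intro h
    have h3 : p ∣ 2 := by exact_mod_cast h
    exact hp2 ((Nat.prime_dvd_prime_iff_eq hp Nat.prime_two).1 h3)
  have h1 : ¬ (p : ℤ) ^ (κ + 1) ∣ 2 * (k * u) := by
    have e1 : 2 * (k * u) = k * (2 * u) := by ring
    rw [e1]
    refine not_dvd_mul_unit hp hk fun h3 => ?_
    rcases hpp.dvd_or_dvd h3 with h4 | h4
    · exact h2 h4
    · exact hu h4
  obtain ⟨ε, hε, c, hc, h3, h4⟩ := sign_choice (a := ω * z) h1
  have e2 : ω * z - k * (ε * u) = ω * z - ε * (k * u) := by ring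
  refine ⟨ε * u, c, by rw [e2]; exact h3, by rw [e2]; exact h4, ?_⟩
  rw [four, if_neg hp2, one_mul]
  refine (pow_dvd_pow _ hc).trans ?_
  have e3 : (ε * u) ^ 2 + 3 - 2 * (e * z ^ 2) = u ^ 2 + 3 - 2 * e * z ^ 2 := by
    rcases hε with rfl | rfl <;> ring
  rw [e3]
  exact h

/-- A conic modulo a prime number. -/
theorem conic {p : ℕ} (hp : p.Prime) (h5 : 5 ≤ p) {e : ℤ} (he : ¬ (p : ℤ) ∣ e) :
    ∃ u z : ℤ, ¬ (p : ℤ) ∣ u ∧ (p : ℤ) ∣ u ^ 2 + 3 - 2 * e * z ^ 2 := by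
  have hF : Fact p.Prime := ⟨hp⟩
  have hpp := Nat.prime_iff_prime_int.1 hp
  have hne : ∀ n : ℕ, n < p → 0 < n → ((n : ℕ) : ZMod p) ≠ 0 := by
    intro n h1 h2 h3
    rw [ZMod.natCast_eq_zero_iff] at h3
    exact absurd (Nat.le_of_dvd h2 h3) (by omega)
  have h2 : (2 : ZMod p) ≠ 0 := by exact_mod_cast hne 2 (by omega) (by omega)
  have h3 : (3 : ZMod p) ≠ 0 := by exact_mod_cast hne 3 (by omega) (by omega)
  have he' : (e : ZMod p) ≠ 0 := by
    intro h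
    exact he ((ZMod.intCast_zmod_eq_zero_iff_dvd e p).1 h)
  obtain ⟨a, b, hab⟩ : ∃ a b : ZMod p, a ^ 2 + 3 - 2 * e * b ^ 2 = 0 := by
    have hd1 : (Polynomial.X ^ 2 + Polynomial.C (3 : ZMod p)).degree = 2 := by
      compute_degree!
    have hd2 : (Polynomial.C (-(2 * e : ZMod p)) * Polynomial.X ^ 2).degree = 2 := by
      rw [Polynomial.degree_C_mul_X_pow]
      · rfl
      · exact neg_ne_zero.2 (mul_ne_zero h2 he')
    obtain ⟨a, b, hab⟩ := FiniteField.exists_root_sum_quadratic hd1 hd2 (by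
      rw [ZMod.card]
      exact Nat.odd_iff.1 (hp.odd_of_ne_two (by omega)))
    refine ⟨a, b, ?_⟩
    simp at hab
    linear_combination hab
  have key : ∃ a b : ZMod p, a ≠ 0 ∧ a ^ 2 + 3 - 2 * e * b ^ 2 = 0 := by
    by_cases ha : a = 0
    · refine ⟨3, 2 * b, h3, ?_⟩
      rw [ha] at hab
      linear_combination 4 * hab
    · exact ⟨a, b, ha, hab⟩
  obtain ⟨a, b, ha, hab⟩ := key
  refine ⟨a.val, b.val, ?_, ?_⟩
  · intro h
    apply ha
    have := (ZMod.intCast_zmod_eq_zero_iff_dvd _ p).2 h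
    push_cast at this
    rwa [ZMod.natCast_zmod_val] at this
  · rw [← ZMod.intCast_zmod_eq_zero_iff_dvd]
    push_cast
    rw [ZMod.natCast_zmod_val, ZMod.natCast_zmod_val]
    exact hab

theorem neg_three_sq {p : ℕ} (hp : p.Prime) (hmod : p % 3 = 1) : IsSquare (-3 : ZMod p) := by
  have hF : Fact p.Prime := ⟨hp⟩
  have h3 : Fact (Nat.Prime 3) := ⟨Nat.prime_three⟩
  have hcard : 3 ∣ Fintype.card (ZMod p)ˣ := by
    rw [ZMod.card_units p]
    omega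
  obtain ⟨x, hx⟩ := exists_prime_orderOf_dvd_card 3 hcard
  have h1 : (x : ZMod p) ^ 3 = 1 := by
    rw [← Units.val_pow_eq_pow_val, ← hx, pow_orderOf_eq_one, Units.val_one]
  have h2 : (x : ZMod p) ≠ 1 := by
    intro h
    have h4 : x = 1 := Units.ext h
    rw [h4, orderOf_one] at hx
    norm_num at hx
  have h4 : (x : ZMod p) ^ 2 + x + 1 = 0 := by
    have h5 : ((x : ZMod p) - 1) * ((x : ZMod p) ^ 2 + x + 1) = 0 := by linear_combination h1
    exact (mul_eq_zero.1 h5).resolve_left (sub_ne_zero.2 h2)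
  exact ⟨2 * x + 1, by linear_combination -4 * h4⟩

theorem exists_kappa {p : ℕ} (hp : p.Prime) {k : ℤ} (hk : k ≠ 0) :
    ∃ κ : ℕ, (p : ℤ) ^ κ ∣ k ∧ ¬ (p : ℤ) ^ (κ + 1) ∣ k := by
  have hfin : FiniteMultiplicity (p : ℤ) k := by
    rw [Int.finiteMultiplicity_iff]
    refine ⟨?_, hk⟩
    rw [Int.natAbs_natCast]
    exact hp.one_lt.ne'
  exact ⟨multiplicity (p : ℤ) k, pow_multiplicity_dvd _ _, hfin.not_pow_dvd_of_multiplicity_lt
    (Nat.lt_succ_self _)⟩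

/-- **The local solutions.** -/
theorem exists_loc {p : ℕ} (hp : p.Prime) {k : ℤ} (hk : k ≠ 0) (ω e : ℤ)
    (h2 : p = 2 → Even e ∧ ¬ 4 ∣ e) (h3 : p = 3 → e % 3 = 2 ∨ e % 9 = 6)
    (h5 : p ≠ 2 → p ≠ 3 → p % 3 = 1 ∨ ¬ (p : ℤ) ∣ e) :
    ∃ z u c, Loc p k (ω * z) (e * z ^ 2) u c := by
  have hpp := Nat.prime_iff_prime_int.1 hp
  obtain ⟨κ, hκ1, hκ2⟩ := exists_kappa hp hk
  by_cases hp2 : p = 2
  · subst hp2
    obtain ⟨⟨m, hm⟩, h4⟩ := h2 rfl
    obtain ⟨u, hu, hu2⟩ := hensel_two (N := 2 * e - 3) (by omega) (κ + 3)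
    have hu' : ¬ ((2 : ℕ) : ℤ) ∣ u := by
      intro h
      exact (Int.not_even_iff_odd.2 hu) (even_iff_two_dvd.2 (by exact_mod_cast h))
    have h1 : ¬ ((2 : ℕ) : ℤ) ^ (κ + 1 + 1) ∣ 2 * (k * u) := by
      intro h
      apply not_dvd_mul_unit hp hκ2 hu'
      obtain ⟨c, hc⟩ := h
      refine ⟨c, ?_⟩
      have h6 : (2 : ℤ) * (k * u) = 2 * (((2 : ℕ) : ℤ) ^ (κ + 1) * c) := by
        rw [hc]
        push_cast
        ring
      exact mul_left_cancel₀ two_ne_zero h6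
    obtain ⟨ε, hε, c, hc, h6, h7⟩ := sign_choice (a := ω * 1) h1
    have e2 : ω * 1 - k * (ε * u) = ω * 1 - ε * (k * u) := by ring
    refine ⟨1, ε * u, c, by rw [e2]; exact h6, by rw [e2]; exact h7, ?_⟩
    have e3 : (ε * u) ^ 2 + 3 - 2 * (e * 1 ^ 2) = u ^ 2 - (2 * e - 3) := by
      rcases hε with rfl | rfl <;> ring
    rw [e3, four, if_pos rfl]
    refine Dvd.dvd.trans ?_ hu2
    push_cast
    have e4 : (4 : ℤ) * 2 ^ c = 2 ^ (c + 2) := by ring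
    rw [e4]
    exact pow_dvd_pow _ (by omega)
  by_cases hp3 : p = 3
  · subst hp3
    rcases h3 rfl with h | h
    · obtain ⟨u, hu1, hu2⟩ := hensel_odd hp hp2 (N := 2 * e - 3) (u0 := 1) (by norm_num)
        (by push_cast; omega) κ
      obtain ⟨u', c, hL⟩ := loc_of_unit hp hp2 (ω := ω) (e := e) (u := u) (z := 1) hκ2 (by
        intro h6
        push_cast at h6 hu2
        omega) (by
        have e1 : u ^ 2 + 3 - 2 * e * 1 ^ 2 = u ^ 2 - (2 * e - 3) := by ring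
        rw [e1]
        exact hu1)
      exact ⟨1, u', c, hL⟩
    · obtain ⟨e', he'⟩ : (3 : ℤ) ∣ e := by omega
      have hcop : IsCoprime ((3 : ℤ) ^ (κ + 1)) e' := by
        refine IsCoprime.pow_left ?_
        rw [Int.prime_three.coprime_iff_not_dvd]
        omega
      obtain ⟨a, b, hab⟩ := hcop
      have hb : (3 : ℤ) ∣ 1 - 2 * b := by
        have h6 : e' % 3 = 2 := by omega
        have h7 : (3 : ℤ) ∣ b * e' - 1 := ⟨-(a * 3 ^ κ), by linear_combination hab⟩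
        have h8 : (b * e') % 3 = 1 := by omega
        rw [Int.mul_emod, h6] at h8
        omega
      obtain ⟨z, hz1, hz2⟩ := hensel_odd hp hp2 (N := 2 * b) (u0 := 1) (by norm_num)
        (by push_cast; simpa using hb) (κ + 1)
      push_cast at hz1 hz2
      have hq : (3 : ℤ) ^ (κ + 1) ∣ 3 ^ 2 + 3 - 2 * e * z ^ 2 := by
        obtain ⟨q, hq⟩ := hz1
        refine ⟨12 * a - 6 * e' * q, ?_⟩
        rw [he']
        linear_combination (-6 * e') * hq - 12 * hab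
      have h1 : ¬ ((3 : ℕ) : ℤ) ^ (κ + 1 + 1) ∣ 2 * (k * 3) := by
        intro h6
        apply not_dvd_mul_unit hp (x := 2) hκ2 (by norm_num)
        obtain ⟨c, hc⟩ := h6
        refine ⟨c, ?_⟩
        have h6 : (3 : ℤ) * (k * 2) = 3 * (((3 : ℕ) : ℤ) ^ (κ + 1) * c) := by
          push_cast at hc ⊢
          linear_combination hc
        exact mul_left_cancel₀ three_ne_zero h6
      obtain ⟨ε, hε, c, hc, h6, h7⟩ := sign_choice (a := ω * z) h1
      have e2 : ω * z - k * (ε * 3) = ω * z - ε * (k * 3) := by ring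
      refine ⟨z, ε * 3, c, by rw [e2]; exact h6, by rw [e2]; exact h7, ?_⟩
      have e3 : (ε * 3) ^ 2 + 3 - 2 * (e * z ^ 2) = 3 ^ 2 + 3 - 2 * e * z ^ 2 := by
        rcases hε with rfl | rfl <;> ring
      rw [e3, four, if_neg hp2, one_mul]
      refine Dvd.dvd.trans ?_ hq
      push_cast
      exact pow_dvd_pow _ hc
  · have h5p : 5 ≤ p := by
      have := hp.two_le
      have h4 : p ≠ 4 := by
        rintro rfl
        revert hp
        decide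
      omega
    by_cases he : (p : ℤ) ∣ e
    · have hmod := (h5 hp2 hp3).resolve_right (not_not.2 he)
      -- `-3` is a square
      have hF : Fact p.Prime := ⟨hp⟩
      have hsq : IsSquare (-3 : ZMod p) := by
        exact neg_three_sq hp hmod
      obtain ⟨s, hs⟩ := hsq
      have hu0 : (p : ℤ) ∣ (s.val : ℤ) ^ 2 - (-3) := by
        rw [← ZMod.intCast_zmod_eq_zero_iff_dvd]
        push_cast
        rw [ZMod.natCast_zmod_val]
        linear_combination -hs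
      have hs0 : ¬ (p : ℤ) ∣ (s.val : ℤ) := by
        intro h
        have h6 : (p : ℤ) ∣ 3 := by
          have e1 : (3 : ℤ) = ((s.val : ℤ) ^ 2 - (-3)) - s.val * s.val := by ring
          rw [e1]
          exact dvd_sub hu0 (h.mul_left _)
        have h7 : p ∣ 3 := by exact_mod_cast h6
        exact hp3 ((Nat.prime_dvd_prime_iff_eq hp Nat.prime_three).1 h7)
      obtain ⟨u, hu1, hu2⟩ := hensel_odd hp hp2 hs0 hu0 κ
      obtain ⟨u', c, hL⟩ := loc_of_unit hp hp2 (ω := ω) (e := e) (u := u) (z := 0) hκ2 (by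
        intro h6
        exact hs0 ((Int.dvd_iff_dvd_of_dvd_sub hu2).1 h6)) (by
        have e1 : u ^ 2 + 3 - 2 * e * 0 ^ 2 = u ^ 2 - (-3) := by ring
        rw [e1]
        exact hu1)
      exact ⟨0, u', c, hL⟩
    · obtain ⟨u0, z, hu0, hq⟩ := conic hp h5p he
      obtain ⟨u, hu1, hu2⟩ := hensel_odd hp hp2 (N := 2 * e * z ^ 2 - 3) hu0 (by
        have e1 : u0 ^ 2 - (2 * e * z ^ 2 - 3) = u0 ^ 2 + 3 - 2 * e * z ^ 2 := by ring
        rw [e1]
        exact hq) κ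
      obtain ⟨u', c, hL⟩ := loc_of_unit hp hp2 (ω := ω) (e := e) (u := u) (z := z) hκ2 (by
        intro h6
        exact hu0 ((Int.dvd_iff_dvd_of_dvd_sub hu2).1 h6)) (by
        have e1 : u ^ 2 + 3 - 2 * e * z ^ 2 = u ^ 2 - (2 * e * z ^ 2 - 3) := by ring
        rw [e1]
        exact hu1)
      exact ⟨z, u', c, hL⟩

end Pool.Agent.L5helper19.GS
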