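import Pool.Agent.Y95.Q.K3
import Pool.Agent.L5helper19.GS.Local

/-!
# Gluing local solutions
-/

set_option autoImplicit false

namespace Pool.Agent.L5helper19.GS

open Pool.Agent.Y95.Q

/-- Splitting off the part of an integer which is composed of the primes dividing `s`. -/
theorem split_nat (s : ℕ) : ∀ n : ℕ, n ≠ 0 → ∃ d r : ℕ, n = d * r ∧ Nat.Coprime r s ∧
    ∀ p : ℕ, p.Prime → p ∣ d → p ∣ s := by
  intro n
  induction n using Nat.strong_induction_on with
  | _ n ih =>
    intro hn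
    by_cases hc : Nat.Coprime n s
    · refine ⟨1, n, by simp, hc, fun p hp h => ?_⟩
      exact absurd (Nat.dvd_one.1 h) hp.one_lt.ne'
    · obtain ⟨p, hp, hpn, hps⟩ := Nat.Prime.not_coprime_iff_dvd.1 hc
      obtain ⟨n', rfl⟩ := hpn
      have hn' : n' ≠ 0 := by
        rintro rfl
        simp at hn
      obtain ⟨d, r, rfl, h1, h2⟩ := ih n' (by
        have := hp.one_lt
        have := Nat.pos_of_ne_zero hn'
        nlinarith) hn'
      refine ⟨p * d, r, by ring, h1, fun q hq h => ?_⟩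
      rcases hq.dvd_mul.1 h with h3 | h3
      · rwa [(Nat.prime_dvd_prime_iff_eq hq hp).1 h3]
      · exact h2 q hq h3

/-- From the local conditions to a factorization. -/
theorem assemble {k t F : ℤ}
    (hloc : ∀ p : ℕ, p.Prime → (p : ℤ) ∣ 6 * k → ∃ c : ℕ, (p : ℤ) ^ c ∣ t ∧
      ¬ (p : ℤ) ^ (c + 1) ∣ t ∧ four p * (p : ℤ) ^ c ∣ F) :
    ∃ d r : ℤ, 0 < d ∧ t = d * r ∧ IsCoprime r (24 * k) ∧ 4 * d ∣ F := by
  have ht0 : t ≠ 0 := by
    obtain ⟨c, -, h, -⟩ := hloc 2 Nat.prime_two ⟨3 * k, by push_cast; ring⟩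
    rintro rfl
    exact h (dvd_zero _)
  obtain ⟨d, r, hdr, hr, hd⟩ := split_nat (24 * k).natAbs t.natAbs (Int.natAbs_ne_zero.2 ht0)
  have hd0 : d ≠ 0 := by
    rintro rfl
    apply ht0
    rw [← Int.natAbs_eq_zero, hdr, zero_mul]
  have hdt : (d : ℤ) ∣ t := Int.natCast_dvd.2 ⟨r, hdr⟩
  obtain ⟨r', hr'⟩ := hdt
  have hr2 : r'.natAbs = r := by
    have h1 := congrArg Int.natAbs hr'
    rw [Int.natAbs_mul, Int.natAbs_natCast, hdr] at h1
    exact (mul_left_cancel₀ hd0 h1).symm
  refine ⟨d, r', by exact_mod_cast Nat.pos_of_ne_zero hd0, hr', ?_, ?_⟩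
  · rw [Int.isCoprime_iff_gcd_eq_one, Int.gcd, hr2]
    exact hr
  · rw [← Int.natAbs_dvd_natAbs, Nat.dvd_iff_prime_pow_dvd_dvd]
    intro p j hp hpj
    have h1 : (p : ℤ) ^ j ∣ 4 * d := by
      have := Int.natCast_dvd.2 hpj
      exact_mod_cast this
    suffices h : (p : ℤ) ^ j ∣ F by
      have h2 := Int.natAbs_dvd_natAbs.2 h
      rwa [Int.natAbs_pow, Int.natAbs_natCast] at h2
    have hpp := Nat.prime_iff_prime_int.1 hp
    by_cases hp6 : (p : ℤ) ∣ 6 * k
    · obtain ⟨c, hc1, hc2, hc3⟩ := hloc p hp hp6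
      by_cases hp2 : p = 2
      · subst hp2
        rw [four, if_pos rfl] at hc3
        have h3 : j ≤ c + 2 := by
          by_contra hcon
          apply hc2
          have h4 : ((2 : ℕ) : ℤ) ^ (c + 3) ∣ 4 * d := (pow_dvd_pow _ (by omega)).trans h1
          obtain ⟨b, hb⟩ := h4
          rw [hr']
          refine Dvd.dvd.mul_right ⟨b, ?_⟩ _
          have h5 : (4 : ℤ) * d = 4 * (((2 : ℕ) : ℤ) ^ (c + 1) * b) := by
            rw [hb]
            push_cast
            ring
          exact mul_left_cancel₀ four_ne_zero h5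
        refine Dvd.dvd.trans ((pow_dvd_pow _ h3).trans ?_) hc3
        push_cast
        exact ⟨1, by ring⟩
      · rw [four, if_neg hp2, one_mul] at hc3
        have h4 : ¬ (p : ℤ) ∣ 4 := by
          intro h
          have h5 : p ∣ 2 ^ 2 := by
            have : p ∣ 4 := by exact_mod_cast h
            simpa using this
          exact hp2 ((Nat.prime_dvd_prime_iff_eq hp Nat.prime_two).1 (hp.dvd_of_dvd_pow h5))
        have h5 : (p : ℤ) ^ j ∣ d :=
          ((hpp.coprime_iff_not_dvd.2 h4).pow_left).dvd_of_dvd_mul_left h1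
        have h3 : j ≤ c := by
          by_contra hcon
          apply hc2
          exact (pow_dvd_pow _ (by omega)).trans (h5.trans ⟨r', hr'⟩)
        exact (pow_dvd_pow _ h3).trans hc3
    · rcases Nat.eq_zero_or_pos j with rfl | hj
      · simp
      · exfalso
        have h5 : (p : ℤ) ∣ 4 * d := (dvd_pow_self _ hj.ne').trans h1
        rcases hpp.dvd_or_dvd h5 with h6 | h6
        · apply hp6
          have h5 : p ∣ 2 ^ 2 := by
            have : p ∣ 4 := by exact_mod_cast h6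
            simpa using this
          have h7 := (Nat.prime_dvd_prime_iff_eq hp Nat.prime_two).1 (hp.dvd_of_dvd_pow h5)
          rw [h7]
          exact ⟨3 * k, by push_cast; ring⟩
        · have h7 : p ∣ d := by exact_mod_cast h6
          have h8 := hd p hp h7
          have h9 : (p : ℤ) ∣ 24 * k := Int.natCast_dvd.2 h8
          rcases hpp.dvd_or_dvd h9 with h10 | h10
          · have h11 : p ∣ 2 ^ 3 * 3 := by
              have : p ∣ 24 := by exact_mod_cast h10
              simpa using this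
            apply hp6
            rcases hp.dvd_mul.1 h11 with h12 | h12
            · rw [(Nat.prime_dvd_prime_iff_eq hp Nat.prime_two).1 (hp.dvd_of_dvd_pow h12)]
              exact ⟨3 * k, by push_cast; ring⟩
            · rw [(Nat.prime_dvd_prime_iff_eq hp Nat.prime_three).1 h12]
              exact ⟨2 * k, by push_cast; ring⟩
          · exact hp6 (h10.mul_left _)

variable {X : CubicFourfold} {H : H4 X}

/-- The bilinear form of the discriminant. -/
def bil (H : H4 X) (v w : Fin 23 → ℤ) : ℤ := 3 * H.ip v w - H.ip H.h v * H.ip H.h w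

theorem disc_add_smul (hH : H.IsCohomology) (n : ℤ) (v w : Fin 23 → ℤ) :
    H.disc (v + n • w) = H.disc v + 2 * n * bil H v w + n ^ 2 * H.disc w := by
  simp only [H4.disc, bil, H.ip_add_left, H.ip_add_right, H.ip_smul_left, H.ip_smul_right,
    hH.comm w v]
  ring

theorem bil_add_smul (a v w : Fin 23 → ℤ) (n : ℤ) :
    bil H a (v + n • w) = bil H a v + n * bil H a w := by
  simp only [bil, H.ip_add_right, H.ip_smul_right]
  ring

theorem bil_self (v : Fin 23 → ℤ) : bil H v v = H.disc v := by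
  simp only [bil, H4.disc]
  ring

theorem bil_comm (hH : H.IsCohomology) (v w : Fin 23 → ℤ) : bil H v w = bil H w v := by
  simp only [bil, hH.comm v w]
  ring

theorem disc_even (hH : H.IsCohomology) (v : Fin 23 → ℤ) : Even (H.disc v) := by
  have h1 := hH.char v
  rw [hH.comm v H.h] at h1
  have h3 : H.disc v = 2 * H.ip v v + (H.ip v v - H.ip H.h v) +
      (H.ip H.h v - H.ip H.h v ^ 2) := by
    simp only [H4.disc]
    ring
  rw [h3]
  refine Even.add (Even.add (even_two_mul _) h1) ?_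
  have h4 : H.ip H.h v - H.ip H.h v ^ 2 = -(H.ip H.h v * (H.ip H.h v - 1)) := by ring
  rw [h4]
  exact (Int.even_mul_pred_self _).neg

/-- The Chinese remainder theorem for Hodge classes. -/
theorem crt_hodge (S : Finset ℕ) (P : ℕ → ℤ)
    (hP : ∀ p ∈ S, ∀ q ∈ S, p ≠ q → IsCoprime (P p) (P q)) (w : ℕ → Fin 23 → ℤ)
    (hw : ∀ p ∈ S, H.IsHodge (w p)) (u : ℕ → ℤ) :
    ∃ (v : Fin 23 → ℤ) (x : ℤ), H.IsHodge v ∧ ∀ p ∈ S,
      (∃ y, H.IsHodge y ∧ v = w p + P p • y) ∧ P p ∣ x - u p := by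
  classical
  induction S using Finset.induction_on with
  | empty => exact ⟨0, 0, H.isHodge_zero, by simp⟩
  | insert p0 S hp0 ih =>
    obtain ⟨v, x, hv, hS⟩ := ih
      (fun p hp q hq hpq => hP p (Finset.mem_insert_of_mem hp) q (Finset.mem_insert_of_mem hq) hpq)
      (fun p hp => hw p (Finset.mem_insert_of_mem hp))
    have hcop : IsCoprime (∏ q ∈ S, P q) (P p0) := by
      refine IsCoprime.prod_left fun q hq => ?_
      refine hP q (Finset.mem_insert_of_mem hq) p0 (Finset.mem_insert_self _ _) ?_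
      rintro rfl
      exact hp0 hq
    obtain ⟨a, b, hab⟩ := hcop
    set M := ∏ q ∈ S, P q with hM
    have hw0 := hw p0 (Finset.mem_insert_self _ _)
    have hvw := H.isHodge_sub hw0 hv
    refine ⟨v + (a * M) • (w p0 - v), x + a * M * (u p0 - x),
      H.isHodge_add hv (H.isHodge_smul _ hvw), ?_⟩
    intro p hp
    rcases Finset.mem_insert.1 hp with rfl | hp
    · refine ⟨⟨b • (v - w p), H.isHodge_smul _ (H.isHodge_sub hv hw0), ?_⟩, ?_⟩
      · have h1 : a * M = 1 - b * P p := by linear_combination hab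
        rw [h1, smul_smul, mul_comm (P p) b]
        module
      · refine ⟨b * (x - u p), ?_⟩
        linear_combination (u p - x) * hab
    · obtain ⟨⟨y, hy, hvy⟩, hxu⟩ := hS p hp
      obtain ⟨M', hM'⟩ : P p ∣ M := Finset.dvd_prod_of_mem P hp
      refine ⟨⟨y + (a * M') • (w p0 - v), H.isHodge_add hy (H.isHodge_smul _ hvw), ?_⟩, ?_⟩
      · have h1 : a * M = P p * (a * M') := by
          rw [hM']
          ring
        rw [h1, smul_add, ← add_assoc, ← hvy, smul_smul]
      · have h1 : x + a * M * (u p0 - x) - u p = (x - u p) + P p * (a * M' * (u p0 - x)) := by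
          rw [hM']
          ring
        rw [h1]
        exact dvd_add hxu (dvd_mul_right _ _)

/-- The local condition depends only on the class modulo a power of the prime. -/
theorem Loc.congr (hH : H.IsCohomology) {p : ℕ} {k : ℤ} {A w y v : Fin 23 → ℤ} {u x : ℤ} {c : ℕ}
    (h : Loc p k (bil H A w) (H.disc w) u c) (hv : v = w + ((p : ℤ) ^ (c + 3)) • y)
    (hx : (p : ℤ) ^ (c + 3) ∣ x - u) : Loc p k (bil H A v) (H.disc v) x c := by
  obtain ⟨b, hb⟩ := hx
  obtain rfl : x = u + (p : ℤ) ^ (c + 3) * b := by linear_combination hb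
  have e1 : bil H A v - k * (u + (p : ℤ) ^ (c + 3) * b) = (bil H A w - k * u) +
      (p : ℤ) ^ (c + 3) * (bil H A y - k * b) := by
    rw [hv, bil_add_smul]
    ring
  have e2 : (u + (p : ℤ) ^ (c + 3) * b) ^ 2 + 3 - 2 * H.disc v = (u ^ 2 + 3 - 2 * H.disc w) +
      (p : ℤ) ^ (c + 3) * (b * (2 * u + (p : ℤ) ^ (c + 3) * b) - 4 * bil H w y -
        2 * (p : ℤ) ^ (c + 3) * H.disc y) := by
    rw [hv, disc_add_smul hH]
    ring
  refine ⟨?_, ?_, ?_⟩
  · rw [e1]
    exact dvd_add h.dvd ((pow_dvd_pow _ (by omega)).mul_right _)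
  · rw [e1]
    intro h1
    exact h.exact ((dvd_add_left ((pow_dvd_pow _ (by omega)).mul_right _)).1 h1)
  · rw [e2]
    refine dvd_add h.quad (Dvd.dvd.mul_right ?_ _)
    rw [four]
    split_ifs with h2
    · rw [h2]
      push_cast
      exact ⟨2, by ring⟩
    · rw [one_mul]
      exact pow_dvd_pow _ (by omega)

/-- **Gluing**: local solutions at all primes dividing `6 k` give a global approximate solution. -/
theorem glue (hH : H.IsCohomology) {k : ℤ} (hk : 0 < k) {A : Fin 23 → ℤ} (w : ℕ → Fin 23 → ℤ)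
    (u : ℕ → ℤ) (c : ℕ → ℕ)
    (hw : ∀ p : ℕ, p.Prime → (p : ℤ) ∣ 6 * k → H.IsHodge (w p) ∧
      Loc p k (bil H A (w p)) (H.disc (w p)) (u p) (c p)) :
    ∃ (v : Fin 23 → ℤ) (x : ℤ), H.IsHodge v ∧ ∀ p : ℕ, p.Prime → (p : ℤ) ∣ 6 * k →
      (p : ℤ) ^ (c p + 3) ∣ x - u p ∧
      (∃ y, H.IsHodge y ∧ v = w p + ((p : ℤ) ^ (c p + 3)) • y) ∧
      Loc p k (bil H A v) (H.disc v) x (c p) := by
  have hS : ∀ p : ℕ, p ∈ (6 * k).natAbs.primeFactors ↔ p.Prime ∧ (p : ℤ) ∣ 6 * k := by
    intro p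
    rw [Nat.mem_primeFactors]
    constructor
    · rintro ⟨h1, h2, -⟩
      exact ⟨h1, Int.natCast_dvd.2 h2⟩
    · rintro ⟨h1, h2⟩
      exact ⟨h1, Int.natCast_dvd.1 h2, Int.natAbs_ne_zero.2 (by positivity)⟩
  obtain ⟨v, x, hv, h⟩ := crt_hodge (H := H) (6 * k).natAbs.primeFactors
    (fun p => (p : ℤ) ^ (c p + 3)) (by
      intro p hp q hq hpq
      refine IsCoprime.pow ?_
      rw [Nat.isCoprime_iff_coprime]
      exact (Nat.coprime_primes ((hS p).1 hp).1 ((hS q).1 hq).1).2 hpq) w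
    (fun p hp => (hw p ((hS p).1 hp).1 ((hS p).1 hp).2).1) u
  refine ⟨v, x, hv, fun p hp hpk => ?_⟩
  obtain ⟨⟨y, hy, hvy⟩, hx⟩ := h p ((hS p).2 ⟨hp, hpk⟩)
  exact ⟨hx, ⟨y, hy, hvy⟩, (hw p hp hpk).2.congr hH hvy hx⟩

end Pool.Agent.L5helper19.GS
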