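import Pool.Agent.Y95.Q.Defs

/-!
# The conditions of Galkin and Shinder, and of Hassett and Kuznetsov
-/

set_option autoImplicit false

namespace Pool.Agent.L5helper19.GS

open Pool.Agent.Y95.Q

/-- `X` is in the Hassett divisor `C_d`: there is a Hodge class `v` such that `h` and `v` span a
saturated group of discriminant `d`. -/
def InDivisor {X : CubicFourfold} (H : H4 X) (d : ℤ) : Prop :=
  ∃ v, H.IsHodge v ∧ H.Saturated v ∧ H.disc v = d

/-- `X` is in a Hassett divisor `C_d`, where `d = (2 n ^ 2 + 2 n + 2) / a ^ 2` with integers `a` and `n`.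
By a theorem of Addington this means that the variety of lines `F(X)` is birational to the Hilbert
square `S^[2]` of some K3 surface `S`. -/
def HilbertSquare {X : CubicFourfold} (H : H4 X) : Prop :=
  ∃ d, (∃ a n : ℤ, a ^ 2 * d = 2 * n ^ 2 + 2 * n + 2) ∧ InDivisor H d

/-- `X` is in a Hassett divisor `C_d` with an admissible `d`. By theorems of Hassett and of Addington
and Thomas this means that `X` has an associated K3 surface, in the sense of Hassett or of
Kuznetsov. -/
def AssociatedK3 {X : CubicFourfold} (H : H4 X) : Prop := ∃ d, Admissible d ∧ InDivisor H d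

/-- Congruences: there is a Hodge class with a discriminant which is not divisible by `4`, there is a
Hodge class `v` such that `v.h` is not divisible by `3` or `v.v ≡ 2` modulo `3`, and for every prime
number `p > 2` with `p ≡ 2` modulo `3` there is a Hodge class with a discriminant which is not
divisible by `p`. -/
def Congruences {X : CubicFourfold} (H : H4 X) : Prop :=
  (∃ v, H.IsHodge v ∧ ¬ 4 ∣ H.disc v) ∧
  (∃ v, H.IsHodge v ∧ (¬ 3 ∣ H.ip v H.h ∨ H.ip v v % 3 = 2)) ∧
  ∀ p : ℕ, p.Prime → 2 < p → p % 3 = 2 → ∃ v, H.IsHodge v ∧ ¬ (p : ℤ) ∣ H.disc v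

end Pool.Agent.L5helper19.GS
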