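import Pool.Agent.L5helper19.GS.Four
import Pool.Agent.R847.QB.Mat
import Pool.Agent.R847.QB.Meyer
import Pool.Agent.R847.QB.Iso
import Pool.Agent.R847.QB.Dir

/-!
# Rank at least five: Meyer's theorem gives a class of discriminant `2 k ^ 2`
-/

set_option autoImplicit false

namespace Pool.Agent.L5helper19.GS

open Pool.Agent.Y95.Q

variable {X : CubicFourfold} {H : H4 X}

/-- The theorem of Meyer for symmetric matrices. -/
theorem meyer_mat : Pool.Agent.R847.QB.S_MAT :=
  Pool.Agent.R847.QB.mat_ (Pool.Agent.R847.QB.meyer Pool.Agent.R847.QB.iso_ Pool.Agent.R847.QB.dir_)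

/-- Four independent Hodge classes orthogonal to `h`. -/
theorem exists_primitive (hr : 5 ≤ H.rank) :
    ∃ f : Fin 4 → Fin 23 → ℤ, LinearIndependent ℤ f ∧ ∀ i, H.IsHodge (f i) ∧
      H.ip H.h (f i) = 0 := by
  let S := Submodule.span ℤ {v | H.IsHodge v}
  let φ : S →ₗ[ℤ] ℤ :=
    { toFun := fun v => H.ip H.h v
      map_add' := fun v w => by simp [H.ip_add_right]
      map_smul' := fun a v => by
        rw [Submodule.coe_smul, H.ip_smul_right]
        simp }
  have h1 := Submodule.finrank_quotient_add_finrank (LinearMap.ker φ)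
  rw [LinearEquiv.finrank_eq φ.quotKerEquivRange] at h1
  have h2 : Module.finrank ℤ (LinearMap.range φ) ≤ 1 := by
    refine (Submodule.finrank_le _).trans ?_
    simp
  have h3 : Module.finrank ℤ S = H.rank := rfl
  have h4 : 4 ≤ Module.finrank ℤ (LinearMap.ker φ) := by omega
  obtain ⟨f, hf⟩ := exists_linearIndependent_of_le_finrank h4
  refine ⟨fun i => ((f i : S) : Fin 23 → ℤ), ?_, fun i => ⟨hodge_of_span (f i : S).2, ?_⟩⟩
  · have h5 := hf.map' (Submodule.subtype _) (Submodule.ker_subtype _)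
    exact h5.map' (Submodule.subtype _) (Submodule.ker_subtype _)
  · exact (f i).2

theorem exists_square (hH : H.IsCohomology) (hr : 5 ≤ H.rank) :
    ∃ (A : Fin 23 → ℤ) (k : ℤ), 0 < k ∧ H.IsHodge A ∧ H.disc A = 2 * k ^ 2 := by
  obtain ⟨f, hf, hfH⟩ := exists_primitive (H := H) hr
  have hcomb : ∀ y : Fin 4 → ℤ, H.IsHodge (∑ i, y i • f i) := fun y =>
    H.isHodge_sum _ _ fun i _ => H.isHodge_smul _ (hfH i).1
  have hprim : ∀ y : Fin 4 → ℤ, H.ip H.h (∑ i, y i • f i) = 0 := fun y => by
    rw [H.ip_sum_right]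
    refine Finset.sum_eq_zero fun i _ => ?_
    rw [H.ip_smul_right, (hfH i).2, mul_zero]
  have hform : ∀ y : Fin 4 → ℤ, H.ip (∑ i, y i • f i) (∑ i, y i • f i) =
      ∑ i, ∑ j, y i * y j * H.ip (f i) (f j) := fun y => by
    rw [H.ip_sum_left]
    refine Finset.sum_congr rfl fun i _ => ?_
    rw [H.ip_smul_left, H.ip_sum_right, Finset.mul_sum]
    refine Finset.sum_congr rfl fun j _ => ?_
    rw [H.ip_smul_right]
    ring
  -- the matrix
  let M : Matrix (Fin 5) (Fin 5) ℚ := fun i j => Fin.cases (Fin.cases 1 (fun _ => 0) j)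
    (fun i' => Fin.cases 0 (fun j' => -6 * (H.ip (f i') (f j') : ℚ)) j) i
  have hM00 : M 0 0 = 1 := rfl
  have hM0 : ∀ j : Fin 4, M 0 j.succ = 0 := fun j => rfl
  have hM1 : ∀ i : Fin 4, M i.succ 0 = 0 := fun i => rfl
  have hM2 : ∀ i j : Fin 4, M i.succ j.succ = -6 * (H.ip (f i) (f j) : ℚ) := fun i j => rfl
  have hsymm : M.IsSymm := by
    ext i j
    rw [Matrix.transpose_apply]
    refine Fin.cases ?_ (fun i => ?_) i <;> refine Fin.cases ?_ (fun j => ?_) j
    · rfl
    · rw [hM0, hM1]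
    · rw [hM0, hM1]
    · rw [hM2, hM2, hH.comm (f i) (f j)]
  -- the quadratic form
  have hval : ∀ w : Fin 5 → ℚ, w ⬝ᵥ M.mulVec w = w 0 ^ 2 -
      6 * ∑ i : Fin 4, ∑ j : Fin 4, w i.succ * w j.succ * (H.ip (f i) (f j) : ℚ) := by
    intro w
    simp only [dotProduct, Matrix.mulVec]
    rw [Fin.sum_univ_succ]
    have e1 : ∑ j : Fin 5, M 0 j * w j = w 0 := by
      rw [Fin.sum_univ_succ, hM00]
      simp [hM0]
    have e2 : ∀ i : Fin 4, ∑ j : Fin 5, M i.succ j * w j =
        -6 * ∑ j : Fin 4, (H.ip (f i) (f j) : ℚ) * w j.succ := by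
      intro i
      rw [Fin.sum_univ_succ, hM1, Finset.mul_sum, zero_mul, zero_add]
      refine Finset.sum_congr rfl fun j _ => ?_
      rw [hM2]
      ring
    rw [e1]
    simp only [e2]
    rw [pow_two, sub_eq_add_neg]
    congr 1
    rw [Finset.mul_sum, ← Finset.sum_neg_distrib]
    refine Finset.sum_congr rfl fun i _ => ?_
    rw [Finset.mul_sum, Finset.mul_sum, Finset.mul_sum, ← Finset.sum_neg_distrib]
    refine Finset.sum_congr rfl fun j _ => ?_
    ring
  -- clearing denominators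
  have hclear : ∀ w : Fin 5 → ℚ, ∃ (D : ℤ) (y : Fin 5 → ℤ), D ≠ 0 ∧ ∀ i, (y i : ℚ) = D * w i := by
    intro w
    refine ⟨∏ i, ((w i).den : ℤ), fun i => (w i).num * ∏ j ∈ Finset.univ.erase i, ((w j).den : ℤ),
      ?_, fun i => ?_⟩
    · exact Finset.prod_ne_zero_iff.2 fun i _ => Int.natCast_ne_zero.2 (w i).den_ne_zero
    · rw [← Finset.mul_prod_erase Finset.univ _ (Finset.mem_univ i)]
      push_cast
      have h1 : ((w i).num : ℚ) = (w i).den * w i := by
        rw [mul_comm, Rat.mul_den_eq_num]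
      rw [h1]
      ring
  -- positivity
  have hpos : ∀ y : Fin 4 → ℤ, y ≠ 0 → 0 < H.disc (∑ i, y i • f i) := by
    intro y hy
    have h1 : ∑ i, y i • f i ≠ 0 := by
      intro h
      apply hy
      ext i
      exact Fintype.linearIndependent_iff.1 hf y h i
    have h2 := hH.pos _ (hcomb y) h1
    simp only [H4.disc, hprim]
    omega
  have hdet : M.det ≠ 0 := by
    intro h0
    obtain ⟨w, hw0, hw⟩ := Matrix.exists_mulVec_eq_zero_iff.2 h0
    have h1 : w 0 = 0 := by
      have h2 := congrFun hw 0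
      simp only [Matrix.mulVec, dotProduct, Pi.zero_apply] at h2
      rw [Fin.sum_univ_succ, hM00] at h2
      simpa [hM0] using h2
    have h2 := hval w
    rw [hw, dotProduct_zero, h1] at h2
    obtain ⟨D, y, hD, hy⟩ := hclear w
    have h3 : (fun i : Fin 4 => y i.succ) ≠ 0 := by
      intro h
      apply hw0
      ext i
      refine Fin.cases h1 (fun i => ?_) i
      have h4 : (y i.succ : ℚ) = 0 := by
        have := congrFun h i
        simp only [Pi.zero_apply] at this
        exact_mod_cast this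
      rw [hy] at h4
      exact (mul_eq_zero.1 h4).resolve_left (by exact_mod_cast hD)
    have h4 := hpos _ h3
    simp only [H4.disc, hprim, hform] at h4
    have h5 : ((∑ i : Fin 4, ∑ j : Fin 4, y i.succ * y j.succ * H.ip (f i) (f j) : ℤ) : ℚ) = 0 := by
      push_cast
      have h6 : ∑ i : Fin 4, ∑ j : Fin 4, (y i.succ : ℚ) * y j.succ * (H.ip (f i) (f j) : ℚ) =
          D ^ 2 * ∑ i : Fin 4, ∑ j : Fin 4, w i.succ * w j.succ * (H.ip (f i) (f j) : ℚ) := by
        rw [Finset.mul_sum]
        refine Finset.sum_congr rfl fun i _ => ?_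
        rw [Finset.mul_sum]
        refine Finset.sum_congr rfl fun j _ => ?_
        rw [hy, hy]
        ring
      rw [h6]
      have h7 : ∑ i : Fin 4, ∑ j : Fin 4, w i.succ * w j.succ * (H.ip (f i) (f j) : ℚ) = 0 := by
        linarith
      rw [h7, mul_zero]
    have h6 : ∑ i : Fin 4, ∑ j : Fin 4, y i.succ * y j.succ * H.ip (f i) (f j) = 0 := by
      exact_mod_cast h5
    rw [h6] at h4
    norm_num at h4
  -- a real isotropic vector
  have hreal : ∃ v : Fin 5 → ℝ, v ≠ 0 ∧ v ⬝ᵥ (M.map (algebraMap ℚ ℝ)).mulVec v = 0 := by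
    have h1 := hpos (Pi.single 0 1) (by
      intro h
      have := congrFun h 0
      simp at this)
    have h2 : ∑ i, (Pi.single 0 1 : Fin 4 → ℤ) i • f i = f 0 := by
      rw [Finset.sum_eq_single 0]
      · simp
      · intro j _ hj
        rw [Pi.single_eq_of_ne hj, zero_smul]
      · simp
    rw [h2] at h1
    simp only [H4.disc, (hfH 0).2] at h1
    have h3 : 0 < H.ip (f 0) (f 0) := by omega
    obtain ⟨s, h4⟩ : ∃ s : ℝ, s ^ 2 = 6 * H.ip (f 0) (f 0) :=
      ⟨Real.sqrt (6 * H.ip (f 0) (f 0)), Real.sq_sqrt (by positivity)⟩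
    refine ⟨![s, 1, 0, 0, 0], ?_, ?_⟩
    · intro h
      have := congrFun h 1
      simp at this
    · have h01 : M 0 1 = 0 := rfl
      have h10 : M 1 0 = 0 := rfl
      have h11 : M 1 1 = -6 * (H.ip (f 0) (f 0) : ℚ) := rfl
      simp only [dotProduct, Matrix.mulVec, Fin.sum_univ_five, Matrix.map_apply]
      simp [h01, h10, h11, hM00]
      linear_combination h4
  obtain ⟨w, hw0, hw⟩ := meyer_mat 5 le_rfl M hsymm hdet hreal
  rw [hval] at hw
  obtain ⟨D, y, hD, hy⟩ := hclear w
  set V : Fin 23 → ℤ := ∑ i : Fin 4, y i.succ • f i with hV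
  have hVd : y 0 ^ 2 = 2 * H.disc V := by
    have h1 : ((y 0 ^ 2 : ℤ) : ℚ) = ((2 * H.disc V : ℤ) : ℚ) := by
      simp only [H4.disc, hV]
      rw [hprim fun i => y i.succ, hform fun i => y i.succ]
      push_cast
      have h6 : ∑ i : Fin 4, ∑ j : Fin 4, (y i.succ : ℚ) * y j.succ * (H.ip (f i) (f j) : ℚ) =
          D ^ 2 * ∑ i : Fin 4, ∑ j : Fin 4, w i.succ * w j.succ * (H.ip (f i) (f j) : ℚ) := by
        rw [Finset.mul_sum]
        refine Finset.sum_congr rfl fun i _ => ?_
        rw [Finset.mul_sum]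
        refine Finset.sum_congr rfl fun j _ => ?_
        rw [hy, hy]
        ring
      rw [h6, hy 0]
      linear_combination D ^ 2 * hw
    exact_mod_cast h1
  have hVpos : 0 < H.disc V := by
    refine hpos (fun i => y i.succ) fun h => hw0 ?_
    have hV0 : V = 0 := by
      rw [hV]
      refine Finset.sum_eq_zero fun i _ => ?_
      have := congrFun h i
      simp only [Pi.zero_apply] at this
      rw [this, zero_smul]
    have h1 : H.disc V = 0 := by
      rw [hV0]
      simp [H4.disc, H.ip_zero_left, H.ip_zero_right]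
    rw [h1, mul_zero] at hVd
    have h2 : y 0 = 0 := pow_eq_zero_iff two_ne_zero |>.1 hVd
    ext i
    have h3 : (y i : ℚ) = 0 := by
      refine Fin.cases ?_ (fun i => ?_) i
      · exact_mod_cast h2
      · have := congrFun h i
        simp only [Pi.zero_apply] at this
        exact_mod_cast this
    rw [hy] at h3
    exact (mul_eq_zero.1 h3).resolve_left (by exact_mod_cast hD)
  obtain ⟨c, hc⟩ := disc_even hH V
  have hy2 : Even (y 0) := by
    have h1 : Even (y 0 ^ 2) := by
      rw [hVd]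
      exact even_two_mul _
    exact (Int.even_pow.1 h1).1
  obtain ⟨b, hb⟩ := hy2
  refine ⟨V, |b|, ?_, hcomb _, ?_⟩
  · refine abs_pos.2 ?_
    rintro rfl
    rw [hb] at hVd
    omega
  · rw [sq_abs]
    have h1 : 2 * H.disc V = 2 * (2 * b ^ 2) := by
      rw [← hVd, hb]
      ring
    exact mul_left_cancel₀ two_ne_zero h1

/-- **Rank at least five.** -/
theorem rank_five (hH : H.IsCohomology) (hr : 5 ≤ H.rank) (hC : Congruences H) :
    HilbertSquare H := by
  obtain ⟨A, k, hk, hA, hd⟩ := exists_square hH hr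
  exact rank_four hH (by omega) hk hA hd hC

end Pool.Agent.L5helper19.GS
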