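import Pool.Agent.L5helper19.GS.Free
import Pool.Agent.L5helper19.GS.Local

/-!
# Changing the sign of a Jacobi symbol at one prime number
-/

set_option autoImplicit false

namespace Pool.Agent.L5helper19.GS

open NumberTheorySymbols

theorem jacobi_congr {R : ℤ} (_hR : R ≠ 0) {n n' : ℕ} (hn : Odd n) (hn' : Odd n')
    (h : 4 * R ∣ (n' : ℤ) - n) : J(R | n') = J(R | n) := by
  rw [jacobiSym.mod_right _ hn, jacobiSym.mod_right _ hn']
  congr 1
  have h1 : ((n : ℕ) : ℤ) ≡ ((n' : ℕ) : ℤ) [ZMOD ((4 * R.natAbs : ℕ) : ℤ)] := by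
    rw [Int.modEq_iff_dvd]
    push_cast
    have h3 : (4 : ℤ) * |R| = |4 * R| := by
      rw [abs_mul]
      norm_num
    rw [h3, abs_dvd]
    exact h
  have h2 : n ≡ n' [MOD 4 * R.natAbs] := by exact_mod_cast h1
  exact h2.symm

theorem jacobi_two_flip {n n' : ℕ} (hn : Odd n) (h : (8 : ℤ) ∣ (n' : ℤ) - n - 4) :
    J(2 | n') = -J(2 | n) := by
  have hn' : Odd n' := by
    rw [Nat.odd_iff] at *
    omega
  rw [jacobiSym.at_two hn, jacobiSym.at_two hn', ZMod.χ₈_nat_mod_eight n,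
    ZMod.χ₈_nat_mod_eight n']
  rw [Nat.odd_iff] at hn
  have h8 : n % 8 = 1 ∨ n % 8 = 3 ∨ n % 8 = 5 ∨ n % 8 = 7 := by omega
  rcases h8 with h8 | h8 | h8 | h8
  · have h9 : n' % 8 = 5 := by omega
    rw [h8, h9]
    decide
  · have h9 : n' % 8 = 7 := by omega
    rw [h8, h9]
    decide
  · have h9 : n' % 8 = 1 := by omega
    rw [h8, h9]
    decide
  · have h9 : n' % 8 = 3 := by omega
    rw [h8, h9]
    decide

theorem jacobi_left_congr {p : ℕ} {a b : ℤ} (h : (p : ℤ) ∣ a - b) : J(a | p) = J(b | p) := by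
  have h1 : a % (p : ℤ) = b % (p : ℤ) :=
    Int.emod_eq_emod_iff_emod_sub_eq_zero.2 (Int.emod_eq_zero_of_dvd h)
  rw [jacobiSym.mod_left a, jacobiSym.mod_left b, h1]

theorem jacobi_flip_odd {p : ℕ} (hp : Odd p) {n n' : ℕ} (hn : Odd n)
    (h4 : (4 : ℤ) ∣ (n' : ℤ) - n) (hJ : J((n' : ℤ) | p) = -J((n : ℤ) | p)) :
    J((p : ℤ) | n') = -J((p : ℤ) | n) := by
  have hn' : Odd n' := by
    rw [Nat.odd_iff] at *
    omega
  rw [jacobiSym.quadratic_reciprocity hp hn, jacobiSym.quadratic_reciprocity hp hn', hJ]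
  have h5 : (-1 : ℤ) ^ (p / 2 * (n' / 2)) = (-1) ^ (p / 2 * (n / 2)) := by
    rw [mul_comm (p / 2), mul_comm (p / 2), pow_mul, pow_mul]
    congr 1
    have h6 : n' / 2 % 2 = n / 2 % 2 := by omega
    rw [← Nat.div_add_mod (n' / 2) 2, ← Nat.div_add_mod (n / 2) 2, h6, pow_add, pow_add, pow_mul,
      pow_mul]
    norm_num
  rw [h5]
  ring

/-- **The flip.** -/
theorem flip_prime {K T B : ℤ} (hK : 0 < K) (hT : 0 < T) (hB : 0 < B) (h8 : 8 ∣ K) {p : ℕ}
    (hp : p.Prime) (hpK : (p : ℤ) ∣ K) {a : ℕ} {R : ℤ} (ha : Odd a) (hTR : T = (p : ℤ) ^ a * R)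
    (hpR : ¬ (p : ℤ) ∣ R) {b : ℕ} {K' : ℤ} (hKb : K = (p : ℤ) ^ b * K') (hpK' : ¬ (p : ℤ) ∣ K')
    {n : ℕ} (hn : IsCoprime (n : ℤ) (K * T)) {r' : ℤ} (hr' : IsCoprime r' K)
    (hmod : K' ∣ r' - n) (hflip : (p = 2 ∧ 8 ∣ r' - n - 4) ∨
      (p ≠ 2 ∧ J(r' | p) = -J((n : ℤ) | p))) :
    ∃ n' : ℕ, K ∣ n' - r' ∧ IsCoprime (n' : ℤ) (K * T * B) ∧ J(T | n') = -J(T | n) := by
  have hpp := Nat.prime_iff_prime_int.1 hp
  have hb : b ≠ 0 := by
    rintro rfl
    rw [pow_zero, one_mul] at hKb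
    rw [hKb] at hpK
    exact hpK' hpK
  have hR0 : R ≠ 0 := by
    rintro rfl
    exact hpR (dvd_zero _)
  have hppos : (0 : ℤ) < p := by exact_mod_cast hp.pos
  have hRpos : 0 < R := by
    rw [hTR] at hT
    exact (mul_pos_iff_of_pos_left (by positivity)).1 hT
  have hK'pos : 0 < K' := by
    rw [hKb] at hK
    exact (mul_pos_iff_of_pos_left (by positivity)).1 hK
  have hnodd : Odd n := by
    rw [← Nat.not_even_iff_odd]
    intro h
    have h1 : (2 : ℤ) ∣ n := by exact_mod_cast h.two_dvd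
    have h2 : (2 : ℤ) ∣ K * T := ((by norm_num : (2 : ℤ) ∣ 8).trans h8).mul_right _
    exact absurd (Int.isUnit_iff.1 (hn.isUnit_of_dvd' h1 h2)) (by norm_num)
  -- the modulus prime to `p`
  obtain ⟨R', hR'pos, hpR', hRR', h4R'⟩ : ∃ R' : ℤ, 0 < R' ∧ ¬ (p : ℤ) ∣ R' ∧ R' ∣ 4 * R ∧
      ((p = 2 ∧ R' = R) ∨ (p ≠ 2 ∧ R' = 4 * R)) := by
    by_cases hp2 : p = 2
    · exact ⟨R, hRpos, hpR, dvd_mul_left _ _, Or.inl ⟨hp2, rfl⟩⟩
    · refine ⟨4 * R, by positivity, fun h => ?_, dvd_refl _, Or.inr ⟨hp2, rfl⟩⟩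
      rcases hpp.dvd_or_dvd h with h1 | h1
      · have h5 : p ∣ 2 ^ 2 := by
          have : p ∣ 4 := by exact_mod_cast h1
          simpa using this
        exact hp2 ((Nat.prime_dvd_prime_iff_eq hp Nat.prime_two).1 (hp.dvd_of_dvd_pow h5))
      · exact hpR h1
  have hcM : IsCoprime ((p : ℤ) ^ b) (K' * R') := by
    refine IsCoprime.pow_left (hpp.coprime_iff_not_dvd.2 fun h => ?_)
    rcases hpp.dvd_or_dvd h with h1 | h1
    · exact hpK' h1
    · exact hpR' h1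
  obtain ⟨β, α, hαβ⟩ := hcM
  set y : ℤ := n + α * (K' * R') * (r' - n) with hy
  have hy1 : K' * R' ∣ y - n := ⟨α * (r' - n), by rw [hy]; ring⟩
  have hy2 : (p : ℤ) ^ b ∣ y - r' := ⟨β * (n - r'), by rw [hy]; linear_combination (r' - n) * hαβ⟩
  have hnT : IsCoprime (n : ℤ) T := hn.of_mul_right_right
  have hnK : IsCoprime (n : ℤ) K := hn.of_mul_right_left
  have hn4 : IsCoprime (n : ℤ) 4 := hnK.of_isCoprime_of_dvd_right
    ((by norm_num : (4 : ℤ) ∣ 8).trans h8)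
  have hnR : IsCoprime (n : ℤ) R := by
    rw [hTR] at hnT
    exact hnT.of_mul_right_right
  have hnM : IsCoprime (n : ℤ) (K' * R') := by
    refine IsCoprime.mul_right ?_ ?_
    · rw [hKb] at hnK
      exact hnK.of_mul_right_right
    · exact (IsCoprime.mul_right hn4 hnR).of_isCoprime_of_dvd_right hRR'
  have hyM : IsCoprime y (K' * R') := by
    obtain ⟨c, hc⟩ := hy1
    have e1 : y = n + (K' * R') * c := by linear_combination hc
    rw [e1]
    exact (IsCoprime.add_mul_left_left_iff).2 hnM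
  have hyp : IsCoprime y ((p : ℤ) ^ b) := by
    obtain ⟨c, hc⟩ := hy2
    have e1 : y = r' + ((p : ℤ) ^ b) * c := by linear_combination hc
    rw [e1]
    refine (IsCoprime.add_mul_left_left_iff).2 ?_
    rw [hKb] at hr'
    exact hr'.of_mul_right_left
  have hyK : IsCoprime y (K * R') := by
    rw [hKb, mul_assoc]
    exact IsCoprime.mul_right hyp hyM
  obtain ⟨n', hn1, hn2⟩ := exists_prime_class (K := K * R') (T := T * B) (by positivity)
    (by positivity) hyK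
  have hn'y1 : K' * R' ∣ (n' : ℤ) - n := by
    have h1 : K' * R' ∣ (n' : ℤ) - y := Dvd.dvd.trans ⟨(p : ℤ) ^ b, by rw [hKb]; ring⟩ hn1
    have e1 : (n' : ℤ) - n = (n' - y) + (y - n) := by ring
    rw [e1]
    exact dvd_add h1 hy1
  have hn'y2 : (p : ℤ) ^ b ∣ (n' : ℤ) - r' := by
    have h1 : (p : ℤ) ^ b ∣ (n' : ℤ) - y := Dvd.dvd.trans ⟨K' * R', by rw [hKb]; ring⟩ hn1
    have e1 : (n' : ℤ) - r' = (n' - y) + (y - r') := by ring
    rw [e1]
    exact dvd_add h1 hy2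
  have hn'K : K ∣ (n' : ℤ) - r' := by
    rw [hKb]
    have hc : IsCoprime ((p : ℤ) ^ b) K' := IsCoprime.pow_left (hpp.coprime_iff_not_dvd.2 hpK')
    refine hc.mul_dvd hn'y2 ?_
    have e1 : (n' : ℤ) - r' = (n' - n) - (r' - n) := by ring
    rw [e1]
    exact dvd_sub ((dvd_mul_right _ _).trans hn'y1) hmod
  refine ⟨n', hn'K, ?_, ?_⟩
  · refine hn2.of_isCoprime_of_dvd_right ⟨R', by ring⟩
  -- the two symbols
  have hkey : J((p : ℤ) | n') = -J((p : ℤ) | n) ∧ 4 * R ∣ (n' : ℤ) - n ∧ Odd n' := by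
    rcases hflip with ⟨rfl, h⟩ | ⟨hp2, h⟩
    · -- `p = 2`
      have hR'R : R' = R := by
        rcases h4R' with h | h
        · exact h.2
        · exact absurd rfl h.1
      have h8b : (8 : ℤ) ∣ ((2 : ℕ) : ℤ) ^ b := by
        have h1 : (8 : ℤ) ∣ ((2 : ℕ) : ℤ) ^ b * K' := by rwa [← hKb]
        have hc : IsCoprime (8 : ℤ) K' := by
          have : IsCoprime (((2 : ℕ) : ℤ) ^ 3) K' :=
            IsCoprime.pow_left (hpp.coprime_iff_not_dvd.2 hpK')
          norm_num at this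
          exact this
        exact hc.dvd_of_dvd_mul_right h1
      have h8n : (8 : ℤ) ∣ (n' : ℤ) - n - 4 := by
        have h1 := h8b.trans hn'y2
        omega
      refine ⟨jacobi_two_flip hnodd h8n, ?_, ?_⟩
      · have hc : IsCoprime (4 : ℤ) R := by
          have : IsCoprime (((2 : ℕ) : ℤ) ^ 2) R :=
            IsCoprime.pow_left (hpp.coprime_iff_not_dvd.2 hpR)
          norm_num at this
          exact this
        refine hc.mul_dvd (by omega) ?_
        rw [← hR'R]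
        exact (dvd_mul_left _ _).trans hn'y1
      · rw [Nat.odd_iff] at *
        omega
    · have hR'R : R' = 4 * R := by
        rcases h4R' with h | h
        · exact absurd h.1 hp2
        · exact h.2
      have h4 : 4 * R ∣ (n' : ℤ) - n := by
        rw [← hR'R]
        exact (dvd_mul_left _ _).trans hn'y1
      have h4' : (4 : ℤ) ∣ (n' : ℤ) - n := (dvd_mul_right _ _).trans h4
      refine ⟨jacobi_flip_odd (hp.odd_of_ne_two hp2) hnodd h4' ?_, h4, ?_⟩
      · rw [← h]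
        exact jacobi_left_congr ((dvd_pow_self _ hb).trans hn'y2)
      · rw [Nat.odd_iff] at *
        omega
  obtain ⟨k1, k2, k3⟩ := hkey
  rw [hTR, jacobiSym.mul_left, jacobiSym.mul_left, jacobiSym.pow_left, jacobiSym.pow_left, k1,
    jacobi_congr hR0 hnodd k3 k2, ha.neg_pow]
  ring

end Pool.Agent.L5helper19.GS
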