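import Mathlib

/-!
# Positive integers in a residue class with a prescribed Jacobi symbol
-/

set_option autoImplicit false

namespace Pool.Agent.L5helper19.GS

open NumberTheorySymbols

/-- The symbol `J(R | g)` for `g ≡ 1` modulo `4 R`. -/
theorem jacobi_one {R : ℤ} (hR : R ≠ 0) {g : ℕ} (hg : 4 * R ∣ (g : ℤ) - 1) : J(R | g) = 1 := by
  have h4 : (4 : ℤ) ∣ (g : ℤ) - 1 := (dvd_mul_right _ _).trans hg
  have hgo : Odd g := by
    rw [Nat.odd_iff]
    omega
  rw [jacobiSym.mod_right _ hgo]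
  have hpos : 0 < R.natAbs := Int.natAbs_pos.2 hR
  have h1 : ((g : ℕ) : ℤ) ≡ ((1 : ℕ) : ℤ) [ZMOD ((4 * R.natAbs : ℕ) : ℤ)] := by
    apply Int.ModEq.symm
    rw [Int.modEq_iff_dvd]
    push_cast
    have h3 : (4 : ℤ) * |R| = |4 * R| := by
      rw [abs_mul]
      norm_num
    rw [h3, abs_dvd]
    exact hg
  have h2 : g % (4 * R.natAbs) = 1 := by
    have h3 : g ≡ 1 [MOD 4 * R.natAbs] := by exact_mod_cast h1
    rw [Nat.ModEq] at h3
    rw [h3, Nat.mod_eq_of_lt (by omega)]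
  rw [h2, jacobiSym.one_right]

/-- An integer which is a nonresidue modulo a prime number, and `1` modulo a coprime number. -/
theorem exists_nonresidue {l : ℕ} (hl : l.Prime) (hl2 : l ≠ 2) {M : ℤ}
    (hlM : ¬ (l : ℤ) ∣ M) (h4 : 4 ∣ M) : ∃ g : ℕ, M ∣ (g : ℤ) - 1 ∧ J((l : ℤ) | g) = -1 ∧
      ¬ (l : ℤ) ∣ g := by
  have hF : Fact l.Prime := ⟨hl⟩
  obtain ⟨a, ha⟩ := FiniteField.exists_nonsquare (F := ZMod l) (by
    rw [ZMod.ringChar_zmod_n]
    exact hl2)
  have hc : Nat.Coprime M.natAbs l := by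
    rw [Nat.coprime_comm, hl.coprime_iff_not_dvd]
    intro h
    exact hlM (Int.natCast_dvd.2 h)
  obtain ⟨g, hg1, hg2⟩ := Nat.chineseRemainder hc 1 a.val
  have h1 : M ∣ (g : ℤ) - 1 := by
    have h3 : ((g : ℕ) : ℤ) ≡ ((1 : ℕ) : ℤ) [ZMOD (M.natAbs : ℤ)] := by exact_mod_cast hg1
    have h4 := h3.symm.dvd
    rw [Int.natCast_natAbs, abs_dvd] at h4
    simpa using h4
  have hga : ((g : ℕ) : ZMod l) = a := by
    have h3 : (g : ZMod l) = ((a.val : ℕ) : ZMod l) := (ZMod.natCast_eq_natCast_iff _ _ _).2 hg2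
    rw [h3, ZMod.natCast_zmod_val]
  refine ⟨g, h1, ?_, ?_⟩
  · have h5 : g % 4 = 1 := by
      have := h4.trans h1
      omega
    rw [jacobiSym.quadratic_reciprocity_one_mod_four' (hl.odd_of_ne_two hl2) h5,
      ← jacobiSym.legendreSym.to_jacobiSym]
    rw [legendreSym.eq_neg_one_iff]
    push_cast
    rw [hga]
    exact ha
  · intro h
    apply ha
    rw [← hga]
    have := (ZMod.intCast_zmod_eq_zero_iff_dvd _ l).2 h
    push_cast at this
    rw [this]
    exact ⟨0, by ring⟩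

/-- A prime number in a residue class, coprime to a given number. -/
theorem exists_prime_class {K T : ℤ} (hK : 0 < K) (hT : 0 < T) {r : ℤ} (hr : IsCoprime r K) :
    ∃ n : ℕ, K ∣ n - r ∧ IsCoprime (n : ℤ) (K * T) := by
  have hKn : (K.natAbs : ℤ) = K := by rw [Int.natCast_natAbs, abs_of_pos hK]
  obtain ⟨q, hq1, hq, hqn⟩ := Nat.forall_exists_prime_gt_and_zmodEq
    ((K * T).natAbs) (q := K.natAbs) (a := r) (Int.natAbs_ne_zero.2 hK.ne') (by rw [hKn]; exact hr)
  refine ⟨q, ?_, ?_⟩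
  · have := hqn.symm.dvd
    rwa [hKn] at this
  · rw [(Nat.prime_iff_prime_int.1 hq).coprime_iff_not_dvd]
    intro h
    have h1 := Int.natAbs_dvd_natAbs.2 h
    rw [Int.natAbs_natCast] at h1
    have := Nat.le_of_dvd (Int.natAbs_pos.2 (by positivity)) h1
    omega

/-- **A free prime.** -/
theorem exists_n_free {K T : ℤ} (hK : 0 < K) (hT : 0 < T) (h4K : 4 ∣ K) {r : ℤ}
    (hr : IsCoprime r K) {l : ℕ} (hl : l.Prime) (hlK : ¬ (l : ℤ) ∣ K) {j : ℕ} {R : ℤ}
    (hj : Odd j) (hTR : T = (l : ℤ) ^ j * R) (hlR : ¬ (l : ℤ) ∣ R) :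
    ∃ n : ℕ, K ∣ n - r ∧ IsCoprime (n : ℤ) (K * T) ∧ J(T | n) = 1 := by
  obtain ⟨n, hn1, hn2⟩ := exists_prime_class hK hT hr
  have hgcd : T.gcd n = 1 := by
    rw [← Int.isCoprime_iff_gcd_eq_one]
    exact hn2.of_mul_right_right.symm
  rcases jacobiSym.eq_one_or_neg_one hgcd with h | h
  · exact ⟨n, hn1, hn2, h⟩
  have hl2 : l ≠ 2 := by
    rintro rfl
    exact hlK ((by norm_num : ((2 : ℕ) : ℤ) ∣ 4).trans h4K)
  have hR0 : R ≠ 0 := by
    rintro rfl
    exact hlR (dvd_zero _)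
  have hlp : (0 : ℤ) < (l : ℤ) ^ j := by
    have := hl.pos
    positivity
  have hRpos : 0 < R := by
    rw [hTR] at hT
    exact (mul_pos_iff_of_pos_left hlp).1 hT
  have hlpr := Nat.prime_iff_prime_int.1 hl
  obtain ⟨g, hg1, hg2, hg3⟩ := exists_nonresidue hl hl2 (M := K * (4 * R))
    (by
      intro h
      rcases hlpr.dvd_or_dvd h with h | h
      · exact hlK h
      · rcases hlpr.dvd_or_dvd h with h | h
        · exact hlK (h.trans h4K)
        · exact hlR h) (h4K.mul_right _)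
  have hgK : K ∣ (g : ℤ) - 1 := (dvd_mul_right _ _).trans hg1
  have hgR : 4 * R ∣ (g : ℤ) - 1 := (dvd_mul_left _ _).trans hg1
  have hg0 : g ≠ 0 := by
    rintro rfl
    apply hg3
    simp
  have hn0 : n ≠ 0 := by
    rintro rfl
    rw [jacobiSym.zero_right] at h
    norm_num at h
  refine ⟨n * g, ?_, ?_, ?_⟩
  · push_cast
    have h5 : (n : ℤ) * g - r = n * (g - 1) + (n - r) := by ring
    rw [h5]
    exact dvd_add (hgK.mul_left _) hn1
  · push_cast
    refine IsCoprime.mul_left hn2 ?_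
    obtain ⟨c1, hc1⟩ := hgK
    obtain ⟨c2, hc2⟩ := hgR
    refine IsCoprime.mul_right ⟨1, -c1, by linear_combination hc1⟩ ?_
    rw [hTR]
    refine IsCoprime.mul_right ?_ ⟨1, -4 * c2, by linear_combination hc2⟩
    refine IsCoprime.pow_right ?_
    rw [isCoprime_comm, hlpr.coprime_iff_not_dvd]
    exact hg3
  · rw [jacobiSym.mul_right' _ hn0 hg0, h, hTR, jacobiSym.mul_left, jacobiSym.pow_left, hg2,
      jacobi_one hR0 hgR, hj.neg_one_pow]
    norm_num

/-- A positive integer which is not a square has a prime divisor of odd multiplicity. -/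
theorem exists_odd_factor {F : ℕ} (hF : ¬ IsSquare F) (hF0 : F ≠ 0) :
    ∃ (l j R : ℕ), l.Prime ∧ Odd j ∧ F = l ^ j * R ∧ ¬ l ∣ R := by
  by_contra hcon
  push Not at hcon
  apply hF
  have h1 : ∀ l, l.Prime → Even (F.factorization l) := by
    intro l hl
    rw [← Nat.not_odd_iff_even]
    intro hodd
    exact Nat.not_dvd_ordCompl hl hF0 (hcon l _ (ordCompl[l] F) hl hodd
      (Nat.ordProj_mul_ordCompl_eq_self F l).symm)
  refine ⟨∏ p ∈ F.primeFactors, p ^ (F.factorization p / 2), ?_⟩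
  rw [← Finset.prod_mul_distrib]
  conv_lhs => rw [← Nat.prod_factorization_pow_eq_self hF0, Finsupp.prod]
  refine Finset.prod_congr (by rw [Nat.support_factorization]) fun p hp => ?_
  rw [← pow_add]
  congr 1
  have hpp : p.Prime := Nat.prime_of_mem_primeFactors (by rwa [← Nat.support_factorization])
  obtain ⟨c, hc⟩ := h1 p hpp
  omega

end Pool.Agent.L5helper19.GS
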