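import Pool.Agent.L5helper19.GS.Geo
import Pool.Agent.L5helper19.GS.Free

/-!
# Rank at least four, with a class of discriminant `2 k ^ 2`
-/

set_option autoImplicit false

namespace Pool.Agent.L5helper19.GS

open Pool.Agent.Y95.Q
open NumberTheorySymbols

variable {X : CubicFourfold} {H : H4 X}

theorem not_both_squares {E : ℤ} (hE : 0 < E) (h1 : IsSquare (1 + E)) (h2 : IsSquare (1 + 4 * E)) :
    False := by
  obtain ⟨a, ha⟩ := h1
  obtain ⟨b, hb⟩ := h2
  have h3 : (2 * |a| - |b|) * (2 * |a| + |b|) = 3 := by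
    have e1 : (2 * |a| - |b|) * (2 * |a| + |b|) = 4 * |a| ^ 2 - |b| ^ 2 := by ring
    rw [e1, sq_abs, sq_abs]
    linear_combination -4 * ha + hb
  have ha0 := abs_nonneg a
  have hb0 := abs_nonneg b
  have ha2 : 2 ≤ |a| := by
    by_contra hcon
    have h5 : |a| ≤ 1 := by omega
    have h6 : |a| ^ 2 ≤ 1 := by nlinarith
    rw [sq_abs] at h6
    nlinarith
  have h4 : 0 < 2 * |a| - |b| := by
    by_contra hcon
    push Not at hcon
    nlinarith
  nlinarith

/-- From approximate data and a suitable integer to the condition. -/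
theorem sol_of_data {k ω e x d r : ℤ} (hk : 0 < k) (hd : 0 < d) (hL : 0 < 2 * k ^ 2 * e - ω ^ 2)
    (ht : ω - k * x = d * r) (h4 : 4 * d ∣ x ^ 2 + 3 - 2 * e) (n : ℕ) (hn : 24 * k ∣ n - r)
    (hcop : IsCoprime (n : ℤ) (24 * k * (3 * (2 * k ^ 2 * e - ω ^ 2))))
    (hJ : J(3 * (2 * k ^ 2 * e - ω ^ 2) | n) = 1) : Sol k ω e := by
  refine dirichlet_step (z0 := 1) (u0 := x) hk hd hL (by linear_combination ht) (by
    have e1 : x ^ 2 + 3 - 2 * e * 1 ^ 2 = x ^ 2 + 3 - 2 * e := by ring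
    rw [e1]
    exact h4) n hn ?_ hJ
  refine hcop.of_isCoprime_of_dvd_right ⟨6, by ring⟩

/-- **Rank at least four.** -/
theorem rank_four (hH : H.IsCohomology) (hr : 4 ≤ H.rank) {A : Fin 23 → ℤ} {k : ℤ} (hk : 0 < k)
    (hA : H.IsHodge A) (hAd : H.disc A = 2 * k ^ 2) (hC : Congruences H) : HilbertSquare H := by
  obtain ⟨⟨v2, hv2, h2⟩, ⟨v3, hv3, h3⟩, h5⟩ := hC
  -- local solutions
  have hloc : ∀ p : ℕ, ∃ (w : Fin 23 → ℤ) (u : ℤ) (c : ℕ), p.Prime → (p : ℤ) ∣ 6 * k →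
      H.IsHodge w ∧ Loc p k (bil H A w) (H.disc w) u c := by
    intro p
    by_cases hp : p.Prime
    swap
    · exact ⟨0, 0, 0, fun h => absurd h hp⟩
    obtain ⟨w, hw, e2, e3, e5⟩ : ∃ w, H.IsHodge w ∧
        (p = 2 → Even (H.disc w) ∧ ¬ 4 ∣ H.disc w) ∧
        (p = 3 → H.disc w % 3 = 2 ∨ H.disc w % 9 = 6) ∧
        (p ≠ 2 → p ≠ 3 → p % 3 = 1 ∨ ¬ (p : ℤ) ∣ H.disc w) := by
      by_cases hp2 : p = 2
      · exact ⟨v2, hv2, fun _ => ⟨disc_even hH _, h2⟩, fun h => by omega, fun h => absurd hp2 h⟩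
      by_cases hp3 : p = 3
      · exact ⟨v3, hv3, fun h => absurd h hp2, fun _ => disc_three hH v3 h3,
          fun _ h => absurd hp3 h⟩
      by_cases hp1 : p % 3 = 1
      · exact ⟨v2, hv2, fun h => absurd h hp2, fun h => absurd h hp3, fun _ _ => Or.inl hp1⟩
      · have hp0 : p % 3 ≠ 0 := by
          intro h
          exact hp3 ((Nat.prime_dvd_prime_iff_eq Nat.prime_three hp).1
            (Nat.dvd_of_mod_eq_zero h)).symm
        obtain ⟨w, hw, h⟩ := h5 p hp (by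
          have := hp.two_le
          omega) (by omega)
        exact ⟨w, hw, fun h => absurd h hp2, fun h => absurd h hp3, fun _ _ => Or.inr h⟩
    obtain ⟨z, u, c, hL⟩ := exists_loc hp hk.ne' (bil H A w) (H.disc w) e2 e3 e5
    refine ⟨z • w, u, c, fun _ _ => ⟨H.isHodge_smul _ hw, ?_⟩⟩
    have f1 : bil H A (z • w) = bil H A w * z := by
      simp only [bil, H.ip_smul_right]
      ring
    have f2 : H.disc (z • w) = H.disc w * z ^ 2 := by
      simp only [H4.disc, H.ip_smul_left, H.ip_smul_right]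
      ring
    rw [f1, f2]
    exact hL
  choose w u c hw using hloc
  obtain ⟨v, x, hv, hvx⟩ := glue hH hk w u c hw
  obtain ⟨d, r, hd, htr, hr24, h4d⟩ := assemble (k := k) (t := bil H A v - k * x)
    (F := x ^ 2 + 3 - 2 * H.disc v) (fun p hp hpk =>
      ⟨c p, (hvx p hp hpk).2.2.dvd, (hvx p hp hpk).2.2.exact, (hvx p hp hpk).2.2.quad⟩)
  have hA0 : 0 < H.disc A := by
    rw [hAd]
    positivity
  set N : ℤ := 2 * d * (24 * k) with hN
  have hNpos : 0 < N := by positivity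
  -- the first perturbation
  obtain ⟨w1, hw1, hAw1, hvw1, hw1d⟩ := exists_perp hH hr A v
  set v' : Fin 23 → ℤ := v + N • w1 with hv'
  have hv'H : H.IsHodge v' := H.isHodge_add hv (H.isHodge_smul _ hw1)
  have hA' : bil H A v' = bil H A v := by rw [hv', bil_add_smul, hAw1, mul_zero, add_zero]
  have hd' : H.disc v' = H.disc v + N ^ 2 * H.disc w1 := by
    rw [hv', disc_add_smul hH, hvw1]
    ring
  set Λ : ℤ := 2 * k ^ 2 * H.disc v' - bil H A v' ^ 2 with hΛ
  have hΛpos : 0 < Λ := by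
    have h6 := gram_nonneg hH hA hA0 hv
    rw [hAd] at h6
    have h7 : Λ = (2 * k ^ 2 * H.disc v - bil H A v ^ 2) + 2 * k ^ 2 * N ^ 2 * H.disc w1 := by
      rw [hΛ, hA', hd']
      ring
    rw [h7]
    have h8 : 0 < 2 * k ^ 2 * N ^ 2 * H.disc w1 := by positivity
    linarith
  -- the second perturbation
  obtain ⟨w2, hw2, hAw2, hvw2, hw2d⟩ := exists_perp hH hr A v'
  set C : ℤ := 2 * k ^ 2 * N ^ 2 * H.disc w2 with hC
  have hCpos : 0 < C := by positivity
  obtain ⟨j, hj0, hj⟩ : ∃ j : ℤ, 0 < j ∧ ¬ IsSquare (1 + C * Λ * j ^ 2) := by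
    by_contra hcon
    push Not at hcon
    have h6 := hcon 1 one_pos
    have h7 := hcon 2 two_pos
    refine not_both_squares (E := C * Λ) (by positivity) ?_ ?_
    · have e1 : 1 + C * Λ = 1 + C * Λ * 1 ^ 2 := by ring
      rw [e1]
      exact h6
    · have e1 : 1 + 4 * (C * Λ) = 1 + C * Λ * 2 ^ 2 := by ring
      rw [e1]
      exact h7
  set F : ℤ := 1 + C * Λ * j ^ 2 with hF
  have hFpos : 0 < F := by positivity
  obtain ⟨l, a, R, hl, ha, hFlR, hlR⟩ := exists_odd_factor (F := F.toNat) (by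
    rintro ⟨b, hb⟩
    apply hj
    refine ⟨b, ?_⟩
    have h6 : (F.toNat : ℤ) = F := Int.toNat_of_nonneg hFpos.le
    rw [hb] at h6
    rw [← h6]
    push_cast
    ring) (by omega)
  have hFZ : F = (l : ℤ) ^ a * R := by
    have h6 : (F.toNat : ℤ) = F := Int.toNat_of_nonneg hFpos.le
    rw [hFlR] at h6
    rw [← h6]
    push_cast
    ring
  have hlpr := Nat.prime_iff_prime_int.1 hl
  have ha0 : a ≠ 0 := by
    rintro rfl
    simp at ha
  have hlF : (l : ℤ) ∣ F := by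
    rw [hFZ]
    exact (dvd_pow_self _ ha0).mul_right _
  have hlC : ∀ y : ℤ, y ∣ C * Λ → ¬ (l : ℤ) ∣ y := by
    intro y hy h6
    have h7 : (l : ℤ) ∣ 1 := by
      have h8 : (l : ℤ) ∣ C * Λ * j ^ 2 := (h6.trans hy).mul_right _
      have e1 : (1 : ℤ) = F - C * Λ * j ^ 2 := by
        rw [hF]
        ring
      rw [e1]
      exact dvd_sub hlF h8
    exact hlpr.not_isUnit (isUnit_of_dvd_one h7)
  -- the new class
  set v1 : Fin 23 → ℤ := v' + (N * Λ * j) • w2 with hv1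
  have hv1H : H.IsHodge v1 := H.isHodge_add hv'H (H.isHodge_smul _ hw2)
  have hA1 : bil H A v1 = bil H A v := by
    rw [hv1, bil_add_smul, hAw2, mul_zero, add_zero, hA']
  have hd1 : H.disc v1 = H.disc v + N * (N * (H.disc w1 + (Λ * j) ^ 2 * H.disc w2)) := by
    rw [hv1, disc_add_smul hH, hvw2, hd']
    ring
  have hΛ1 : 2 * k ^ 2 * H.disc v1 - bil H A v1 ^ 2 = Λ * F := by
    rw [hd1, hA1, hF, hC, hΛ, hd', hA']
    ring
  have hT : 3 * (2 * k ^ 2 * H.disc v1 - bil H A v1 ^ 2) = (l : ℤ) ^ a * (3 * Λ * R) := by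
    rw [hΛ1, hFZ]
    ring
  have hNC : N ∣ C * Λ := ⟨2 * k ^ 2 * N * H.disc w2 * Λ, by rw [hC]; ring⟩
  have hKC : 24 * k ∣ C * Λ := Dvd.dvd.trans ⟨2 * d, by rw [hN]; ring⟩ hNC
  obtain ⟨n, hn1, hn2, hn3⟩ := exists_n_free (K := 24 * k)
    (T := 3 * (2 * k ^ 2 * H.disc v1 - bil H A v1 ^ 2)) (by positivity) (by rw [hΛ1]; positivity)
    ⟨6 * k, by ring⟩ hr24 hl (hlC _ hKC) ha hT (by
      intro h6
      rcases hlpr.dvd_or_dvd h6 with h7 | h7
      · rcases hlpr.dvd_or_dvd h7 with h8 | h8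
        · exact hlC 3 (Dvd.dvd.trans ⟨8 * k, by ring⟩ hKC) h8
        · exact hlC Λ (dvd_mul_left _ _) h8
      · exact hlR (by exact_mod_cast h7))
  have hsol : Sol k (bil H A v1) (H.disc v1) := by
    refine sol_of_data (x := x) (d := d) (r := r) hk hd (by rw [hΛ1]; positivity) ?_ ?_ n hn1 hn2 hn3
    · rw [hA1]
      exact htr
    · rw [hd1]
      have e1 : x ^ 2 + 3 - 2 * (H.disc v + N * (N * (H.disc w1 + (Λ * j) ^ 2 * H.disc w2))) =
          (x ^ 2 + 3 - 2 * H.disc v) - 4 * d * (24 * k *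
            (N * (H.disc w1 + (Λ * j) ^ 2 * H.disc w2))) := by
        rw [hN]
        ring
      rw [e1]
      exact dvd_sub h4d (dvd_mul_right _ _)
  exact hilbert_of_sol hH hA hAd hv1H hsol

end Pool.Agent.L5helper19.GS
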