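import Pool.Agent.L5helper19.GS.Crt

/-!
# Orthogonal Hodge classes
-/

set_option autoImplicit false

namespace Pool.Agent.L5helper19.GS

open Pool.Agent.Y95.Q

variable {X : CubicFourfold} {H : H4 X}

theorem three_disc (hH : H.IsCohomology) (v : Fin 23 → ℤ) :
    3 * H.disc v = H.ip ((3 : ℤ) • v - H.ip H.h v • H.h) ((3 : ℤ) • v - H.ip H.h v • H.h) := by
  simp only [H4.disc, H.ip_sub_left, H.ip_sub_right, H.ip_smul_left, H.ip_smul_right,
    hH.comm v H.h, hH.h_self]
  ring

theorem disc_nonneg (hH : H.IsCohomology) {v : Fin 23 → ℤ} (hv : H.IsHodge v) :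
    0 ≤ H.disc v := by
  have h1 := hH.nonneg (H.isHodge_sub (H.isHodge_smul 3 hv) (H.isHodge_smul (H.ip H.h v) hH.h_hodge))
  rw [← three_disc hH] at h1
  omega

theorem gram_nonneg (hH : H.IsCohomology) {A v : Fin 23 → ℤ} (hA : H.IsHodge A)
    (hA0 : 0 < H.disc A) (hv : H.IsHodge v) : 0 ≤ H.disc A * H.disc v - bil H A v ^ 2 := by
  have h1 := disc_nonneg hH (H.isHodge_add (H.isHodge_smul (H.disc A) hv)
    (H.isHodge_smul (-bil H A v) hA))
  have h2 : H.disc (H.disc A • v + (-bil H A v) • A) =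
      H.disc A * (H.disc A * H.disc v - bil H A v ^ 2) := by
    rw [disc_add_smul hH]
    have h3 : H.disc (H.disc A • v) = H.disc A ^ 2 * H.disc v := by
      simp only [H4.disc, H.ip_smul_left, H.ip_smul_right]
      ring
    have h4 : bil H (H.disc A • v) A = H.disc A * bil H A v := by
      simp only [bil, H.ip_smul_left, H.ip_smul_right, hH.comm v A]
      ring
    rw [h3, h4]
    ring
  rw [h2] at h1
  exact nonneg_of_mul_nonneg_right h1 hA0

/-- The elements of the span are Hodge classes. -/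
theorem hodge_of_span {v : Fin 23 → ℤ} (hv : v ∈ Submodule.span ℤ {v | H.IsHodge v}) :
    H.IsHodge v := by
  induction hv using Submodule.span_induction with
  | mem x hx => exact hx
  | zero => exact H.isHodge_zero
  | add x y _ _ hx hy => exact H.isHodge_add hx hy
  | smul a x _ hx => exact H.isHodge_smul a hx

/-- Independent Hodge classes. -/
theorem exists_independent {n : ℕ} (hn : n ≤ H.rank) :
    ∃ f : Fin n → Fin 23 → ℤ, LinearIndependent ℤ f ∧ ∀ i, H.IsHodge (f i) := by
  obtain ⟨f, hf⟩ := exists_linearIndependent_of_le_finrank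
    (R := ℤ) (M := Submodule.span ℤ {v | H.IsHodge v}) hn
  refine ⟨fun i => (f i : Fin 23 → ℤ), ?_, fun i => hodge_of_span (f i).2⟩
  exact hf.map' (Submodule.subtype _) (Submodule.ker_subtype _)

/-- A Hodge class orthogonal to two given classes. -/
theorem exists_perp (hH : H.IsCohomology) (hr : 4 ≤ H.rank) (a v : Fin 23 → ℤ) :
    ∃ w, H.IsHodge w ∧ bil H a w = 0 ∧ bil H v w = 0 ∧ 0 < H.disc w := by
  obtain ⟨f, hf, hfH⟩ := exists_independent (H := H) hr
  let M : Matrix (Fin 3) (Fin 4) ℤ := fun i j => ![H.ip a (f j), H.ip v (f j), H.ip H.h (f j)] i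
  obtain ⟨t, ht0, ht, -⟩ := Int.Matrix.exists_ne_zero_int_vec_norm_le M (by simp) (by simp)
  have hip : ∀ x : Fin 23 → ℤ, H.ip x (∑ j, t j • f j) = ∑ j, H.ip x (f j) * t j := by
    intro x
    rw [H.ip_sum_right]
    refine Finset.sum_congr rfl fun j _ => ?_
    rw [H.ip_smul_right, mul_comm]
  have h0 : ∀ i, ∑ j, M i j * t j = 0 := fun i => congrFun ht i
  have ha : H.ip a (∑ j, t j • f j) = 0 := by
    rw [hip]
    exact h0 0
  have hv : H.ip v (∑ j, t j • f j) = 0 := by
    rw [hip]
    exact h0 1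
  have hh : H.ip H.h (∑ j, t j • f j) = 0 := by
    rw [hip]
    exact h0 2
  have hne : ∑ j, t j • f j ≠ 0 := by
    intro h
    apply ht0
    ext j
    exact Fintype.linearIndependent_iff.1 hf t h j
  have hw : H.IsHodge (∑ j, t j • f j) :=
    H.isHodge_sum _ _ fun j _ => H.isHodge_smul _ (hfH j)
  refine ⟨_, hw, ?_, ?_, ?_⟩
  · simp only [bil, ha, hh]
    ring
  · simp only [bil, hv, hh]
    ring
  · have := hH.pos _ hw hne
    simp only [H4.disc, hh]
    omega

end Pool.Agent.L5helper19.GS
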