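import Pool.Agent.L5helper19.GS.Defs
import Pool.Agent.L5helper19.GS.Perp
import Pool.Agent.L5helper19.GS.Core

/-!
# From arithmetic to Hodge classes
-/

set_option autoImplicit false

namespace Pool.Agent.L5helper19.GS

open Pool.Agent.Y95.Q

variable {X : CubicFourfold} {H : H4 X}

theorem hilbert_of_disc (hH : H.IsCohomology) {v : Fin 23 → ℤ} (hv : H.IsHodge v) {n : ℤ}
    (h : H.disc v = 2 * n ^ 2 + 2 * n + 2) : HilbertSquare H := by
  have hpos : 0 < H.disc v := by
    rw [h]
    nlinarith [sq_nonneg (2 * n + 1)]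
  obtain ⟨w, m, l, hm, hsat, hw⟩ := hH.exists_saturated _ hpos
  have hwH : H.IsHodge w := by
    refine H.isHodge_of_smul hm.ne' ?_
    have h1 : m • w = v - l • H.h := by
      rw [hw]
      abel
    rw [h1]
    exact H.isHodge_sub hv (H.isHodge_smul _ hH.h_hodge)
  refine ⟨H.disc w, ⟨m, n, ?_⟩, w, hwH, hsat, rfl⟩
  rw [← h, hw, hH.disc_comb]

theorem disc_comb_two (hH : H.IsCohomology) (y z : ℤ) (A v : Fin 23 → ℤ) :
    H.disc (y • A + z • v) = y ^ 2 * H.disc A + 2 * y * z * bil H A v + z ^ 2 * H.disc v := by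
  simp only [H4.disc, bil, H.ip_add_left, H.ip_add_right, H.ip_smul_left, H.ip_smul_right,
    hH.comm v A]
  ring

theorem hilbert_of_sol (hH : H.IsCohomology) {A v : Fin 23 → ℤ} {k : ℤ} (hA : H.IsHodge A)
    (hd : H.disc A = 2 * k ^ 2) (hv : H.IsHodge v) (h : Sol k (bil H A v) (H.disc v)) :
    HilbertSquare H := by
  obtain ⟨x, y, z, he⟩ := h.exists_eq
  have h1 : x ^ 2 + 3 = 2 * H.disc (y • A + z • v) := by
    rw [disc_comb_two hH, hd]
    linear_combination he
  obtain ⟨n, hn⟩ : Odd x := by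
    rw [← Int.not_even_iff_odd]
    rintro ⟨m, hm⟩
    rw [hm] at h1
    have : (m + m) ^ 2 = 2 * (2 * m ^ 2) := by ring
    omega
  refine hilbert_of_disc hH (H.isHodge_add (H.isHodge_smul y hA) (H.isHodge_smul z hv))
    (n := n) ?_
  have h2 : 2 * H.disc (y • A + z • v) = 2 * (2 * n ^ 2 + 2 * n + 2) := by
    rw [← h1, hn]
    ring
  exact mul_left_cancel₀ two_ne_zero h2

/-- The classes of the discriminant modulo nine. -/
theorem disc_three (hH : H.IsCohomology) (v : Fin 23 → ℤ)
    (h : ¬ 3 ∣ H.ip v H.h ∨ H.ip v v % 3 = 2) : H.disc v % 3 = 2 ∨ H.disc v % 9 = 6 := by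
  have hc := hH.comm v H.h
  rw [hc] at h
  simp only [H4.disc]
  generalize H.ip v v = a at *
  generalize H.ip H.h v = b at *
  by_cases hb : 3 ∣ b
  · obtain ⟨c, rfl⟩ := hb
    have h2 : a % 3 = 2 := by
      rcases h with h | h
      · exact absurd ⟨c, rfl⟩ h
      · exact h
    right
    have e : 3 * a - (3 * c) ^ 2 = 3 * a - 9 * c ^ 2 := by ring
    rw [e]
    omega
  · left
    have h3 : b % 3 = 1 ∨ b % 3 = 2 := by omega
    have h4 : b ^ 2 % 3 = 1 := by
      rcases h3 with h3 | h3 <;> rw [pow_two, Int.mul_emod, h3] <;> rfl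
    omega

/-- Conversely. -/
theorem three_disc_conv (hH : H.IsCohomology) (v : Fin 23 → ℤ)
    (h : H.disc v % 3 = 2 ∨ H.disc v % 9 = 6) : ¬ 3 ∣ H.ip v H.h ∨ H.ip v v % 3 = 2 := by
  have hc := hH.comm v H.h
  rw [hc]
  simp only [H4.disc] at h
  generalize H.ip v v = a at *
  generalize H.ip H.h v = b at *
  by_cases hb : 3 ∣ b
  · obtain ⟨c, rfl⟩ := hb
    right
    have e : 3 * a - (3 * c) ^ 2 = 3 * a - 9 * c ^ 2 := by ring
    rw [e] at h
    omega
  · exact Or.inl hb

/-- The condition of Galkin and Shinder implies the existence of an associated K3 surface. -/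
theorem HilbertSquare.associated (hH : H.IsCohomology) (h : HilbertSquare H) : AssociatedK3 H := by
  obtain ⟨d, ⟨a, n, h⟩, v, hv, hsat, rfl⟩ := h
  have h0 : 0 < H.disc v := by
    by_contra hcon
    push Not at hcon
    have h1 : a ^ 2 * H.disc v ≤ 0 := mul_nonpos_of_nonneg_of_nonpos (by positivity) hcon
    rw [h] at h1
    nlinarith [sq_nonneg (2 * n + 1)]
  exact ⟨H.disc v, ⟨hH.six_lt hv h0, four_not_dvd h, nine_not_dvd h,
    fun p hp hp2 hd => prime_mod h hp hp2 hd⟩, v, hv, hsat, rfl⟩

/-- A positive integer all of whose prime factors are `1` modulo `3` is `1` modulo `3`. -/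
theorem mod_three_of_factors (n : ℕ) (hn : n ≠ 0)
    (h : ∀ p : ℕ, p.Prime → p ∣ n → p % 3 = 1) : n % 3 = 1 := by
  induction n using Nat.strong_induction_on with
  | _ n ih =>
    by_cases h1 : n = 1
    · rw [h1]
    · obtain ⟨p, hp, m, rfl⟩ := Nat.exists_prime_and_dvd h1
      have hm : m ≠ 0 := by
        rintro rfl
        simp at hn
      have h2 := ih m (by
        have := hp.one_lt
        have := Nat.pos_of_ne_zero hm
        nlinarith) hm fun q hq hqm => h q hq (hqm.mul_left _)
      rw [Nat.mul_mod, h p hp (dvd_mul_right _ _), h2]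

/-- The existence of an associated K3 surface implies the congruences. -/
theorem AssociatedK3.congruences (hH : H.IsCohomology) (h : AssociatedK3 H) :
    Congruences H := by
  obtain ⟨d, ⟨h6, h4, h9, hp⟩, v, hv, -, rfl⟩ := h
  refine ⟨⟨v, hv, h4⟩, ⟨v, hv, three_disc_conv hH v ?_⟩, fun p hpp hp2 hp3 => ⟨v, hv, fun h => ?_⟩⟩
  · obtain ⟨m, hm⟩ := disc_even hH v
    -- `disc v = 2 m`
    have hodd : ¬ 2 ∣ m := by
      rintro ⟨c, rfl⟩
      exact h4 ⟨c, by rw [hm]; ring⟩
    by_cases h3 : 3 ∣ m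
    · obtain ⟨c, rfl⟩ := h3
      have hc : c.natAbs % 3 = 1 := by
        refine mod_three_of_factors _ (by omega) fun p hpp hpc => ?_
        have h1 : (p : ℤ) ∣ c := Int.natCast_dvd.2 hpc
        have h2 : p ≠ 2 := by
          rintro rfl
          exact hodd ((by exact_mod_cast h1 : (2 : ℤ) ∣ c).mul_left 3)
        have h3 : p ≠ 3 := by
          rintro rfl
          apply h9
          obtain ⟨c', rfl⟩ := h1
          exact ⟨2 * c', by rw [hm]; push_cast; ring⟩
        have h5 := hp p hpp h2 (h1.trans ⟨6, by rw [hm]; ring⟩)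
        have h6 : p % 3 ≠ 0 := by
          intro h
          exact h3 ((Nat.prime_dvd_prime_iff_eq Nat.prime_three hpp).1
            (Nat.dvd_of_mod_eq_zero h)).symm
        omega
      right
      omega
    · have hc : m.natAbs % 3 = 1 := by
        refine mod_three_of_factors _ (by omega) fun p hpp hpc => ?_
        have h1 : (p : ℤ) ∣ m := Int.natCast_dvd.2 hpc
        have h2 : p ≠ 2 := by
          rintro rfl
          exact hodd (by exact_mod_cast h1)
        have h3' : p ≠ 3 := by
          rintro rfl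
          exact h3 (by exact_mod_cast h1)
        have h5 := hp p hpp h2 (h1.trans ⟨2, by rw [hm]; ring⟩)
        have h6 : p % 3 ≠ 0 := by
          intro h
          exact h3' ((Nat.prime_dvd_prime_iff_eq Nat.prime_three hpp).1
            (Nat.dvd_of_mod_eq_zero h)).symm
        omega
      left
      omega
  · exact hp p hpp (by omega) h hp3

end Pool.Agent.L5helper19.GS
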