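import Pool.Agent.L5helper19.GS.Flip

/-!
# Pairs of local solutions with different symbols
-/

set_option autoImplicit false

namespace Pool.Agent.L5helper19.GS

open NumberTheorySymbols

/-- The multiplicity of a prime in a square is even. -/
theorem sq_val {p : ℤ} (hp : Prime p) : ∀ (a : ℕ) (x S : ℤ), x ^ 2 = p ^ a * S → ¬ p ∣ S →
    Even a := by
  intro a
  induction a using Nat.strong_induction_on with
  | _ a ih =>
    intro x S h hS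
    rcases Nat.lt_or_ge a 2 with h2 | h2
    · interval_cases a
      · exact Even.zero
      · exfalso
        have h1 : p ∣ x := hp.dvd_of_dvd_pow (n := 2) (by rw [h]; exact ⟨S, by ring⟩)
        obtain ⟨y, rfl⟩ := h1
        apply hS
        refine ⟨y ^ 2, mul_left_cancel₀ hp.ne_zero ?_⟩
        linear_combination -h
    · obtain ⟨a', rfl⟩ := Nat.exists_eq_add_of_le h2
      have h1 : p ∣ x := hp.dvd_of_dvd_pow (n := 2) (by rw [h]; exact ⟨p ^ (1 + a') * S, by ring⟩)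
      obtain ⟨y, rfl⟩ := h1
      have h3 := ih a' (by omega) y S (by
        have h4 : p ^ 2 * y ^ 2 = p ^ 2 * (p ^ a' * S) := by linear_combination h
        exact mul_left_cancel₀ (pow_ne_zero 2 hp.ne_zero) h4) hS
      exact even_two.add h3

/-- Odd valuation of `2 k ^ 2 e - ω ^ 2`, for `p` not dividing `2 e`. -/
theorem omega_val {p : ℤ} (hp : Prime p) {k ω f : ℤ} {κ a : ℕ} {R : ℤ} (hk : p ^ κ ∣ k)
    (hL : f * k ^ 2 - ω ^ 2 = p ^ a * R) (ha : Odd a) (hR : ¬ p ∣ R) :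
    2 * κ + 1 ≤ a ∧ ∃ ω', ω = p ^ κ * ω' := by
  obtain ⟨k', rfl⟩ := hk
  have h1 : 2 * κ ≤ a := by
    by_contra hcon
    push Not at hcon
    obtain ⟨j, hj⟩ := Nat.exists_eq_add_of_lt hcon
    have h2 : ω ^ 2 = p ^ a * (p ^ (j + 1) * f * k' ^ 2 - R) := by
      have h3 : (p ^ κ * k') ^ 2 = p ^ (a + j + 1) * k' ^ 2 := by
        rw [← hj]
        ring
      rw [h3] at hL
      linear_combination -hL
    have h3 := sq_val hp a ω _ h2 (by
      intro h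
      apply hR
      have e1 : R = p * (p ^ j * f * k' ^ 2) - (p ^ (j + 1) * f * k' ^ 2 - R) := by ring
      rw [e1]
      exact dvd_sub (dvd_mul_right _ _) h)
    exact (Nat.not_even_iff_odd.2 ha) h3
  have h2 : 2 * κ + 1 ≤ a := by
    rcases Nat.lt_or_ge (2 * κ) a with h | h
    · exact h
    · exfalso
      have h3 : a = 2 * κ := le_antisymm h h1
      rw [h3] at ha
      exact (Nat.not_odd_iff_even.2 (even_two_mul κ)) ha
  refine ⟨h2, ?_⟩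
  have h3 : (p ^ κ) ^ 2 ∣ ω ^ 2 := by
    obtain ⟨j, hj⟩ := Nat.exists_eq_add_of_le h1
    refine ⟨f * k' ^ 2 - p ^ j * R, ?_⟩
    rw [hj] at hL
    linear_combination -hL
  exact (Int.pow_dvd_pow_iff two_ne_zero).1 h3

/-- **The flip at a prime number `p ≥ 5` which does not divide `e`.** -/
theorem conic_flip {p : ℕ} (hp : p.Prime) (h5 : 5 ≤ p) {k e ω : ℤ} (hk : k ≠ 0)
    (hpk : (p : ℤ) ∣ k) (he : ¬ (p : ℤ) ∣ e) {a : ℕ} {R : ℤ}
    (hL : 2 * k ^ 2 * e - ω ^ 2 = (p : ℤ) ^ a * R) (ha : Odd a) (hR : ¬ (p : ℤ) ∣ R) :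
    ∃ (κ : ℕ) (u₁ z₁ τ₁ u₂ z₂ τ₂ : ℤ), ω * z₁ - k * u₁ = (p : ℤ) ^ κ * τ₁ ∧
      ω * z₂ - k * u₂ = (p : ℤ) ^ κ * τ₂ ∧ Loc p k (ω * z₁) (e * z₁ ^ 2) u₁ κ ∧
      Loc p k (ω * z₂) (e * z₂ ^ 2) u₂ κ ∧ J(τ₂ | p) = -J(τ₁ | p) := by
  have hF : Fact p.Prime := ⟨hp⟩
  have hpp := Nat.prime_iff_prime_int.1 hp
  have hp2 : p ≠ 2 := by omega
  obtain ⟨κ, hκ1, hκ2⟩ := exists_kappa hp hk
  obtain ⟨h1, ω', hω⟩ := omega_val (k := k) (ω := ω) (f := 2 * e) hpp hκ1 (by linear_combination hL) ha hR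
  obtain ⟨k', hk'⟩ := hκ1
  have hκ0 : κ ≠ 0 := by
    rintro rfl
    apply hκ2
    simpa using hpk
  have hpk' : ¬ (p : ℤ) ∣ k' := by
    rintro ⟨c, rfl⟩
    exact hκ2 ⟨c, by rw [hk']; ring⟩
  -- the congruence for `ω'`
  have hcong : (p : ℤ) ∣ 2 * e * k' ^ 2 - ω' ^ 2 := by
    obtain ⟨j, hj⟩ := Nat.exists_eq_add_of_le h1
    refine ⟨(p : ℤ) ^ j * R, ?_⟩
    have h2 : ((p : ℤ) ^ κ) ^ 2 * (2 * e * k' ^ 2 - ω' ^ 2) =
        ((p : ℤ) ^ κ) ^ 2 * (p * (p ^ j * R)) := by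
      rw [hk', hω, hj] at hL
      linear_combination hL
    exact mul_left_cancel₀ (pow_ne_zero 2 (pow_ne_zero _ hpp.ne_zero)) h2
  have hne : ∀ n : ℕ, n < p → 0 < n → ((n : ℕ) : ZMod p) ≠ 0 := by
    intro n h1 h2 h3
    rw [ZMod.natCast_eq_zero_iff] at h3
    exact absurd (Nat.le_of_dvd h2 h3) (by omega)
  have h2Z : (2 : ZMod p) ≠ 0 := by exact_mod_cast hne 2 (by omega) (by omega)
  have h3Z : (3 : ZMod p) ≠ 0 := by exact_mod_cast hne 3 (by omega) (by omega)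
  have h2p : ¬ (p : ℤ) ∣ 2 := by
    intro h
    apply h2Z
    have := (ZMod.intCast_zmod_eq_zero_iff_dvd 2 p).2 h
    exact_mod_cast this
  have hkZ : (k' : ZMod p) ≠ 0 := fun h => hpk' ((ZMod.intCast_zmod_eq_zero_iff_dvd _ _).1 h)
  have heZ : (e : ZMod p) ≠ 0 := fun h => he ((ZMod.intCast_zmod_eq_zero_iff_dvd _ _).1 h)
  have hcZ : (2 * e * k' ^ 2 : ZMod p) = ω' ^ 2 := by
    have := (ZMod.intCast_zmod_eq_zero_iff_dvd _ _).2 hcong
    push_cast at this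
    linear_combination this
  have hωZ : (ω' : ZMod p) ≠ 0 := by
    intro h
    rw [h] at hcZ
    have : (2 * e * k' ^ 2 : ZMod p) ≠ 0 :=
      mul_ne_zero (mul_ne_zero h2Z heZ) (pow_ne_zero 2 hkZ)
    apply this
    rw [hcZ]
    ring
  -- solutions with a prescribed residue class
  have key : ∀ τ : ℤ, ¬ (p : ℤ) ∣ τ → ∃ u z : ℤ, (p : ℤ) ^ κ ∣ u ^ 2 + 3 - 2 * e * z ^ 2 ∧
      (p : ℤ) ∣ ω' * z - k' * u - τ := by
    intro τ hτ
    have hτZ : (τ : ZMod p) ≠ 0 := fun h => hτ ((ZMod.intCast_zmod_eq_zero_iff_dvd _ _).1 h)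
    -- `x = τ / k'`, `y = 3 / x`
    obtain ⟨uZ, zZ, hu, hz⟩ : ∃ uZ zZ : ZMod p, uZ ^ 2 + 3 - 2 * e * zZ ^ 2 = 0 ∧
        ω' * zZ - k' * uZ = τ := by
      refine ⟨(3 * k' / τ - τ / k') / 2, (3 * k' / τ + τ / k') * k' / (2 * ω'), ?_, ?_⟩
      · field_simp
        linear_combination (-(3 * k' ^ 2 + τ ^ 2) ^ 2 : ZMod p) * hcZ
      · field_simp
        ring
    -- lifts
    have hlift : ∀ x : ZMod p, (((x.val : ℤ)) : ZMod p) = x := fun x => by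
      push_cast
      exact ZMod.natCast_zmod_val x
    by_cases hu0 : uZ = 0
    · -- lift `z`
      have hz0 : zZ ≠ 0 := by
        rintro rfl
        rw [hu0] at hu
        apply h3Z
        linear_combination hu
      have hcop : IsCoprime ((p : ℤ) ^ κ) (2 * e) := by
        refine IsCoprime.pow_left (hpp.coprime_iff_not_dvd.2 fun h => ?_)
        rcases hpp.dvd_or_dvd h with h3 | h3
        · exact h2p h3
        · exact he h3
      obtain ⟨α, β, hαβ⟩ := hcop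
      have hαβZ : (β : ZMod p) * (2 * e) = 1 := by
        have h3 := congrArg (fun t : ℤ => (t : ZMod p)) hαβ
        push_cast at h3
        rw [ZMod.natCast_self, zero_pow hκ0] at h3
        linear_combination h3
      have hz1 : (p : ℤ) ∣ (zZ.val : ℤ) ^ 2 - 3 * β := by
        rw [← ZMod.intCast_zmod_eq_zero_iff_dvd]
        push_cast
        rw [ZMod.natCast_zmod_val]
        rw [hu0] at hu
        linear_combination (-(β : ZMod p)) * hu - zZ ^ 2 * hαβZ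
      have hz2 : ¬ (p : ℤ) ∣ (zZ.val : ℤ) := by
        intro h
        apply hz0
        rw [← hlift zZ]
        exact (ZMod.intCast_zmod_eq_zero_iff_dvd _ _).2 h
      obtain ⟨z, hz3, hz4⟩ := hensel_odd hp hp2 hz2 hz1 κ
      refine ⟨0, z, ?_, ?_⟩
      · obtain ⟨q, hq⟩ := hz3
        refine ⟨3 * α - 2 * e * q, ?_⟩
        linear_combination (-2 * e) * hq - 3 * hαβ
      · rw [← ZMod.intCast_zmod_eq_zero_iff_dvd]
        have h4 := (ZMod.intCast_zmod_eq_zero_iff_dvd _ _).2 hz4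
        push_cast at h4 ⊢
        rw [ZMod.natCast_zmod_val] at h4
        rw [hu0] at hz
        linear_combination hz + (ω' : ZMod p) * h4
    · have hu1 : (p : ℤ) ∣ (uZ.val : ℤ) ^ 2 - (2 * e * (zZ.val : ℤ) ^ 2 - 3) := by
        rw [← ZMod.intCast_zmod_eq_zero_iff_dvd]
        push_cast
        rw [ZMod.natCast_zmod_val, ZMod.natCast_zmod_val]
        linear_combination hu
      have hu2 : ¬ (p : ℤ) ∣ (uZ.val : ℤ) := by
        intro h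
        apply hu0
        rw [← hlift uZ]
        exact (ZMod.intCast_zmod_eq_zero_iff_dvd _ _).2 h
      obtain ⟨u, hu3, hu4⟩ := hensel_odd hp hp2 hu2 hu1 κ
      refine ⟨u, (zZ.val : ℤ), ?_, ?_⟩
      · have e1 : u ^ 2 + 3 - 2 * e * (zZ.val : ℤ) ^ 2 =
          u ^ 2 - (2 * e * (zZ.val : ℤ) ^ 2 - 3) := by ring
        rw [e1]
        exact hu3
      · rw [← ZMod.intCast_zmod_eq_zero_iff_dvd]
        have h4 := (ZMod.intCast_zmod_eq_zero_iff_dvd _ _).2 hu4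
        push_cast at h4 ⊢
        rw [ZMod.natCast_zmod_val] at h4 ⊢
        linear_combination hz - (k' : ZMod p) * h4
  -- the local solutions
  have hloc : ∀ u z τ : ℤ, ¬ (p : ℤ) ∣ τ → (p : ℤ) ^ κ ∣ u ^ 2 + 3 - 2 * e * z ^ 2 →
      (p : ℤ) ∣ ω' * z - k' * u - τ → Loc p k (ω * z) (e * z ^ 2) u κ := by
    intro u z τ hτ h3 h4
    have e1 : ω * z - k * u = (p : ℤ) ^ κ * (ω' * z - k' * u) := by
      rw [hω]
      conv_lhs => rw [hk']
      ring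
    refine ⟨⟨_, e1⟩, ?_, ?_⟩
    · rintro ⟨c, hc⟩
      rw [e1] at hc
      have h6 : ω' * z - k' * u = p * c := by
        have h7 : (p : ℤ) ^ κ * (ω' * z - k' * u) = (p : ℤ) ^ κ * (p * c) := by
          rw [hc]
          ring
        exact mul_left_cancel₀ (pow_ne_zero _ hpp.ne_zero) h7
      apply hτ
      have e2 : τ = p * c - (ω' * z - k' * u - τ) := by
        rw [← h6]
        ring
      rw [e2]
      exact dvd_sub (dvd_mul_right _ _) h4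
    · rw [four, if_neg hp2, one_mul]
      have e2 : u ^ 2 + 3 - 2 * (e * z ^ 2) = u ^ 2 + 3 - 2 * e * z ^ 2 := by ring
      rw [e2]
      exact h3
  obtain ⟨b, hb⟩ := FiniteField.exists_nonsquare (F := ZMod p) (by
    rw [ZMod.ringChar_zmod_n]
    exact hp2)
  have hb0 : b ≠ 0 := by
    rintro rfl
    exact hb ⟨0, by ring⟩
  have hbv : ((b.val : ℤ) : ZMod p) = b := by
    push_cast
    exact ZMod.natCast_zmod_val b
  have h1p : ¬ (p : ℤ) ∣ 1 := fun h => hpp.not_isUnit (isUnit_of_dvd_one h)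
  have hbp : ¬ (p : ℤ) ∣ (b.val : ℤ) := by
    intro h
    apply hb0
    rw [← hbv]
    exact (ZMod.intCast_zmod_eq_zero_iff_dvd _ _).2 h
  obtain ⟨u₁, z₁, q₁, r₁⟩ := key 1 h1p
  obtain ⟨u₂, z₂, q₂, r₂⟩ := key b.val hbp
  have e1 : ∀ u z : ℤ, ω * z - k * u = (p : ℤ) ^ κ * (ω' * z - k' * u) := by
    intro u z
    rw [hω]
    conv_lhs => rw [hk']
    ring
  refine ⟨κ, u₁, z₁, ω' * z₁ - k' * u₁, u₂, z₂, ω' * z₂ - k' * u₂, e1 _ _, e1 _ _,
    hloc _ _ _ h1p q₁ r₁, hloc _ _ _ hbp q₂ r₂, ?_⟩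
  rw [jacobi_left_congr r₁, jacobi_left_congr r₂, jacobiSym.one_left,
    ← jacobiSym.legendreSym.to_jacobiSym, legendreSym.eq_neg_one_iff, hbv]
  exact hb

/-- **The flip at two.** -/
theorem two_flip {k e ω : ℤ} (hk : k ≠ 0) (he : Even e) (he4 : ¬ 4 ∣ e) {a : ℕ} {R : ℤ}
    (hL : 2 * k ^ 2 * e - ω ^ 2 = (2 : ℤ) ^ a * R) (ha : Odd a) (hR : ¬ (2 : ℤ) ∣ R) :
    ∃ (κ : ℕ) (u₁ z₁ τ₁ u₂ z₂ τ₂ : ℤ), ω * z₁ - k * u₁ = (2 : ℤ) ^ κ * τ₁ ∧
      ω * z₂ - k * u₂ = (2 : ℤ) ^ κ * τ₂ ∧ Loc 2 k (ω * z₁) (e * z₁ ^ 2) u₁ κ ∧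
      Loc 2 k (ω * z₂) (e * z₂ ^ 2) u₂ κ ∧ 8 ∣ τ₂ - τ₁ - 4 := by
  obtain ⟨m, hm⟩ := he
  have hmo : ¬ 2 ∣ m := by
    rintro ⟨c, rfl⟩
    exact he4 ⟨c, by rw [hm]; ring⟩
  obtain ⟨κ, hκ1, hκ2⟩ := exists_kappa Nat.prime_two hk
  push_cast at hκ1 hκ2
  have h2k : (2 : ℤ) ^ (κ + 1) ∣ 2 * k := by
    obtain ⟨c, hc⟩ := hκ1
    exact ⟨c, by rw [hc]; ring⟩
  obtain ⟨h1, ω', hω⟩ := omega_val (k := 2 * k) (ω := ω) (f := m) Int.prime_two h2k
    (by rw [hm] at hL; linear_combination hL) ha hR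
  obtain ⟨k', hk'⟩ := hκ1
  have hk'o : ¬ 2 ∣ k' := by
    rintro ⟨c, rfl⟩
    exact hκ2 ⟨c, by rw [hk']; ring⟩
  have hω'o : ¬ 2 ∣ ω' := by
    intro h
    obtain ⟨j, hj⟩ := Nat.exists_eq_add_of_le h1
    have h2 : m * k' ^ 2 - ω' ^ 2 = 2 * (2 ^ j * R) := by
      have h3 : ((2 : ℤ) ^ (κ + 1)) ^ 2 * (m * k' ^ 2 - ω' ^ 2) =
          ((2 : ℤ) ^ (κ + 1)) ^ 2 * (2 * (2 ^ j * R)) := by
        rw [hm, hk', hω, hj] at hL
        linear_combination hL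
      exact mul_left_cancel₀ (pow_ne_zero 2 (pow_ne_zero _ two_ne_zero)) h3
    have h3 : (2 : ℤ) ∣ m * k' ^ 2 := by
      have e1 : m * k' ^ 2 = 2 * (2 ^ j * R) + ω' * ω' := by linear_combination h2
      rw [e1]
      exact dvd_add (dvd_mul_right _ _) (h.mul_right _)
    rcases Int.prime_two.dvd_or_dvd h3 with h4 | h4
    · exact hmo h4
    · exact hk'o (Int.prime_two.dvd_of_dvd_pow h4)
  obtain ⟨u₁, hu₁, hq₁⟩ := hensel_two (N := 4 * m - 3) (by omega) (κ + 5)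
  obtain ⟨u₀, hu₀, hq₀⟩ := hensel_two (N := 36 * m - 3) (by omega) (κ + 5)
  -- the sign
  obtain ⟨u₂, hu₂, hq₂, hd⟩ : ∃ u₂ : ℤ, Odd u₂ ∧ (2 : ℤ) ^ (κ + 5) ∣ u₂ ^ 2 - (36 * m - 3) ∧
      (8 : ℤ) ∣ u₂ - u₁ := by
    have h32 : (32 : ℤ) ∣ (u₀ - u₁) * (u₀ + u₁) := by
      have h5 : (32 : ℤ) ∣ 2 ^ (κ + 5) := ⟨2 ^ κ, by ring⟩
      have e1 : (u₀ - u₁) * (u₀ + u₁) = (u₀ ^ 2 - (36 * m - 3)) - (u₁ ^ 2 - (4 * m - 3)) +
          32 * m := by ring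
      rw [e1]
      exact dvd_add (dvd_sub (h5.trans hq₀) (h5.trans hq₁)) (dvd_mul_right _ _)
    obtain ⟨b₀, hb₀⟩ := hu₀
    obtain ⟨b₁, hb₁⟩ := hu₁
    by_cases h4 : (4 : ℤ) ∣ u₀ - u₁
    · refine ⟨u₀, ⟨b₀, hb₀⟩, hq₀, ?_⟩
      -- `u₀ + u₁` is `2` modulo `4`
      obtain ⟨c, hc⟩ : ∃ c, u₀ + u₁ = 2 * (2 * c + 1) := by
        refine ⟨(u₀ + u₁) / 4, ?_⟩
        omega
      rw [hc] at h32
      have h6 : (16 : ℤ) ∣ (u₀ - u₁) * (2 * c + 1) := by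
        obtain ⟨y, hy⟩ := h32
        refine ⟨y, ?_⟩
        have h7 : 2 * ((u₀ - u₁) * (2 * c + 1)) = 2 * (16 * y) := by linear_combination hy
        exact mul_left_cancel₀ two_ne_zero h7
      have hcop : IsCoprime (16 : ℤ) (2 * c + 1) := by
        have : IsCoprime ((2 : ℤ) ^ 4) (2 * c + 1) :=
          IsCoprime.pow_left ⟨-c, 1, by ring⟩
        norm_num at this
        exact this
      exact (by norm_num : (8 : ℤ) ∣ 16).trans (hcop.dvd_of_dvd_mul_right h6)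
    · refine ⟨-u₀, ⟨-b₀ - 1, by rw [hb₀]; ring⟩, by rw [neg_sq]; exact hq₀, ?_⟩
      obtain ⟨c, hc⟩ : ∃ c, u₀ - u₁ = 2 * (2 * c + 1) := by
        refine ⟨(u₀ - u₁) / 4, ?_⟩
        omega
      rw [hc] at h32
      have h6 : (16 : ℤ) ∣ (2 * c + 1) * (u₀ + u₁) := by
        obtain ⟨y, hy⟩ := h32
        refine ⟨y, ?_⟩
        have h7 : 2 * ((2 * c + 1) * (u₀ + u₁)) = 2 * (16 * y) := by linear_combination hy
        exact mul_left_cancel₀ two_ne_zero h7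
      have hcop : IsCoprime (16 : ℤ) (2 * c + 1) := by
        have : IsCoprime ((2 : ℤ) ^ 4) (2 * c + 1) :=
          IsCoprime.pow_left ⟨-c, 1, by ring⟩
        norm_num at this
        exact this
      have h8 := (by norm_num : (8 : ℤ) ∣ 16).trans (hcop.dvd_of_dvd_mul_left h6)
      have e1 : -u₀ - u₁ = -(u₀ + u₁) := by ring
      rw [e1]
      exact dvd_neg.2 h8
  have e1 : ∀ u z : ℤ, ω * z - k * u = (2 : ℤ) ^ κ * (2 * ω' * z - k' * u) := by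
    intro u z
    rw [hω]
    conv_lhs => rw [hk']
    ring
  have hloc : ∀ u z : ℤ, Odd u → (2 : ℤ) ^ (κ + 5) ∣ u ^ 2 + 3 - 2 * (e * z ^ 2) →
      Loc 2 k (ω * z) (e * z ^ 2) u κ := by
    intro u z hu hq
    refine ⟨?_, ?_, ?_⟩
    · rw [e1]
      push_cast
      exact dvd_mul_right _ _
    · rw [e1]
      push_cast
      rintro ⟨c, hc⟩
      have h6 : 2 * ω' * z - k' * u = 2 * c := by
        have h7 : (2 : ℤ) ^ κ * (2 * ω' * z - k' * u) = (2 : ℤ) ^ κ * (2 * c) := by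
          rw [hc]
          ring
        exact mul_left_cancel₀ (pow_ne_zero _ two_ne_zero) h7
      have h7 : (2 : ℤ) ∣ k' * u := ⟨ω' * z - c, by linear_combination -h6⟩
      rcases Int.prime_two.dvd_or_dvd h7 with h8 | h8
      · exact hk'o h8
      · exact (Int.not_even_iff_odd.2 hu) (even_iff_two_dvd.2 h8)
    · rw [four, if_pos rfl]
      refine Dvd.dvd.trans ?_ hq
      push_cast
      exact ⟨8, by ring⟩
  refine ⟨κ, u₁, 1, 2 * ω' * 1 - k' * u₁, u₂, 3, 2 * ω' * 3 - k' * u₂, e1 _ _, e1 _ _,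
    hloc _ _ hu₁ ?_, hloc _ _ hu₂ ?_, ?_⟩
  · have e2 : u₁ ^ 2 + 3 - 2 * (e * 1 ^ 2) = u₁ ^ 2 - (4 * m - 3) := by
      rw [hm]
      ring
    rw [e2]
    exact hq₁
  · have e2 : u₂ ^ 2 + 3 - 2 * (e * 3 ^ 2) = u₂ ^ 2 - (36 * m - 3) := by
      rw [hm]
      ring
    rw [e2]
    exact hq₂
  · obtain ⟨c, hc⟩ := hd
    obtain ⟨b, hb⟩ : ∃ b, ω' = 2 * b + 1 := ⟨ω' / 2, by omega⟩
    refine ⟨b - k' * c, ?_⟩
    rw [hb]
    linear_combination (-k') * hc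

/-- The symbol of `-1`. -/
theorem jacobi_neg_flip {p : ℕ} (_hp : p.Prime) (h3 : p % 4 = 3) (τ : ℤ) :
    J(-τ | p) = -J(τ | p) := by
  have hodd : Odd p := by
    rw [Nat.odd_iff]
    omega
  rw [jacobiSym.neg _ hodd, ZMod.χ₄_nat_three_mod_four h3]
  ring

end Pool.Agent.L5helper19.GS
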