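import Pool.Agent.L5helper19.GS.Four
import Pool.Agent.L5helper19.GS.LocFlip

/-!
# Gluing with higher precision
-/

set_option autoImplicit false

namespace Pool.Agent.L5helper19.GS

open Pool.Agent.Y95.Q
open NumberTheorySymbols

variable {X : CubicFourfold} {H : H4 X}

/-- The set of the prime numbers dividing `6 k`. -/
def bad (k : ℤ) : Finset ℕ := (6 * k).natAbs.primeFactors

theorem mem_bad {k : ℤ} (hk : 0 < k) (p : ℕ) : p ∈ bad k ↔ p.Prime ∧ (p : ℤ) ∣ 6 * k := by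
  rw [bad, Nat.mem_primeFactors]
  constructor
  · rintro ⟨h1, h2, -⟩
    exact ⟨h1, Int.natCast_dvd.2 h2⟩
  · rintro ⟨h1, h2⟩
    exact ⟨h1, Int.natCast_dvd.1 h2, Int.natAbs_ne_zero.2 (by positivity)⟩

/-- The Gram determinant. -/
def gram (H : H4 X) (k : ℤ) (A v : Fin 23 → ℤ) : ℤ := 2 * k ^ 2 * H.disc v - bil H A v ^ 2

theorem exists_sign {a b : ℤ} (h : 0 < b) (ha : 0 ≤ a) (g : ℤ) : ∃ s : ℤ, (s = 1 ∨ s = -1) ∧
    0 < a + 2 * s * g + b := by
  rcases le_total 0 g with h1 | h1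
  · exact ⟨1, Or.inl rfl, by linarith⟩
  · exact ⟨-1, Or.inr rfl, by linarith⟩

/-- Perturbation: the Gram determinant can be made positive. -/
theorem perturb (hH : H.IsCohomology) {k : ℤ} {A vs v : Fin 23 → ℤ} (hk : 0 < k)
    (hA : H.IsHodge A) (hAd : H.disc A = 2 * k ^ 2) (hvs : H.IsHodge vs)
    (hG : 0 < gram H k A vs) (hv : H.IsHodge v) {N : ℤ} (hN : 0 < N) :
    ∃ y, H.IsHodge y ∧ 0 < gram H k A (v + N • y) := by
  have h1 : 0 ≤ gram H k A v := by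
    have := gram_nonneg hH hA (by rw [hAd]; positivity) hv
    rwa [hAd] at this
  obtain ⟨s, hs, h2⟩ := exists_sign (a := gram H k A v) (b := N ^ 2 * gram H k A vs)
    (by positivity) h1 (N * (2 * k ^ 2 * bil H v vs - bil H A v * bil H A vs))
  refine ⟨s • vs, H.isHodge_smul _ hvs, ?_⟩
  have h3 : gram H k A (v + N • s • vs) = gram H k A v +
      2 * s * (N * (2 * k ^ 2 * bil H v vs - bil H A v * bil H A vs)) +
      s ^ 2 * (N ^ 2 * gram H k A vs) := by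
    rw [smul_smul]
    simp only [gram, disc_add_smul hH, bil_add_smul]
    ring
  have h4 : s ^ 2 = 1 := by rcases hs with rfl | rfl <;> norm_num
  rw [h3, h4, one_mul]
  exact h2

/-- Gluing with higher precision. -/
theorem glue2 (hH : H.IsCohomology) {k : ℤ} (hk : 0 < k) {A vs : Fin 23 → ℤ}
    (hA : H.IsHodge A) (hAd : H.disc A = 2 * k ^ 2) (hvs : H.IsHodge vs)
    (hG : 0 < gram H k A vs) (w : ℕ → Fin 23 → ℤ) (hw : ∀ p ∈ bad k, H.IsHodge (w p))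
    (u : ℕ → ℤ) (E : ℕ → ℕ) :
    ∃ (v : Fin 23 → ℤ) (x : ℤ), H.IsHodge v ∧ 0 < gram H k A v ∧
      ∀ p ∈ bad k, (∃ y, H.IsHodge y ∧ v = w p + ((p : ℤ) ^ E p) • y) ∧
        (p : ℤ) ^ E p ∣ x - u p := by
  obtain ⟨v, x, hv, h⟩ := crt_hodge (H := H) (bad k) (fun p => (p : ℤ) ^ E p) (by
      intro p hp q hq hpq
      refine IsCoprime.pow ?_
      rw [Nat.isCoprime_iff_coprime]
      exact (Nat.coprime_primes ((mem_bad hk p).1 hp).1 ((mem_bad hk q).1 hq).1).2 hpq) w hw u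
  set N : ℤ := ∏ p ∈ bad k, (p : ℤ) ^ E p with hN
  have hNpos : 0 < N := Finset.prod_pos fun p hp => by
    have := ((mem_bad hk p).1 hp).1.pos
    positivity
  obtain ⟨y, hy, hg⟩ := perturb hH hk hA hAd hvs hG hv hNpos
  refine ⟨v + N • y, x, H.isHodge_add hv (H.isHodge_smul _ hy), hg, fun p hp => ?_⟩
  obtain ⟨⟨y', hy', hvy⟩, hx⟩ := h p hp
  obtain ⟨N', hN'⟩ : (p : ℤ) ^ E p ∣ N := Finset.dvd_prod_of_mem _ hp
  refine ⟨⟨y' + N' • y, H.isHodge_add hy' (H.isHodge_smul _ hy), ?_⟩, hx⟩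
  rw [hvy, hN', mul_smul]
  module

/-- The product of the exact powers. -/
noncomputable def dd (k : ℤ) (c : ℕ → ℕ) : ℤ := ∏ p ∈ bad k, (p : ℤ) ^ c p

theorem dd_pos {k : ℤ} (hk : 0 < k) (c : ℕ → ℕ) : 0 < dd k c := Finset.prod_pos fun p hp => by
  have := ((mem_bad hk p).1 hp).1.pos
  positivity

theorem dd_split {k : ℤ} (hk : 0 < k) (c : ℕ → ℕ) {p : ℕ} (hp : p ∈ bad k) :
    ∃ d', dd k c = (p : ℤ) ^ c p * d' ∧ ¬ (p : ℤ) ∣ d' := by
  classical
  refine ⟨∏ q ∈ (bad k).erase p, (q : ℤ) ^ c q, ?_, ?_⟩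
  · rw [dd, Finset.mul_prod_erase (bad k) (fun q => (q : ℤ) ^ c q) hp]
  · intro h
    have hpp := ((mem_bad hk p).1 hp).1
    obtain ⟨q, hq, h1⟩ := (Nat.prime_iff_prime_int.1 hpp).exists_mem_finset_dvd h
    have hq' := Finset.mem_erase.1 hq
    have h2 := (Nat.prime_iff_prime_int.1 hpp).dvd_of_dvd_pow h1
    have h3 : p ∣ q := by exact_mod_cast h2
    exact hq'.1 ((Nat.prime_dvd_prime_iff_eq hpp ((mem_bad hk q).1 hq'.2).1).1 h3).symm

/-- The factorization, with the explicit product of prime powers. -/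
theorem assemble2 {k t F : ℤ} (hk : 0 < k) (c : ℕ → ℕ)
    (hloc : ∀ p ∈ bad k, (p : ℤ) ^ c p ∣ t ∧ ¬ (p : ℤ) ^ (c p + 1) ∣ t ∧
      four p * (p : ℤ) ^ c p ∣ F) :
    ∃ r : ℤ, t = dd k c * r ∧ IsCoprime r (24 * k) ∧ 4 * dd k c ∣ F := by
  have hcop : ∀ p ∈ bad k, ∀ q ∈ bad k, p ≠ q → IsCoprime (p : ℤ) q := by
    intro p hp q hq hpq
    rw [Nat.isCoprime_iff_coprime]
    exact (Nat.coprime_primes ((mem_bad hk p).1 hp).1 ((mem_bad hk q).1 hq).1).2 hpq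
  have h2 : 2 ∈ bad k := (mem_bad hk 2).2 ⟨Nat.prime_two, ⟨3 * k, by push_cast; ring⟩⟩
  obtain ⟨r, hr⟩ : dd k c ∣ t := by
    refine Finset.prod_dvd_of_coprime (fun p hp q hq hpq => ?_) fun p hp => (hloc p hp).1
    exact (hcop p hp q hq hpq).pow
  refine ⟨r, hr, ?_, ?_⟩
  · rw [Int.isCoprime_iff_gcd_eq_one]
    by_contra hcon
    obtain ⟨p, hp, hpd⟩ := Nat.exists_prime_and_dvd hcon
    have h3 : (p : ℤ) ∣ r := (Int.natCast_dvd_natCast.2 hpd).trans (Int.gcd_dvd_left _ _)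
    have h4 : (p : ℤ) ∣ 24 * k := (Int.natCast_dvd_natCast.2 hpd).trans (Int.gcd_dvd_right _ _)
    have hpp := Nat.prime_iff_prime_int.1 hp
    have h5 : (p : ℤ) ∣ 6 * k := by
      have h6 : (p : ℤ) ∣ (6 * k) ^ 3 := h4.trans ⟨9 * k ^ 2, by ring⟩
      exact hpp.dvd_of_dvd_pow h6
    have hpb : p ∈ bad k := (mem_bad hk p).2 ⟨hp, h5⟩
    apply (hloc p hpb).2.1
    obtain ⟨d', hd', -⟩ := dd_split hk c hpb
    obtain ⟨r', rfl⟩ := h3
    rw [hr, hd']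
    exact ⟨d' * r', by ring⟩
  · have h3 : ∏ p ∈ bad k, (four p * (p : ℤ) ^ c p) = 4 * dd k c := by
      rw [Finset.prod_mul_distrib, dd]
      congr 1
      rw [Finset.prod_eq_single 2]
      · rfl
      · intro q _ hq
        rw [four, if_neg hq]
      · intro h
        exact absurd h2 h
    rw [← h3]
    refine Finset.prod_dvd_of_coprime (fun p hp q hq hpq => ?_) fun p hp => (hloc p hp).2.2
    have key : ∀ p : ℕ, four p * (p : ℤ) ^ c p ∣ (p : ℤ) ^ (c p + 2) := by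
      intro p
      rw [four]
      split_ifs with h
      · rw [h]
        push_cast
        exact ⟨1, by ring⟩
      · rw [one_mul]
        exact pow_dvd_pow _ (by omega)
    exact ((hcop p hp q hq hpq).pow).of_isCoprime_of_dvd_left (key p)
      |>.of_isCoprime_of_dvd_right (key q)

theorem t_congr {A v w y : Fin 23 → ℤ} {k x u P : ℤ} (hv : v = w + P • y) (hx : P ∣ x - u) :
    P ∣ (bil H A v - k * x) - (bil H A w - k * u) := by
  obtain ⟨b, hb⟩ := hx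
  refine ⟨bil H A y - k * b, ?_⟩
  rw [hv, bil_add_smul]
  linear_combination (-k) * hb

/-- The data attached to local solutions. -/
theorem data (hH : H.IsCohomology) {k : ℤ} (hk : 0 < k) {A vs : Fin 23 → ℤ}
    (hA : H.IsHodge A) (hAd : H.disc A = 2 * k ^ 2) (hvs : H.IsHodge vs)
    (hG : 0 < gram H k A vs) (w : ℕ → Fin 23 → ℤ) (u : ℕ → ℤ) (c : ℕ → ℕ)
    (hw : ∀ p ∈ bad k, H.IsHodge (w p) ∧ Loc p k (bil H A (w p)) (H.disc (w p)) (u p) (c p))
    (E : ℕ) :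
    ∃ (v : Fin 23 → ℤ) (x r : ℤ), H.IsHodge v ∧ 0 < gram H k A v ∧
      bil H A v - k * x = dd k c * r ∧ IsCoprime r (24 * k) ∧
      4 * dd k c ∣ x ^ 2 + 3 - 2 * H.disc v ∧
      ∀ p ∈ bad k, (p : ℤ) ^ (c p + 3 + E) ∣
        (bil H A v - k * x) - (bil H A (w p) - k * u p) := by
  obtain ⟨v, x, hv, hg, h⟩ := glue2 hH hk hA hAd hvs hG w (fun p hp => (hw p hp).1) u
    (fun p => c p + 3 + E)
  have hloc : ∀ p ∈ bad k, Loc p k (bil H A v) (H.disc v) x (c p) := by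
    intro p hp
    obtain ⟨⟨y, hy, hvy⟩, hx⟩ := h p hp
    refine (hw p hp).2.congr hH (y := ((p : ℤ) ^ E) • y) ?_
      ((pow_dvd_pow _ (by omega)).trans hx)
    rw [hvy, smul_smul, ← pow_add]
  obtain ⟨r, hr1, hr2, hr3⟩ := assemble2 (t := bil H A v - k * x)
    (F := x ^ 2 + 3 - 2 * H.disc v) hk c
    fun p hp => ⟨(hloc p hp).dvd, (hloc p hp).exact, (hloc p hp).quad⟩
  refine ⟨v, x, r, hv, hg, hr1, hr2, hr3, fun p hp => ?_⟩
  obtain ⟨⟨y, hy, hvy⟩, hx⟩ := h p hp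
  exact t_congr hvy hx

end Pool.Agent.L5helper19.GS
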