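import Pool.Agent.L5helper19.GS.Sym8
import Pool.Agent.H132.Ternary

/-!
# Dual bases, Gram matrices of saturated lattices of Hodge classes
-/

set_option autoImplicit false

namespace Pool.Agent.L5helper19.GS

open Pool.Agent.Y95.Q Module

variable {X : CubicFourfold} {H : H4 X} {S : Submodule ℤ (Fin 23 → ℤ)}

/-- Every functional is a pairing with a class. -/
theorem exists_rep (hH : H.IsCohomology) (Φ : (Fin 23 → ℤ) →ₗ[ℤ] ℤ) :
    ∃ x : Fin 23 → ℤ, ∀ v, H.ip v x = Φ v := by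
  refine ⟨Matrix.mulVec H.B⁻¹ (fun i => Φ (Pi.single i 1)), fun v => ?_⟩
  have h1 : H.ip v (Matrix.mulVec H.B⁻¹ (fun i => Φ (Pi.single i 1))) =
      dotProduct v (Matrix.mulVec H.B (Matrix.mulVec H.B⁻¹ (fun i => Φ (Pi.single i 1)))) := by
    unfold H4.ip dotProduct
    refine Finset.sum_congr rfl fun i _ => ?_
    rw [Matrix.mulVec, dotProduct, Finset.mul_sum]
    refine Finset.sum_congr rfl fun j _ => ?_
    ring
  rw [h1, Matrix.mulVec_mulVec, Matrix.mul_nonsing_inv _ hH.unimodular, Matrix.one_mulVec]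
  have h2 : v = ∑ i, v i • Pi.single i (1 : ℤ) := by
    ext j
    simp [Finset.sum_apply, Pi.single_apply]
  conv_rhs => rw [h2]
  rw [map_sum]
  unfold dotProduct
  refine Finset.sum_congr rfl fun i _ => ?_
  rw [map_smul, smul_eq_mul]

/-- A functional on a saturated group is a pairing with a class. -/
theorem exists_dual (hH : H.IsCohomology)
    (hsat : ∀ (n : ℤ) (v : Fin 23 → ℤ), n ≠ 0 → n • v ∈ S → v ∈ S) {r : ℕ}
    (b : Basis (Fin r) ℤ S) (c : Fin r → ℤ) :
    ∃ x : Fin 23 → ℤ, ∀ j, H.ip (b j : Fin 23 → ℤ) x = c j := by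
  have htf : Module.IsTorsionFree ℤ ((Fin 23 → ℤ) ⧸ S) := by
    constructor
    intro n hn x y hxy
    have hn0 : n ≠ 0 := by
      rintro rfl
      exact not_isRegular_zero hn
    induction x using Submodule.Quotient.induction_on with
    | H u =>
      induction y using Submodule.Quotient.induction_on with
      | H v =>
        have h1 : (n • Submodule.Quotient.mk u : (Fin 23 → ℤ) ⧸ S) = n • Submodule.Quotient.mk v :=
          hxy
        rw [← Submodule.Quotient.mk_smul, ← Submodule.Quotient.mk_smul, Submodule.Quotient.eq,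
          ← smul_sub] at h1
        exact (Submodule.Quotient.eq S).2 (hsat n _ hn0 h1)
  have hfree : Module.Free ℤ ((Fin 23 → ℤ) ⧸ S) := Module.free_of_finite_type_torsion_free'
  obtain ⟨s, hs⟩ := Module.projective_lifting_property S.mkQ
    (LinearMap.id : ((Fin 23 → ℤ) ⧸ S) →ₗ[ℤ] ((Fin 23 → ℤ) ⧸ S)) S.mkQ_surjective
  have hmem : ∀ x, x - s (S.mkQ x) ∈ S := by
    intro x
    have h0 : x - s (S.mkQ x) ∈ LinearMap.ker S.mkQ := by
      rw [LinearMap.mem_ker, map_sub]
      have h1 : S.mkQ (s (S.mkQ x)) = S.mkQ x := LinearMap.congr_fun hs (S.mkQ x)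
      rw [h1, sub_self]
    rwa [Submodule.ker_mkQ] at h0
  let π : (Fin 23 → ℤ) →ₗ[ℤ] S := (LinearMap.id - s ∘ₗ S.mkQ).codRestrict S hmem
  obtain ⟨x, hx⟩ := exists_rep hH ((b.constr ℤ c) ∘ₗ π)
  refine ⟨x, fun j => ?_⟩
  rw [hx, LinearMap.comp_apply]
  have h2 : π (b j : Fin 23 → ℤ) = b j := by
    apply Subtype.ext
    change (b j : Fin 23 → ℤ) - s (S.mkQ (b j : Fin 23 → ℤ)) = b j
    have h3 : S.mkQ (b j : Fin 23 → ℤ) = 0 := by
      rw [← LinearMap.mem_ker, Submodule.ker_mkQ]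
      exact (b j).2
    rw [h3, map_zero, sub_zero]
  rw [h2, Basis.constr_basis]

/-- The Gram matrix. -/
def gram (H : H4 X) {r : ℕ} (b : Fin r → (Fin 23 → ℤ)) : Matrix (Fin r) (Fin r) ℤ :=
  fun i j => H.ip (b i) (b j)

theorem gram_symm (hH : H.IsCohomology) {r : ℕ} (b : Fin r → (Fin 23 → ℤ)) :
    (gram H b).transpose = gram H b := by
  ext i j
  exact hH.comm _ _

/-- The lattice is 2-elementary: for every class `x` the functional `2 v.x` on `S` is given by an
element of `S`. -/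
def TwoEl (H : H4 X) (S : Submodule ℤ (Fin 23 → ℤ)) : Prop :=
  ∀ x : Fin 23 → ℤ, ∃ z ∈ S, ∀ v ∈ S, H.ip v z = 2 * H.ip v x

theorem TwoEl.exists_inverse (h : TwoEl H S) (hS : Piece H S) (hH : H.IsCohomology) {r : ℕ}
    (b : Basis (Fin r) ℤ S) : ∃ N : Matrix (Fin r) (Fin r) ℤ,
      gram H (fun i => (b i : Fin 23 → ℤ)) * N = (2 : ℤ) • (1 : Matrix (Fin r) (Fin r) ℤ) := by
  have h1 : ∀ i : Fin r, ∃ z : S, ∀ j, H.ip (b j : Fin 23 → ℤ) z = 2 * (if j = i then 1 else 0) := by
    intro i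
    obtain ⟨x, hx⟩ := exists_dual hH hS.sat b (fun j => if j = i then 1 else 0)
    obtain ⟨z, hz, hzx⟩ := h x
    exact ⟨⟨z, hz⟩, fun j => by rw [hzx _ (b j).2, hx]⟩
  choose z hz using h1
  refine ⟨fun k i => b.repr (z i) k, ?_⟩
  ext j i
  rw [Matrix.mul_apply, Matrix.smul_apply, Matrix.one_apply, smul_eq_mul, ← hz i j]
  have h2 : (z i : Fin 23 → ℤ) = ∑ k, b.repr (z i) k • (b k : Fin 23 → ℤ) := by
    conv_lhs => rw [← b.sum_repr (z i)]
    simp only [Submodule.coe_sum, Submodule.coe_smul]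
  conv_rhs => rw [h2]
  rw [H.ip_sum_right]
  refine Finset.sum_congr rfl fun k _ => ?_
  rw [H.ip_smul_right, mul_comm]
  rfl

theorem TwoEl.det_dvd (h : TwoEl H S) (hS : Piece H S) (hH : H.IsCohomology) {r : ℕ}
    (b : Basis (Fin r) ℤ S) : (gram H (fun i => (b i : Fin 23 → ℤ))).det ∣ 2 ^ r := by
  obtain ⟨N, hN⟩ := h.exists_inverse hS hH b
  have h1 := congrArg Matrix.det hN
  rw [Matrix.det_mul, Matrix.det_smul, Matrix.det_one, mul_one, Fintype.card_fin] at h1
  exact ⟨N.det, h1.symm⟩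

/-- Combinations of a basis. -/
theorem comb_ne_zero {r : ℕ} (b : Basis (Fin r) ℤ S) {c : Fin r → ℤ} (hc : c ≠ 0) :
    ∑ k, c k • (b k : Fin 23 → ℤ) ≠ 0 := by
  intro h
  apply hc
  have h1 : ∑ k, c k • b k = 0 := by
    apply Subtype.ext
    rw [ZeroMemClass.coe_zero]
    simpa only [Submodule.coe_sum, Submodule.coe_smul] using h
  exact funext (Fintype.linearIndependent_iff.1 b.linearIndependent c h1)

theorem comb_mem {r : ℕ} (b : Basis (Fin r) ℤ S) (c : Fin r → ℤ) :
    ∑ k, c k • (b k : Fin 23 → ℤ) ∈ S :=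
  S.sum_mem fun k _ => S.smul_mem _ (b k).2

/-- The rank of a 2-elementary lattice of Hodge classes orthogonal to `h` is at least four. -/
theorem TwoEl.four_le (h : TwoEl H S) (hS : Piece H S) (hH : H.IsCohomology) {r : ℕ}
    (b : Basis (Fin r) ℤ S) : 4 ≤ r := by
  by_contra hcon
  have hdet := h.det_dvd hS hH b
  obtain ⟨N, hN⟩ := h.exists_inverse hS hH b
  have hr : r = 0 ∨ r = 1 ∨ r = 2 ∨ r = 3 := by omega
  have hval : ∀ c : Fin r → ℤ, c ≠ 0 →
      0 < H.ip (∑ k, c k • (b k : Fin 23 → ℤ)) (∑ k, c k • (b k : Fin 23 → ℤ)) ∧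
      Even (H.ip (∑ k, c k • (b k : Fin 23 → ℤ)) (∑ k, c k • (b k : Fin 23 → ℤ))) ∧
      H.ip (∑ k, c k • (b k : Fin 23 → ℤ)) (∑ k, c k • (b k : Fin 23 → ℤ)) ≠ 2 := fun c hc =>
    ⟨hS.pos hH (comb_mem b c) (comb_ne_zero b hc), hS.even hH (comb_mem b c),
      hS.ne_two hH (comb_mem b c)⟩
  rcases hr with rfl | rfl | rfl | rfl
  · obtain ⟨v, hv, hv0⟩ := hS.ne_zero
    apply hv0
    have h1 := b.sum_repr ⟨v, hv⟩
    rw [Fin.sum_univ_zero] at h1
    exact (congrArg Subtype.val h1).symm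
  · -- rank one
    obtain ⟨h1, h2, h3⟩ := hval ![1] (by simp)
    simp only [Fin.sum_univ_one, Matrix.cons_val_fin_one, one_smul] at h1 h2 h3
    rw [Matrix.det_fin_one, pow_one] at hdet
    change H.ip (b 0 : Fin 23 → ℤ) (b 0) ∣ 2 at hdet
    have h4 := Int.le_of_dvd (by norm_num) hdet
    obtain ⟨m, hm⟩ := h2
    omega
  · -- rank two
    have hg := gram_symm hH (fun i => (b i : Fin 23 → ℤ))
    set g := gram H (fun i => (b i : Fin 23 → ℤ)) with hgdef
    have hg10 : g 1 0 = g 0 1 := congrFun (congrFun hg 0) 1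
    have hform : ∀ u v : ℤ, H.ip (∑ k, ![u, v] k • (b k : Fin 23 → ℤ))
        (∑ k, ![u, v] k • (b k : Fin 23 → ℤ)) = g 0 0 * u ^ 2 + 2 * g 0 1 * u * v + g 1 1 * v ^ 2 := by
      intro u v
      simp only [Fin.sum_univ_two, Matrix.cons_val_zero, Matrix.cons_val_one]
      rw [ip_add_self hH, ip_smul_smul, ip_smul_smul, H.ip_smul_left, H.ip_smul_right]
      change u ^ 2 * g 0 0 + 2 * (u * (v * g 0 1)) + v ^ 2 * g 1 1 = _
      ring
    obtain ⟨u, v, w, huvw, hq⟩ := Pool.Agent.H132.Ternary.hermite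
      !![g 0 0, g 0 1, 0; g 0 1, g 1 1, 0; 0, 0, 4] (by
        ext i j; fin_cases i <;> fin_cases j <;> rfl) (by
        intro u v w huvw
        simp only [Pool.Agent.H132.Ternary.q, Matrix.of_apply, Matrix.cons_val', Matrix.cons_val_zero,
          Matrix.cons_val_one, Matrix.cons_val]
        by_cases huv : (![u, v] : Fin 2 → ℤ) = 0
        · have hu : u = 0 := congrFun huv 0
          have hv : v = 0 := congrFun huv 1
          subst hu hv
          have hw : w ≠ 0 := by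
            rcases huvw with h | h | h
            · exact absurd rfl h
            · exact absurd rfl h
            · exact h
          have := sq_pos_of_ne_zero hw
          nlinarith
        · have h1 := (hval _ huv).1
          rw [hform] at h1
          nlinarith [sq_nonneg w])
    simp only [Pool.Agent.H132.Ternary.q, Matrix.of_apply, Matrix.cons_val', Matrix.cons_val_zero,
      Matrix.cons_val_one, Matrix.cons_val] at hq
    have hd3 : (!![g 0 0, g 0 1, 0; g 0 1, g 1 1, 0; 0, 0, 4] : Matrix (Fin 3) (Fin 3) ℤ).det =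
        4 * g.det := by
      rw [Matrix.det_fin_three, Matrix.det_fin_two, hg10]
      simp only [Matrix.of_apply, Matrix.cons_val', Matrix.cons_val_zero, Matrix.cons_val_one,
        Matrix.cons_val]
      ring
    rw [hd3] at hq
    have hdl : g.det ≤ 4 := by
      have := Int.le_of_dvd (by norm_num) hdet
      omega
    by_cases huv : (![u, v] : Fin 2 → ℤ) = 0
    · have hu : u = 0 := congrFun huv 0
      have hv : v = 0 := congrFun huv 1
      subst hu hv
      have hw : w ≠ 0 := by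
        rcases huvw with h | h | h
        · exact absurd rfl h
        · exact absurd rfl h
        · exact h
      have h2 : 1 ≤ w ^ 2 := sq_pos_of_ne_zero hw
      have h3 : (4 : ℤ) ^ 3 ≤ (4 * w ^ 2) ^ 3 := pow_le_pow_left₀ (by norm_num) (by linarith) 3
      have h4 : 27 * (4 * w ^ 2) ^ 3 ≤ 64 * (4 * g.det) := by
        refine le_trans (le_of_eq ?_) hq
        ring
      omega
    · obtain ⟨h1, h2, h3⟩ := hval _ huv
      rw [hform] at h1 h2 h3
      obtain ⟨m, hm⟩ := h2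
      have h4 : 4 ≤ g 0 0 * u ^ 2 + 2 * g 0 1 * u * v + g 1 1 * v ^ 2 := by omega
      have h5 : (4 : ℤ) ^ 3 ≤ (g 0 0 * u ^ 2 + 2 * g 0 1 * u * v + g 1 1 * v ^ 2 + 4 * w ^ 2) ^ 3 :=
        pow_le_pow_left₀ (by norm_num) (by nlinarith [sq_nonneg w]) 3
      have h6 : 27 * (g 0 0 * u ^ 2 + 2 * g 0 1 * u * v + g 1 1 * v ^ 2 + 4 * w ^ 2) ^ 3 ≤
          64 * (4 * g.det) := by
        refine le_trans (le_of_eq ?_) hq
        ring
      omega
  · -- rank three
    have hg := gram_symm hH (fun i => (b i : Fin 23 → ℤ))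
    set g := gram H (fun i => (b i : Fin 23 → ℤ)) with hgdef
    have hform : ∀ u v w : ℤ, H.ip (∑ k, ![u, v, w] k • (b k : Fin 23 → ℤ))
        (∑ k, ![u, v, w] k • (b k : Fin 23 → ℤ)) = Pool.Agent.H132.Ternary.q g u v w := by
      intro u v w
      simp only [Fin.sum_univ_three, Matrix.cons_val_zero, Matrix.cons_val_one, Matrix.cons_val]
      rw [ip_add_self hH, ip_add_self hH, ip_smul_smul, ip_smul_smul, ip_smul_smul, H.ip_smul_left,
        H.ip_smul_right, H.ip_smul_right, H.ip_add_left, H.ip_smul_left, H.ip_smul_left]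
      change u ^ 2 * g 0 0 + 2 * (u * (v * g 0 1)) + v ^ 2 * g 1 1 +
        2 * (w * (u * g 0 2 + v * g 1 2)) + w ^ 2 * g 2 2 = _
      unfold Pool.Agent.H132.Ternary.q
      ring
    have hne : ∀ u v w : ℤ, (u ≠ 0 ∨ v ≠ 0 ∨ w ≠ 0) → (![u, v, w] : Fin 3 → ℤ) ≠ 0 := by
      intro u v w huvw h0
      rcases huvw with h | h | h
      · exact h (congrFun h0 0)
      · exact h (congrFun h0 1)
      · exact h (congrFun h0 2)
    obtain ⟨u, v, w, huvw, hq⟩ := Pool.Agent.H132.Ternary.hermite g hg (by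
      intro u v w huvw
      rw [← hform]
      exact (hval _ (hne u v w huvw)).1)
    obtain ⟨h1, h2, h3⟩ := hval _ (hne u v w huvw)
    rw [hform] at h1 h2 h3
    have hdl : g.det ≤ 8 := by
      have := Int.le_of_dvd (by norm_num) hdet
      omega
    obtain ⟨m, hm⟩ := h2
    have h4 : 4 ≤ Pool.Agent.H132.Ternary.q g u v w := by omega
    have h5 : (4 : ℤ) ^ 3 ≤ (Pool.Agent.H132.Ternary.q g u v w) ^ 3 :=
      pow_le_pow_left₀ (by norm_num) h4 3
    omega

end Pool.Agent.L5helper19.GS
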