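import Pool.Agent.L5helper19.GS.Inv1
import Pool.Agent.Y95.Q.Mod
import Pool.Agent.Y217.KS.DIAG
import Pool.Agent.Y143.KS.MIL
import Pool.Agent.Y131.KS.GS

/-!
# 2-elementary lattices of Hodge classes
-/

set_option autoImplicit false

namespace Pool.Agent.L5helper19.GS

open Pool.Agent.Y95.Q Module

variable {X : CubicFourfold} {H : H4 X} {S : Submodule ℤ (Fin 23 → ℤ)}

/-- The rank of a lattice of Hodge classes orthogonal to `h`. -/
theorem Piece.rank_lt (hS : Piece H S) (hH : H.IsCohomology) {r : ℕ} (b : Basis (Fin r) ℤ S) :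
    r + 1 ≤ H.rank := by
  let f : Option (Fin r) → (Fin 23 → ℤ) := fun o => o.elim H.h (fun i => (b i : Fin 23 → ℤ))
  have hli : LinearIndependent ℤ f := by
    rw [Fintype.linearIndependent_iff]
    intro g hg
    rw [Fintype.sum_option] at hg
    change g none • H.h + ∑ i, g (some i) • (b i : Fin 23 → ℤ) = 0 at hg
    have h0 : g none = 0 := by
      have h1 := congrArg (fun x => H.ip x H.h) hg
      simp only [H.ip_add_left, H.ip_smul_left, H.ip_zero_left, hH.h_self,
        hS.perp _ (comb_mem b fun i => g (some i))] at h1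
      omega
    rw [h0, zero_smul, zero_add] at hg
    have h2 : (fun i => g (some i)) = 0 := by
      by_contra hne
      exact comb_ne_zero b hne hg
    intro o
    cases o with
    | none => exact h0
    | some i => exact congrFun h2 i
  have hf : ∀ o, H.IsHodge (f o) := by
    intro o
    cases o with
    | none => exact hH.h_hodge
    | some i => exact hS.hodge _ (b i).2
  rw [H.rank_eq]
  let f' : Option (Fin r) → H.hodge := fun k => ⟨f k, hf k⟩
  have h1 : LinearIndependent ℤ f' := LinearIndependent.of_comp H.hodge.subtype hli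
  have h2 := h1.fintype_card_le_finrank
  rwa [Fintype.card_option, Fintype.card_fin] at h2

theorem TwoEl.nondeg (h : TwoEl H S) (hS : Piece H S) (hH : H.IsCohomology) {l : ℕ}
    (hl : l.Prime) (hl2 : 2 < l) : Nondeg H S l := by
  intro v hv hvu
  have h1 : ∀ x, (l : ℤ) ∣ H.ip v x := by
    intro x
    obtain ⟨z, hz, hzx⟩ := h x
    have h2 := hvu z hz
    rw [hzx v hv] at h2
    rcases (Nat.prime_iff_prime_int.1 hl).dvd_or_dvd h2 with h3 | h3
    · have := Int.le_of_dvd (by norm_num) h3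
      omega
    · exact h3
  obtain ⟨w, hw⟩ := exists_smul_of_dvd hH h1
  refine ⟨w, hS.sat l w (by exact_mod_cast hl.ne_zero) ?_, hw⟩
  rw [← hw]
  exact hv

/-- Values modulo three. -/
theorem Nondeg.three_rank (h : Nondeg H S 3) (hS : Piece H S) (hH : H.IsCohomology) {r : ℕ}
    (b : Basis (Fin r) ℤ S) (hr : 2 ≤ r) : ∃ v ∈ S, H.ip v v % 3 = 2 := by
  by_contra hcon
  push Not at hcon
  obtain ⟨v, hv, hv3⟩ := (h.nonzero (by norm_num) hS hH).norm (p := 3) Nat.prime_three
    (by norm_num) hH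
  have hv1 : H.ip v v % 3 = 1 := by
    have := hcon v hv
    omega
  have hmem : ∀ w ∈ S, w - H.ip w v • v ∈ S := fun w hw => S.sub_mem hw (S.smul_mem _ hv)
  have h5 : ∀ w ∈ S, ∃ z ∈ S, w - H.ip w v • v = (3 : ℤ) • z := fun w hw =>
    h _ (hmem w hw) (orth_three hH hcon hv hv1 w hw)
  have hvv : H.ip v v ≠ 0 := by omega
  -- the component orthogonal to `v` vanishes
  have h6 : ∀ w ∈ S, H.ip v v • w - H.ip w v • v = 0 := by
    by_contra hne
    push Not at hne
    obtain ⟨w0, hw0, hw0'⟩ := hne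
    obtain ⟨y, ⟨w, hw, hy, hy0⟩, hmin⟩ := exists_min hH
      (P := fun y => ∃ w ∈ S, y = H.ip v v • w - H.ip w v • v ∧ y ≠ 0)
      (fun y ⟨w, hw, hy, _⟩ => by
        rw [hy]
        exact hS.hodge _ (S.sub_mem (S.smul_mem _ hw) (S.smul_mem _ hv)))
      ⟨_, w0, hw0, rfl, hw0'⟩
    obtain ⟨z, hz, hwz⟩ := h5 w hw
    have hw' : w = H.ip w v • v + (3 : ℤ) • z := by rw [← hwz]; abel
    have h7 : y = (3 : ℤ) • (H.ip v v • z - H.ip z v • v) := by
      rw [hy]
      have h8 : H.ip w v = H.ip w v * H.ip v v + 3 * H.ip z v := by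
        nth_rewrite 1 [hw']
        rw [H.ip_add_left, H.ip_smul_left, H.ip_smul_left]
      nth_rewrite 1 [hw']
      nth_rewrite 2 [h8]
      ext i
      simp only [Pi.add_apply, Pi.sub_apply, Pi.smul_apply, smul_eq_mul]
      ring
    have h8 : H.ip v v • z - H.ip z v • v ≠ 0 := by
      intro h0
      rw [h0, smul_zero] at h7
      exact hy0 h7
    have h9 := hmin _ ⟨z, hz, rfl, h8⟩
    have h10 := hS.pos hH (S.sub_mem (S.smul_mem _ hz) (S.smul_mem _ hv)) h8
    rw [h7, ip_smul_smul] at h9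
    omega
  -- two vectors of the basis
  have e0 := h6 _ (b ⟨0, by omega⟩).2
  have e1 := h6 _ (b ⟨1, by omega⟩).2
  set b0 := b ⟨0, by omega⟩ with hb0
  set b1 := b ⟨1, by omega⟩ with hb1
  have e2 : (H.ip (b1 : Fin 23 → ℤ) v * H.ip v v) • (b0 : Fin 23 → ℤ) -
      (H.ip (b0 : Fin 23 → ℤ) v * H.ip v v) • (b1 : Fin 23 → ℤ) = 0 := by
    have e3 : (H.ip (b1 : Fin 23 → ℤ) v * H.ip v v) • (b0 : Fin 23 → ℤ) -
        (H.ip (b0 : Fin 23 → ℤ) v * H.ip v v) • (b1 : Fin 23 → ℤ) =
        H.ip (b1 : Fin 23 → ℤ) v • (H.ip v v • (b0 : Fin 23 → ℤ) - H.ip (b0 : Fin 23 → ℤ) v • v) -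
        H.ip (b0 : Fin 23 → ℤ) v • (H.ip v v • (b1 : Fin 23 → ℤ) - H.ip (b1 : Fin 23 → ℤ) v • v) := by
      ext i
      simp only [Pi.sub_apply, Pi.smul_apply, smul_eq_mul]
      ring
    rw [e3, e0, e1, smul_zero, smul_zero, sub_zero]
  have e4 : (H.ip (b1 : Fin 23 → ℤ) v * H.ip v v) • b0 -
      (H.ip (b0 : Fin 23 → ℤ) v * H.ip v v) • b1 = 0 := by
    apply Subtype.ext
    rw [ZeroMemClass.coe_zero]
    simpa only [Submodule.coe_sub, Submodule.coe_smul] using e2
  have e5 := congrArg (fun x => b.repr x ⟨0, by omega⟩) e4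
  simp only [hb0, hb1, map_sub, map_smul, Basis.repr_self, Finsupp.coe_sub, Finsupp.coe_smul,
    Pi.sub_apply, Pi.smul_apply, Finsupp.single_apply, smul_eq_mul, map_zero, Finsupp.coe_zero,
    Pi.zero_apply, Fin.mk.injEq, if_true, mul_one] at e5
  norm_num at e5
  rcases e5 with e5 | e5
  · rw [← hb1] at e5
    rw [e5, zero_smul, sub_zero] at e1
    rcases smul_eq_zero.1 e1 with e6 | e6
    · exact hvv e6
    · exact b.ne_zero ⟨1, by omega⟩ (Subtype.ext e6)
  · exact hvv e5

/-- A 2-elementary lattice with all values divisible by four has rank divisible by eight. -/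
theorem TwoEl.eight_dvd (h : TwoEl H S) (hS : Piece H S) (hH : H.IsCohomology) {r : ℕ}
    (b : Basis (Fin r) ℤ S) (h4 : ∀ v ∈ S, 4 ∣ H.ip v v) : 8 ∣ r := by
  classical
  obtain ⟨N, hN⟩ := h.exists_inverse hS hH b
  have h2 : ∀ u ∈ S, ∀ v ∈ S, 2 ∣ H.ip u v := by
    intro u hu v hv
    have h1 := h4 u hu
    have h2 := h4 v hv
    have h3 := h4 (u + v) (S.add_mem hu hv)
    rw [ip_add_self hH] at h3
    omega
  have hex : ∀ i j, ∃ c, H.ip (b i : Fin 23 → ℤ) (b j) = 2 * c := fun i j =>
    h2 _ (b i).2 _ (b j).2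
  choose G hG using hex
  have hgram : gram H (fun i => (b i : Fin 23 → ℤ)) = (2 : ℤ) • (Matrix.of G) := by
    ext i j
    exact hG i j
  have hinv : (Matrix.of G) * N = 1 := by
    rw [hgram, Matrix.smul_mul] at hN
    ext i j
    have h5 := congrFun (congrFun hN i) j
    rw [Matrix.smul_apply, Matrix.smul_apply, smul_eq_mul, smul_eq_mul] at h5
    exact mul_left_cancel₀ two_ne_zero h5
  have hdet : |(Matrix.of G).det| = 1 := by
    have h5 := congrArg Matrix.det hinv
    rw [Matrix.det_mul, Matrix.det_one] at h5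
    exact Int.isUnit_iff_abs_eq.1 (IsUnit.of_mul_eq_one _ h5)
  have hsymm : (Matrix.of G).IsSymm := by
    ext i j
    rw [Matrix.transpose_apply, Matrix.of_apply, Matrix.of_apply]
    have h5 := hG j i
    rw [hH.comm, hG i j] at h5
    exact (mul_left_cancel₀ two_ne_zero h5).symm
  have heven : ∀ i, Even ((Matrix.of G) i i) := by
    intro i
    rw [Matrix.of_apply]
    have h5 := h4 _ (b i).2
    rw [hG i i] at h5
    obtain ⟨c, hc⟩ := h5
    exact ⟨c, by omega⟩
  have hdet0 : (Matrix.of G).det ≠ 0 := by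
    intro h0
    rw [h0] at hdet
    norm_num at hdet
  obtain ⟨P, a, hP, ha, hPa, -⟩ := Pool.Agent.Y217.KS.diag r (Matrix.of G) hsymm heven hdet0
  have hmil := Pool.Agent.Y143.KS.mil Pool.Agent.Y131.KS.gs r (Matrix.of G) P a hsymm heven hdet hP
    ha hPa
  have hpos : ∀ i, 0 < a i := by
    intro i
    have h5 := congrFun (congrFun hPa i) i
    rw [Matrix.diagonal_apply_eq] at h5
    have h6 : H.ip (∑ k, P k i • (b k : Fin 23 → ℤ)) (∑ k, P k i • (b k : Fin 23 → ℤ)) =
        2 * (2 * a i) := by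
      rw [← h5, Matrix.mul_apply, H.ip_sum_right, Finset.mul_sum]
      refine Finset.sum_congr rfl fun j _ => ?_
      rw [H.ip_smul_right, H.ip_sum_left, Matrix.mul_apply, Finset.sum_mul, Finset.mul_sum,
        Finset.mul_sum]
      refine Finset.sum_congr rfl fun k _ => ?_
      rw [H.ip_smul_left, hG, Matrix.transpose_apply, Matrix.of_apply]
      ring
    have h7 := hS.nonneg hH (comb_mem b fun k => P k i)
    rw [h6] at h7
    have h8 := ha i
    omega
  have hsum : ∑ i, (a i).sign = (r : ℤ) := by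
    rw [Finset.sum_congr rfl fun i _ => Int.sign_eq_one_of_pos (hpos i)]
    simp
  rw [hsum] at hmil
  exact_mod_cast hmil

/-- A saturated lattice with even pairings has rank at most eleven. -/
theorem Piece.rank_le (hS : Piece H S) (hH : H.IsCohomology) {r : ℕ} (b : Basis (Fin r) ℤ S)
    (h2 : ∀ u ∈ S, ∀ v ∈ S, 2 ∣ H.ip u v) : 2 * r ≤ 23 := by
  classical
  let Bm : Matrix (Fin 23) (Fin 23) (ZMod 2) := H.B.map (Int.castRingHom (ZMod 2))
  have hBdet : Bm.det ≠ 0 := by
    have h1 : Bm.det = (Int.castRingHom (ZMod 2)) H.B.det := by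
      rw [RingHom.map_det]
      rfl
    rw [h1]
    exact (hH.unimodular.map _).ne_zero
  have hnd := LinearMap.BilinForm.nondegenerate_toBilin'_of_det_ne_zero' Bm hBdet
  have hli : LinearIndependent (ZMod 2) fun i => H4.red (b i : Fin 23 → ℤ) := by
    rw [Fintype.linearIndependent_iff]
    intro c hc i
    let x : S := ∑ i, ((c i).val : ℤ) • b i
    have h1 : H4.red (x : Fin 23 → ℤ) = 0 := by
      rw [← hc]
      simp only [x, Submodule.coe_sum, Submodule.coe_smul, map_sum]
      refine Finset.sum_congr rfl fun i _ => ?_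
      rw [H4.red_smul]
      congr 1
      simp
    obtain ⟨w, hw⟩ := H4.exists_half h1
    have hwS : w ∈ S := hS.sat 2 w two_ne_zero (by rw [← hw]; exact x.2)
    let w' : S := ⟨w, hwS⟩
    have h2 : x = (2 : ℤ) • w' := Subtype.ext hw
    have h3 : b.repr x i = ((c i).val : ℤ) := by
      simp only [x, map_sum, map_smul, Finsupp.coe_finsetSum, Finset.sum_apply,
        Finsupp.smul_apply, Basis.repr_self, smul_eq_mul, Finsupp.single_apply]
      rw [Finset.sum_eq_single i]
      · simp
      · intro j _ hj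
        simp [hj]
      · simp
    have h4 : b.repr x i = 2 * b.repr w' i := by
      rw [h2, map_smul, Finsupp.smul_apply, smul_eq_mul]
    have h5 : ((c i).val : ℤ) = 2 * b.repr w' i := h3.symm.trans h4
    have h6 : (((c i).val : ℤ) : ZMod 2) = c i := by simp
    rw [← h6, h5]
    push_cast
    have : (2 : ZMod 2) = 0 := by decide
    rw [this, zero_mul]
  have hW := finrank_span_eq_card hli
  rw [Fintype.card_fin] at hW
  have hle : Submodule.span (ZMod 2) (Set.range fun i => H4.red (b i : Fin 23 → ℤ)) ≤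
      (Matrix.toBilin' Bm).orthogonal
        (Submodule.span (ZMod 2) (Set.range fun i => H4.red (b i : Fin 23 → ℤ))) := by
    have hpair : ∀ i j, Matrix.toBilin' Bm (H4.red (b i : Fin 23 → ℤ))
        (H4.red (b j : Fin 23 → ℤ)) = 0 := by
      intro i j
      have h1 : ((H.ip (b i : Fin 23 → ℤ) (b j) : ℤ) : ZMod 2) = 0 := by
        rw [ZMod.intCast_zmod_eq_zero_iff_dvd]
        exact h2 _ (b i).2 _ (b j).2
      rw [Matrix.toBilin'_apply, ← h1]
      simp only [H4.ip, Int.cast_sum, Int.cast_mul]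
      rfl
    rw [Submodule.span_le]
    rintro _ ⟨j, rfl⟩
    rw [SetLike.mem_coe, LinearMap.BilinForm.mem_orthogonal_iff]
    intro n hn
    induction hn using Submodule.span_induction with
    | mem x hx =>
      obtain ⟨i, rfl⟩ := hx
      exact hpair i j
    | zero => rw [map_zero, LinearMap.zero_apply]
    | add x y _ _ hx hy => rw [map_add, LinearMap.add_apply, hx, hy, add_zero]
    | smul a x _ hx => rw [map_smul, LinearMap.smul_apply, hx, smul_zero]
  have h3 := Submodule.finrank_mono hle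
  rw [LinearMap.BilinForm.finrank_orthogonal hnd, hW, Module.finrank_fin_fun] at h3
  omega

end Pool.Agent.L5helper19.GS
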