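import Pool.Agent.L5helper19.GS.Inv2

/-!
# Symplectic involutions
-/

set_option autoImplicit false

namespace Pool.Agent.L5helper19.GS

open Pool.Agent.Y95.Q Module

variable {X : CubicFourfold} {H : H4 X} {σ τ : Module.End ℤ (Fin 23 → ℤ)}

/-- The lattice where `σ` is `-1`. -/
noncomputable def neg (σ : Module.End ℤ (Fin 23 → ℤ)) : Submodule ℤ (Fin 23 → ℤ) :=
  LinearMap.ker (1 + σ)

theorem mem_neg {v : Fin 23 → ℤ} : v ∈ neg σ ↔ σ v = -v := by
  unfold neg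
  rw [LinearMap.mem_ker, LinearMap.add_apply, Module.End.one_apply, add_comm,
    add_eq_zero_iff_eq_neg]

/-- The basic properties of symplectic involutions. -/
theorem sq_apply (h2 : σ ^ 2 = 1) (x : Fin 23 → ℤ) : σ (σ x) = x := by
  have := congrArg (fun f => f x) h2
  simpa only [pow_two, Module.End.mul_apply, Module.End.one_apply] using this

theorem IsSymplectic.neg_hodge (hσ : IsSymplectic H σ) {v : Fin 23 → ℤ} (hv : v ∈ neg σ) :
    H.IsHodge v := by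
  rw [mem_neg] at hv
  rw [isHodge_iff]
  have h1 := hσ.per_eq v
  rw [hv, map_neg] at h1
  have h2 : (2 : ℂ) * per H v = 0 := by linear_combination -h1
  exact (mul_eq_zero.1 h2).resolve_left two_ne_zero

theorem IsSymplectic.neg_perp (hσ : IsSymplectic H σ) {v : Fin 23 → ℤ} (hv : v ∈ neg σ) :
    H.ip v H.h = 0 := by
  rw [mem_neg] at hv
  have h1 := hσ.isometry v H.h
  rw [hv, hσ.map_h, H.ip_neg_left] at h1
  omega

theorem neg_sat (n : ℤ) (v : Fin 23 → ℤ) (hn : n ≠ 0) (hv : n • v ∈ neg σ) : v ∈ neg σ := by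
  unfold neg at hv ⊢
  rw [LinearMap.mem_ker] at hv ⊢
  rw [map_smul] at hv
  exact (smul_eq_zero.1 hv).resolve_left hn

theorem sub_mem_neg (h2 : σ ^ 2 = 1) (x : Fin 23 → ℤ) : x - σ x ∈ neg σ := by
  rw [mem_neg, map_sub, sq_apply h2, neg_sub]

/-- The pairing with `x - σ x`. -/
theorem IsSymplectic.ip_sub (hσ : IsSymplectic H σ) (h2 : σ ^ 2 = 1) (v x : Fin 23 → ℤ) :
    H.ip v (x - σ x) = H.ip (v - σ v) x := by
  have h1 : H.ip v (σ x) = H.ip (σ v) x := by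
    rw [← hσ.isometry (σ v) x, sq_apply h2]
  rw [H.ip_sub_right, H.ip_sub_left, h1]

theorem IsSymplectic.ip_sub_neg (hσ : IsSymplectic H σ) (h2 : σ ^ 2 = 1) {v : Fin 23 → ℤ}
    (hv : v ∈ neg σ) (x : Fin 23 → ℤ) : H.ip v (x - σ x) = 2 * H.ip v x := by
  rw [hσ.ip_sub h2, mem_neg.1 hv, sub_neg_eq_add, H.ip_add_left]
  ring

theorem IsSymplectic.piece (hσ : IsSymplectic H σ) (h1 : σ ≠ 1) (h2 : σ ^ 2 = 1) :
    Piece H (neg σ) where
  hodge v hv := hσ.neg_hodge hv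
  perp v hv := hσ.neg_perp hv
  sat := neg_sat
  ne_zero := by
    obtain ⟨x, hx⟩ : ∃ x, σ x ≠ x := by
      by_contra hcon
      push Not at hcon
      exact h1 (LinearMap.ext hcon)
    exact ⟨x - σ x, sub_mem_neg h2 x, fun h => hx (sub_eq_zero.1 h).symm⟩

theorem IsSymplectic.twoEl (hσ : IsSymplectic H σ) (h2 : σ ^ 2 = 1) : TwoEl H (neg σ) :=
  fun x => ⟨x - σ x, sub_mem_neg h2 x, fun _ hv => hσ.ip_sub_neg h2 hv x⟩

/-- The criterion. -/
theorem involution_main (hH : H.IsCohomology) (hσ : IsSymplectic H σ) (h1 : σ ≠ 1)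
    (h2 : σ ^ 2 = 1) : 5 ≤ H.rank ∧ ((∃ v, H.IsHodge v ∧ ¬ 4 ∣ H.disc v) → Congruences H) := by
  have hS := hσ.piece h1 h2
  have hT := hσ.twoEl h2
  let b := Module.finBasis ℤ (neg σ)
  have h4 := hT.four_le hS hH b
  have h5 := hS.rank_lt hH b
  refine ⟨by omega, fun hv => ⟨hv, ?_, fun l hl hl2 hl3 => ?_⟩⟩
  · obtain ⟨v, hv, hv3⟩ := (hT.nondeg hS hH Nat.prime_three (by norm_num)).three_rank hS hH b
      (by omega)
    exact ⟨v, hS.hodge v hv, Or.inr hv3⟩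
  · obtain ⟨v, hv, hvl⟩ := ((hT.nondeg hS hH hl hl2).nonzero
      (by exact_mod_cast hl.two_le) hS hH).norm hl hl2 hH
    refine ⟨v, hS.hodge v hv, fun hd => ?_⟩
    rw [hS.disc_eq hH hv] at hd
    rcases (Nat.prime_iff_prime_int.1 hl).dvd_or_dvd hd with h5 | h5
    · have h6 : l ∣ 3 := by exact_mod_cast h5
      have h7 := (Nat.prime_dvd_prime_iff_eq hl Nat.prime_three).1 h6
      omega
    · exact hvl h5

/-- All squares of the Hodge classes orthogonal to `h` are divisible by four. -/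
def Four (H : H4 X) : Prop := ∀ v, H.IsHodge v → H.ip v H.h = 0 → 4 ∣ H.ip v v

theorem Four.even (h : Four H) (hH : H.IsCohomology) {u v : Fin 23 → ℤ} (hu : H.IsHodge u)
    (hu0 : H.ip u H.h = 0) (hv : H.IsHodge v) (hv0 : H.ip v H.h = 0) : 2 ∣ H.ip u v := by
  have h1 := h u hu hu0
  have h2 := h v hv hv0
  have h3 := h (u + v) (H.isHodge_add hu hv) (by rw [H.ip_add_left, hu0, hv0, add_zero])
  rw [ip_add_self hH] at h3
  omega

/-- The lattice where both involutions are `-1`. -/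
theorem two_neg (hH : H.IsCohomology) (h4 : Four H) (hσ : IsSymplectic H σ) (h2 : σ ^ 2 = 1)
    (hτ : IsSymplectic H τ) (h2' : τ ^ 2 = 1) (hc : ∀ x, σ (τ x) = τ (σ x))
    (hne : ∃ v ∈ neg σ ⊓ neg τ, v ≠ 0) : Piece H (neg σ ⊓ neg τ) ∧ TwoEl H (neg σ ⊓ neg τ) := by
  have hP : Piece H (neg σ ⊓ neg τ) :=
    { hodge := fun v hv => hσ.neg_hodge hv.1
      perp := fun v hv => hσ.neg_perp hv.1
      sat := fun n v hn hv => ⟨neg_sat n v hn hv.1, neg_sat n v hn hv.2⟩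
      ne_zero := hne }
  refine ⟨hP, fun x => ?_⟩
  have h5 : ∀ y, (2 : ℤ) ∣ H.ip ((x - τ x) - σ (x - τ x)) y := by
    intro y
    rw [← hσ.ip_sub h2]
    exact h4.even hH (hτ.neg_hodge (sub_mem_neg h2' x)) (hτ.neg_perp (sub_mem_neg h2' x))
      (hσ.neg_hodge (sub_mem_neg h2 y)) (hσ.neg_perp (sub_mem_neg h2 y))
  obtain ⟨z, hz⟩ := exists_smul_of_dvd hH h5
  have hzm : z ∈ neg σ ⊓ neg τ := by
    refine hP.sat 2 z two_ne_zero ?_
    rw [← hz]
    refine ⟨sub_mem_neg h2 _, ?_⟩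
    rw [SetLike.mem_coe, mem_neg]
    have h6 : τ (x - τ x) = -(x - τ x) := mem_neg.1 (sub_mem_neg h2' x)
    rw [map_sub, ← hc, h6, map_neg]
    abel
  refine ⟨z, hzm, fun v hv => ?_⟩
  have h7 : 2 * H.ip v z = 4 * H.ip v x := by
    rw [← H.ip_smul_right, ← hz, hσ.ip_sub_neg h2 hv.1, hτ.ip_sub_neg h2' hv.2]
    ring
  omega

/-- The two eigenlattices of an involution on `neg σ` are not both nonzero. -/
theorem not_both (hH : H.IsCohomology) (h4 : Four H) (hσ : IsSymplectic H σ) (h1 : σ ≠ 1)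
    (h2 : σ ^ 2 = 1) (hτ : IsSymplectic H τ) (h2' : τ ^ 2 = 1) (hc : ∀ x, σ (τ x) = τ (σ x))
    (hA : ∃ v, σ v = -v ∧ τ v = -v ∧ v ≠ 0) (hB : ∃ v, σ v = -v ∧ τ v = v ∧ v ≠ 0) : False := by
  obtain ⟨hP, hT⟩ := two_neg hH h4 hσ h2 hτ h2' hc (by
    obtain ⟨v, hv1, hv2, hv0⟩ := hA
    exact ⟨v, ⟨mem_neg.2 hv1, mem_neg.2 hv2⟩, hv0⟩)
  have hρ := hσ.mul hτ
  have hρ2 : (σ * τ) ^ 2 = 1 := by
    refine LinearMap.ext fun x => ?_
    rw [pow_two, Module.End.mul_apply, Module.End.mul_apply, Module.End.mul_apply, ← hc,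
      sq_apply h2', sq_apply h2, Module.End.one_apply]
  obtain ⟨hP', hT'⟩ := two_neg hH h4 hσ h2 hρ hρ2 (fun x => by
    rw [Module.End.mul_apply, Module.End.mul_apply, hc]) (by
    obtain ⟨v, hv1, hv2, hv0⟩ := hB
    refine ⟨v, ⟨mem_neg.2 hv1, mem_neg.2 ?_⟩, hv0⟩
    rw [Module.End.mul_apply, hv2, hv1])
  have hS := hσ.piece h1 h2
  let a := Module.finBasis ℤ (neg σ ⊓ neg τ : Submodule ℤ (Fin 23 → ℤ))
  let b := Module.finBasis ℤ (neg σ ⊓ neg (σ * τ) : Submodule ℤ (Fin 23 → ℤ))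
  let c := Module.finBasis ℤ (neg σ)
  have ha4 := hT.four_le hP hH a
  have hb4 := hT'.four_le hP' hH b
  have ha8 := hT.eight_dvd hP hH a fun v hv => h4 v (hP.hodge v hv) (hP.perp v hv)
  have hb8 := hT'.eight_dvd hP' hH b fun v hv => h4 v (hP'.hodge v hv) (hP'.perp v hv)
  have hc11 := hS.rank_le hH c fun u hu v hv =>
    h4.even hH (hS.hodge u hu) (hS.perp u hu) (hS.hodge v hv) (hS.perp v hv)
  -- the sum of the two lattices
  let f : (Fin (finrank ℤ (neg σ ⊓ neg τ : Submodule ℤ (Fin 23 → ℤ))) ⊕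
      Fin (finrank ℤ (neg σ ⊓ neg (σ * τ) : Submodule ℤ (Fin 23 → ℤ)))) → neg σ :=
    Sum.elim (fun i => ⟨(a i : Fin 23 → ℤ), (a i).2.1⟩) (fun i => ⟨(b i : Fin 23 → ℤ), (b i).2.1⟩)
  have hf : LinearIndependent ℤ f := by
    rw [Fintype.linearIndependent_iff]
    intro g hg
    rw [Fintype.sum_sum_type] at hg
    have hg' : ∑ i, g (Sum.inl i) • (a i : Fin 23 → ℤ) + ∑ i, g (Sum.inr i) • (b i : Fin 23 → ℤ) = 0 := by
      have := congrArg Subtype.val hg
      simpa only [f, Sum.elim_inl, Sum.elim_inr, Submodule.coe_add, Submodule.coe_sum,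
        Submodule.coe_smul, ZeroMemClass.coe_zero] using this
    have hx := comb_mem a fun i => g (Sum.inl i)
    have hy := comb_mem b fun i => g (Sum.inr i)
    -- orthogonality
    have hxy : H.ip (∑ i, g (Sum.inl i) • (a i : Fin 23 → ℤ))
        (∑ i, g (Sum.inr i) • (b i : Fin 23 → ℤ)) = 0 := by
      generalize ∑ i, g (Sum.inl i) • (a i : Fin 23 → ℤ) = x at *
      generalize ∑ i, g (Sum.inr i) • (b i : Fin 23 → ℤ) = y at *
      have e1 : τ x = -x := mem_neg.1 hx.2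
      have e2 : τ y = y := by
        have e3 : σ (τ y) = -y := mem_neg.1 hy.2
        have e4 : σ y = -y := mem_neg.1 hy.1
        rw [← sq_apply h2 (τ y), e3, map_neg, e4, neg_neg]
      have e3 := hτ.isometry x y
      rw [e1, e2, H.ip_neg_left] at e3
      omega
    have hx0 : ∑ i, g (Sum.inl i) • (a i : Fin 23 → ℤ) = 0 := by
      by_contra hne
      have e1 := hP.pos hH hx hne
      have e2 : ∑ i, g (Sum.inr i) • (b i : Fin 23 → ℤ) =
          -∑ i, g (Sum.inl i) • (a i : Fin 23 → ℤ) := by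
        rw [eq_neg_iff_add_eq_zero, add_comm]
        exact hg'
      rw [e2, H.ip_neg_right] at hxy
      omega
    have hy0 : ∑ i, g (Sum.inr i) • (b i : Fin 23 → ℤ) = 0 := by
      rw [hx0, zero_add] at hg'
      exact hg'
    have hga : (fun i => g (Sum.inl i)) = 0 := by
      by_contra hne
      exact comb_ne_zero a hne hx0
    have hgb : (fun i => g (Sum.inr i)) = 0 := by
      by_contra hne
      exact comb_ne_zero b hne hy0
    intro o
    cases o with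
    | inl i => exact congrFun hga i
    | inr i => exact congrFun hgb i
  have hcard := hf.fintype_card_le_finrank
  rw [Fintype.card_sum, Fintype.card_fin, Fintype.card_fin] at hcard
  omega

/-- Two commuting symplectic involutions. -/
theorem klein (hH : H.IsCohomology) (hσ : IsSymplectic H σ) (h1 : σ ≠ 1) (h2 : σ ^ 2 = 1)
    (hτ : IsSymplectic H τ) (h1' : τ ≠ 1) (h2' : τ ^ 2 = 1) (hc : ∀ x, σ (τ x) = τ (σ x))
    (hne : τ ≠ σ) : ¬ Four H := by
  intro h4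
  have hρ := hσ.mul hτ
  have hρ2 : (σ * τ) ^ 2 = 1 := by
    refine LinearMap.ext fun x => ?_
    rw [pow_two, Module.End.mul_apply, Module.End.mul_apply, Module.End.mul_apply, ← hc,
      sq_apply h2', sq_apply h2, Module.End.one_apply]
  have hρ1 : σ * τ ≠ 1 := by
    intro h
    apply hne
    refine LinearMap.ext fun x => ?_
    have h3 := LinearMap.congr_fun h x
    rw [Module.End.mul_apply, Module.End.one_apply] at h3
    rw [← sq_apply h2 (τ x), h3]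
  -- the three lattices
  have hAB : (∃ v, σ v = -v ∧ τ v = -v ∧ v ≠ 0) ∨ (∃ v, σ v = -v ∧ τ v = v ∧ v ≠ 0) := by
    obtain ⟨v, hv, hv0⟩ := (hσ.piece h1 h2).ne_zero
    rw [mem_neg] at hv
    by_cases h : v - τ v = 0
    · right
      exact ⟨v, hv, (sub_eq_zero.1 h).symm, hv0⟩
    · left
      refine ⟨v - τ v, ?_, ?_, h⟩
      · rw [map_sub, hc, hv, map_neg]
        abel
      · rw [map_sub, sq_apply h2']
        abel
  have hAC : (∃ v, σ v = -v ∧ τ v = -v ∧ v ≠ 0) ∨ (∃ v, σ v = v ∧ τ v = -v ∧ v ≠ 0) := by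
    obtain ⟨v, hv, hv0⟩ := (hτ.piece h1' h2').ne_zero
    rw [mem_neg] at hv
    by_cases h : v - σ v = 0
    · right
      exact ⟨v, (sub_eq_zero.1 h).symm, hv, hv0⟩
    · left
      refine ⟨v - σ v, ?_, ?_, h⟩
      · rw [map_sub, sq_apply h2]
        abel
      · rw [map_sub, ← hc, hv, map_neg]
        abel
  have hBC : (∃ v, σ v = -v ∧ τ v = v ∧ v ≠ 0) ∨ (∃ v, σ v = v ∧ τ v = -v ∧ v ≠ 0) := by
    obtain ⟨v, hv, hv0⟩ := (hρ.piece hρ1 hρ2).ne_zero
    rw [mem_neg, Module.End.mul_apply] at hv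
    -- `τ v = - σ v`
    have hv' : τ v = -σ v := by rw [← sq_apply h2 (τ v), hv, map_neg]
    by_cases h : v - σ v = 0
    · right
      have h3 : σ v = v := (sub_eq_zero.1 h).symm
      exact ⟨v, h3, by rw [hv', h3], hv0⟩
    · left
      refine ⟨v - σ v, ?_, ?_, h⟩
      · rw [map_sub, sq_apply h2]
        abel
      · rw [map_sub, ← hc, hv', map_neg, sq_apply h2]
        abel
  -- two of them are not zero
  have hcomm : ∀ x, τ (σ x) = σ (τ x) := fun x => (hc x).symm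
  have nAB : (∃ v, σ v = -v ∧ τ v = -v ∧ v ≠ 0) → (∃ v, σ v = -v ∧ τ v = v ∧ v ≠ 0) → False :=
    not_both hH h4 hσ h1 h2 hτ h2' hc
  have nAC : (∃ v, σ v = -v ∧ τ v = -v ∧ v ≠ 0) → (∃ v, σ v = v ∧ τ v = -v ∧ v ≠ 0) → False := by
    rintro ⟨v, hv1, hv2, hv0⟩ ⟨w, hw1, hw2, hw0⟩
    exact not_both hH h4 hτ h1' h2' hσ h2 hcomm ⟨v, hv2, hv1, hv0⟩ ⟨w, hw2, hw1, hw0⟩
  have nBC : (∃ v, σ v = -v ∧ τ v = v ∧ v ≠ 0) → (∃ v, σ v = v ∧ τ v = -v ∧ v ≠ 0) → False := by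
    rintro ⟨v, hv1, hv2, hv0⟩ ⟨w, hw1, hw2, hw0⟩
    refine not_both hH h4 hρ hρ1 hρ2 hσ h2 (fun x => ?_) ⟨v, ?_, hv1, hv0⟩ ⟨w, ?_, hw1, hw0⟩
    · exact congrArg σ (hcomm x)
    · rw [Module.End.mul_apply, hv2, hv1]
    · rw [Module.End.mul_apply, hw2, map_neg, hw1]
  rcases hAB with hA | hB
  · rcases hBC with hB | hC
    · exact nAB hA hB
    · exact nAC hA hC
  · rcases hAC with hA | hC
    · exact nAB hA hB
    · exact nBC hB hC

end Pool.Agent.L5helper19.GS
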