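import Pool.Agent.L5helper19.GS.Inv3

/-!
# Symplectic involutions: the main theorem
-/

set_option autoImplicit false

namespace Pool.Agent.L5helper19.GS

open Pool.Agent.Y95.Q

variable {X : CubicFourfold} {H : H4 X} {σ τ : Module.End ℤ (Fin 23 → ℤ)}

theorem exists_disc (hH : H.IsCohomology) (h : ¬ Four H) :
    ∃ v, H.IsHodge v ∧ ¬ 4 ∣ H.disc v := by
  unfold Four at h
  push Not at h
  obtain ⟨v, hv, hv0, hv4⟩ := h
  refine ⟨v, hv, fun hd => hv4 ?_⟩
  unfold H4.disc at hd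
  rw [hH.comm H.h v, hv0] at hd
  omega

theorem involution_final (hH : H.IsCohomology) (hσ : IsSymplectic H σ) (h1 : σ ≠ 1)
    (h2 : σ ^ 2 = 1) :
    5 ≤ H.rank ∧ (HilbertSquare H ↔ AssociatedK3 H) ∧
    (HilbertSquare H ↔ ∃ d, d % 4 = 2 ∧ InDivisor H d) ∧
    ((∃ τ, IsSymplectic H τ ∧ τ ≠ 1 ∧ τ ≠ σ) → HilbertSquare H) := by
  obtain ⟨hr, hC⟩ := involution_main hH hσ h1 h2
  have hback : (∃ v, H.IsHodge v ∧ ¬ 4 ∣ H.disc v) → HilbertSquare H := fun h =>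
    rank_five hH hr (hC h)
  refine ⟨hr, ⟨fun h => h.associated hH, fun h => rank_five hH hr (h.congruences hH)⟩,
    ⟨?_, ?_⟩, ?_⟩
  · rintro ⟨d, ⟨a, n, h⟩, v, hv, hsat, hd⟩
    refine ⟨d, ?_, v, hv, hsat, hd⟩
    have h3 := four_not_dvd h
    obtain ⟨m, hm⟩ := disc_even hH v
    rw [hd] at hm
    omega
  · rintro ⟨d, hd, v, hv, -, hvd⟩
    exact hback ⟨v, hv, by rw [hvd]; omega⟩
  · rintro ⟨τ, hτ, h1', hne⟩
    by_cases h2' : τ ^ 2 = 1
    · by_cases h3 : (σ * τ) ^ 2 = 1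
      · refine hback (exists_disc hH (klein hH hσ h1 h2 hτ h1' h2' (fun x => ?_) hne))
        have h4 := sq_apply h3 (τ (σ x))
        rw [Module.End.mul_apply, Module.End.mul_apply, sq_apply h2', sq_apply h2] at h4
        exact h4
      · exact (symplectic_final hH (hσ.mul hτ) h3).1
    · exact (symplectic_final hH hτ h2').1

end Pool.Agent.L5helper19.GS
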