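import Pool.Agent.L5helper19.GS.Three

/-!
# Rank three: the main theorem, and all ranks
-/

set_option autoImplicit false

namespace Pool.Agent.L5helper19.GS

open Pool.Agent.Y95.Q
open NumberTheorySymbols

variable {X : CubicFourfold} {H : H4 X}

theorem bil_smul_right (n : ℤ) (a w : Fin 23 → ℤ) : bil H a (n • w) = bil H a w * n := by
  simp only [bil, H.ip_smul_right]
  ring

theorem disc_smul (n : ℤ) (w : Fin 23 → ℤ) : H.disc (n • w) = H.disc w * n ^ 2 := by
  simp only [H4.disc, H.ip_smul_left, H.ip_smul_right]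
  ring

/-- Local solutions at all primes. -/
theorem local_data (hH : H.IsCohomology) {A : Fin 23 → ℤ} {k : ℤ} (hk : 0 < k)
    (hC : Congruences H) (p : ℕ) (hp : p.Prime) : ∃ (w : Fin 23 → ℤ) (u : ℤ) (c : ℕ),
      H.IsHodge w ∧ Loc p k (bil H A w) (H.disc w) u c := by
  obtain ⟨⟨v2, hv2, h2⟩, ⟨v3, hv3, h3⟩, h5⟩ := hC
  obtain ⟨w, hw, e2, e3, e5⟩ : ∃ w, H.IsHodge w ∧
      (p = 2 → Even (H.disc w) ∧ ¬ 4 ∣ H.disc w) ∧
      (p = 3 → H.disc w % 3 = 2 ∨ H.disc w % 9 = 6) ∧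
      (p ≠ 2 → p ≠ 3 → p % 3 = 1 ∨ ¬ (p : ℤ) ∣ H.disc w) := by
    by_cases hp2 : p = 2
    · exact ⟨v2, hv2, fun _ => ⟨disc_even hH _, h2⟩, fun h => by omega, fun h => absurd hp2 h⟩
    by_cases hp3 : p = 3
    · exact ⟨v3, hv3, fun h => absurd h hp2, fun _ => disc_three hH v3 h3,
        fun _ h => absurd hp3 h⟩
    by_cases hp1 : p % 3 = 1
    · exact ⟨v2, hv2, fun h => absurd h hp2, fun h => absurd h hp3, fun _ _ => Or.inl hp1⟩
    · have hp0 : p % 3 ≠ 0 := by
        intro h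
        exact hp3 ((Nat.prime_dvd_prime_iff_eq Nat.prime_three hp).1
          (Nat.dvd_of_mod_eq_zero h)).symm
      obtain ⟨w, hw, h⟩ := h5 p hp (by
        have := hp.two_le
        omega) (by omega)
      exact ⟨w, hw, fun h => absurd h hp2, fun h => absurd h hp3, fun _ _ => Or.inr h⟩
  obtain ⟨z, u, c, hL⟩ := exists_loc hp hk.ne' (bil H A w) (H.disc w) e2 e3 e5
  refine ⟨z • w, u, c, H.isHodge_smul _ hw, ?_⟩
  rw [bil_smul_right, disc_smul]
  exact hL

/-- The square class of the Gram determinant at a prime different from three. -/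
theorem gram_odd (hH : H.IsCohomology) (hr : H.rank ≤ 3) {k : ℤ} (hk : 0 < k)
    {A vs w : Fin 23 → ℤ} (hA : H.IsHodge A) (hAd : H.disc A = 2 * k ^ 2) (hvs : H.IsHodge vs)
    (hG : 0 < gram H k A vs) (hw : H.IsHodge w) (hgw : 0 < gram H k A w) {p : ℕ} (hp : p.Prime)
    (hp3 : p ≠ 3) {a : ℕ} {R : ℤ} (ha : Odd a) (hT : 3 * gram H k A vs = (p : ℤ) ^ a * R)
    (hR : ¬ (p : ℤ) ∣ R) :
    ∃ (a' : ℕ) (R' : ℤ), Odd a' ∧ gram H k A w = (p : ℤ) ^ a' * R' ∧ ¬ (p : ℤ) ∣ R' := by
  have hpi := Nat.prime_iff_prime_int.1 hp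
  obtain ⟨γ, δ, hγ, hδ, h⟩ := square_class hH hr hk hA hAd hvs hw hG hgw
  obtain ⟨a', R', ha', hTR', hR'⟩ := odd_transfer hp (T := 3 * gram H k A vs)
    (T' := 3 * gram H k A w) hγ hδ (by positivity) (by linear_combination 3 * h) ha hT hR
  have hc : IsCoprime ((p : ℤ) ^ a') 3 := by
    refine IsCoprime.pow_left (hpi.coprime_iff_not_dvd.2 fun h1 => ?_)
    have h2 : p ∣ 3 := by exact_mod_cast h1
    exact hp3 ((Nat.prime_dvd_prime_iff_eq hp Nat.prime_three).1 h2)
  obtain ⟨R'', hR''⟩ : (p : ℤ) ^ a' ∣ gram H k A w := hc.dvd_of_dvd_mul_left ⟨R', hTR'⟩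
  refine ⟨a', R'', ha', hR'', fun h1 => hR' ?_⟩
  have h2 : R' = 3 * R'' := by
    rw [hR''] at hTR'
    refine mul_left_cancel₀ (pow_ne_zero a' hpi.ne_zero) ?_
    linear_combination -hTR'
  rw [h2]
  exact h1.mul_left _

/-- **Rank three.** -/
theorem rank_three (hH : H.IsCohomology) (hr : H.rank ≤ 3) {k : ℤ} (hk : 0 < k)
    {A vs : Fin 23 → ℤ} (hA : H.IsHodge A) (hAd : H.disc A = 2 * k ^ 2) (hvs : H.IsHodge vs)
    (hG : 0 < gram H k A vs) (hC : Congruences H)
    (h12 : ∀ p : ℕ, p.Prime → p % 12 = 1 → (p : ℤ) ∣ k → ∃ w, H.IsHodge w ∧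
      ¬ (p : ℤ) ∣ H.disc w) : HilbertSquare H := by
  classical
  have hloc : ∀ p : ℕ, ∃ (w : Fin 23 → ℤ) (u : ℤ) (c : ℕ), p ∈ bad k →
      H.IsHodge w ∧ Loc p k (bil H A w) (H.disc w) u c := by
    intro p
    by_cases hp : p.Prime
    · obtain ⟨w, u, c, hw⟩ := local_data hH (A := A) hk hC p hp
      exact ⟨w, u, c, fun _ => hw⟩
    · exact ⟨0, 0, 0, fun h => absurd ((mem_bad hk p).1 h).1 hp⟩
  choose w u c hw using hloc
  have hd := dd_pos hk c
  have hTpos : 0 < 3 * gram H k A vs := by positivity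
  by_cases hsq : IsSquare (3 * gram H k A vs)
  · obtain ⟨s, hs⟩ := hsq
    obtain ⟨v, x, r, hv, hg, ht, hr24, h4, -⟩ := data hH hk hA hAd hvs hG w u c hw 0
    obtain ⟨γ, δ, hγ, hδ, h⟩ := square_class hH hr hk hA hAd hvs hv hG hg
    have hs0 : s ≠ 0 := by
      rintro rfl
      rw [hs] at hTpos
      norm_num at hTpos
    obtain ⟨n, hn1, hn2⟩ := exists_prime_class (K := 24 * k)
      (T := 3 * gram H k A v * (|γ * s| * |δ|)) (by positivity)
      (by
        have := abs_pos.2 (mul_ne_zero hγ hs0)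
        have := abs_pos.2 hδ
        positivity) hr24
    refine hilbert_of_n hH hk hA hAd hv hg hd ht h4 hn1
      (hn2.of_isCoprime_of_dvd_right ⟨|γ * s| * |δ|, by ring⟩) ?_
    have h5 : IsCoprime (γ * s) (n : ℤ) := by
      have h5 : IsCoprime (n : ℤ) |γ * s| := hn2.of_isCoprime_of_dvd_right
        ⟨24 * k * (3 * gram H k A v) * |δ|, by ring⟩
      exact ((IsCoprime.abs_right_iff _ _).1 h5).symm
    have h6 : IsCoprime δ (n : ℤ) := by
      have h5 : IsCoprime (n : ℤ) |δ| := hn2.of_isCoprime_of_dvd_right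
        ⟨24 * k * (3 * gram H k A v) * |γ * s|, by ring⟩
      exact ((IsCoprime.abs_right_iff _ _).1 h5).symm
    rw [← jacobi_transfer (T := 1) h5 h6 (by linear_combination 3 * h - γ ^ 2 * hs),
      jacobiSym.one_left]
  have hcast : ((3 * gram H k A vs).toNat : ℤ) = 3 * gram H k A vs := Int.toNat_of_nonneg hTpos.le
  obtain ⟨l, a, R, hl, ha, hTR, hR⟩ := exists_odd_factor (F := (3 * gram H k A vs).toNat) (by
    rintro ⟨b, hb⟩
    apply hsq
    refine ⟨b, ?_⟩
    rw [hb] at hcast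
    rw [← hcast]
    push_cast
    ring) (by omega)
  have hT : 3 * gram H k A vs = (l : ℤ) ^ a * R := by
    rw [hTR] at hcast
    rw [← hcast]
    push_cast
    ring
  have hRZ : ¬ (l : ℤ) ∣ (R : ℤ) := by
    intro h
    exact hR (by exact_mod_cast h)
  have hli := Nat.prime_iff_prime_int.1 hl
  by_cases hlb : l ∈ bad k
  swap
  · -- a free prime
    have hl24 : ¬ (l : ℤ) ∣ 24 * k := by
      intro h
      exact hlb ((mem_bad hk l).2 ⟨hl, hli.dvd_of_dvd_pow (n := 3) (h.trans ⟨9 * k ^ 2, by ring⟩)⟩)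
    obtain ⟨v, x, r, hv, hg, ht, hr24, h4, -⟩ := data hH hk hA hAd hvs hG w u c hw 0
    obtain ⟨γ, δ, hγ, hδ, h⟩ := square_class hH hr hk hA hAd hvs hv hG hg
    obtain ⟨a', R', ha', hTR', hR'⟩ := odd_transfer hl (T := 3 * gram H k A vs)
      (T' := 3 * gram H k A v) hγ hδ (by positivity) (by linear_combination 3 * h) ha hT hRZ
    obtain ⟨n, hn1, hn2, hn3⟩ := exists_n_free (K := 24 * k) (T := 3 * gram H k A v)
      (by positivity) (by positivity) ⟨6 * k, by ring⟩ hr24 hl hl24 ha' hTR' hR'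
    exact hilbert_of_n hH hk hA hAd hv hg hd ht h4 hn1 hn2 hn3
  by_cases h43 : l % 4 = 3
  · -- the sign
    obtain ⟨τ, hτ⟩ := (hw l hlb).2.dvd
    refine pair_step hH hr hk hA hAd hvs hG w u c hw hlb ha hT hRZ
      (wb := -w l) (ub := -u l) (H.isHodge_neg (hw l hlb).1) ?_ hτ (τb := -τ) ?_
      (Or.inr ⟨by omega, jacobi_neg_flip hl h43 τ⟩)
    · have hL := (hw l hlb).2
      have e1 : bil H A (-w l) - k * (-u l) = -(bil H A (w l) - k * u l) := by
        simp only [bil, H.ip_neg_right]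
        ring
      have e2 : H.disc (-w l) = H.disc (w l) := by
        simp only [H4.disc, H.ip_neg_right, H.ip_neg_left]
        ring
      refine ⟨?_, ?_, ?_⟩
      · rw [e1]
        exact dvd_neg.2 hL.dvd
      · rw [e1]
        intro h
        exact hL.exact (dvd_neg.1 h)
      · rw [e2, neg_sq]
        exact hL.quad
    · have e1 : bil H A (-w l) - k * (-u l) = -(bil H A (w l) - k * u l) := by
        simp only [bil, H.ip_neg_right]
        ring
      rw [e1, hτ]
      ring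
  -- the update of the local data at `l`
  have hfin : ∀ (w' : Fin 23 → ℤ) (κ : ℕ) (u₁ z₁ τ₁ u₂ z₂ τ₂ : ℤ), H.IsHodge w' →
      bil H A w' * z₁ - k * u₁ = (l : ℤ) ^ κ * τ₁ →
      bil H A w' * z₂ - k * u₂ = (l : ℤ) ^ κ * τ₂ →
      Loc l k (bil H A w' * z₁) (H.disc w' * z₁ ^ 2) u₁ κ →
      Loc l k (bil H A w' * z₂) (H.disc w' * z₂ ^ 2) u₂ κ →
      ((l = 2 ∧ 8 ∣ τ₂ - τ₁ - 4) ∨ (l ≠ 2 ∧ J(τ₂ | l) = -J(τ₁ | l))) → HilbertSquare H := by
    intro w' κ u₁ z₁ τ₁ u₂ z₂ τ₂ hw' e1 e2 L1 L2 hf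
    refine pair_step hH hr hk hA hAd hvs hG (Function.update w l (z₁ • w'))
      (Function.update u l u₁) (Function.update c l κ) ?_ hlb ha hT hRZ
      (wb := z₂ • w') (ub := u₂) (H.isHodge_smul _ hw') ?_ (τa := τ₁) (τb := τ₂) ?_ ?_ hf
    · intro q hq
      by_cases hql : q = l
      · subst hql
        rw [Function.update_self, Function.update_self, Function.update_self]
        refine ⟨H.isHodge_smul _ hw', ?_⟩
        rw [bil_smul_right, disc_smul]
        exact L1
      · rw [Function.update_of_ne hql, Function.update_of_ne hql, Function.update_of_ne hql]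
        exact hw q hq
    · rw [Function.update_self, bil_smul_right, disc_smul]
      exact L2
    · rw [Function.update_self, Function.update_self, Function.update_self, bil_smul_right]
      exact e1
    · rw [Function.update_self, bil_smul_right]
      exact e2
  have hl4pos : (0 : ℤ) < 4 * l := by
    have := hl.pos
    positivity
  by_cases hl2 : l = 2
  · subst hl2
    obtain ⟨⟨w2, hw2, h4⟩, -, -⟩ := hC
    obtain ⟨y, hy, hg⟩ := perturb hH hk hA hAd hvs hG hw2 hl4pos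
    set w' : Fin 23 → ℤ := w2 + (4 * ((2 : ℕ) : ℤ)) • y with hw'
    have hw'H : H.IsHodge w' := H.isHodge_add hw2 (H.isHodge_smul _ hy)
    obtain ⟨a', R', ha', hTR', hR'⟩ := gram_odd hH hr hk hA hAd hvs hG hw'H hg hl (by norm_num)
      ha hT hRZ
    have h4' : ¬ 4 ∣ H.disc w' := by
      intro h
      apply h4
      rw [hw', disc_add_smul hH] at h
      push_cast at h
      have e1 : H.disc w2 = (H.disc w2 + 2 * (4 * 2) * bil H w2 y + (4 * 2) ^ 2 * H.disc y) -
          4 * (4 * bil H w2 y + 16 * H.disc y) := by ring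
      rw [e1]
      exact dvd_sub h (dvd_mul_right _ _)
    obtain ⟨κ, u₁, z₁, τ₁, u₂, z₂, τ₂, e1, e2, L1, L2, h8⟩ := two_flip hk.ne' (disc_even hH w')
      h4' (by
        have := hTR'
        simp only [gram] at this
        push_cast at this
        exact this) ha' (by exact_mod_cast hR')
    exact hfin w' κ u₁ z₁ τ₁ u₂ z₂ τ₂ hw'H (by push_cast; exact e1) (by push_cast; exact e2) L1 L2
      (Or.inl ⟨rfl, h8⟩)
  · -- the primes congruent to one modulo four
    have hlodd : l % 2 = 1 := Nat.odd_iff.1 (hl.odd_of_ne_two hl2)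
    have hl3 : l ≠ 3 := by omega
    have hl5 : 5 ≤ l := by
      have := hl.two_le
      omega
    have hlk : (l : ℤ) ∣ k := by
      rcases hli.dvd_or_dvd ((mem_bad hk l).1 hlb).2 with h | h
      · exfalso
        have h6 : l ∣ 6 := by exact_mod_cast h
        have := Nat.le_of_dvd (by norm_num) h6
        interval_cases l <;> omega
      · exact h
    have hl30 : l % 3 ≠ 0 := by
      intro h
      exact hl3 ((Nat.prime_dvd_prime_iff_eq Nat.prime_three hl).1
        (Nat.dvd_of_mod_eq_zero h)).symm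
    obtain ⟨w0, hw0, hlw⟩ : ∃ w, H.IsHodge w ∧ ¬ (l : ℤ) ∣ H.disc w := by
      by_cases h : l % 3 = 2
      · exact hC.2.2 l hl (by omega) h
      · exact h12 l hl (by omega) hlk
    obtain ⟨y, hy, hg⟩ := perturb hH hk hA hAd hvs hG hw0 hl4pos
    set w' : Fin 23 → ℤ := w0 + (4 * (l : ℤ)) • y with hw'
    have hw'H : H.IsHodge w' := H.isHodge_add hw0 (H.isHodge_smul _ hy)
    obtain ⟨a', R', ha', hTR', hR'⟩ := gram_odd hH hr hk hA hAd hvs hG hw'H hg hl hl3 ha hT hRZ
    have hlw' : ¬ (l : ℤ) ∣ H.disc w' := by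
      intro h
      apply hlw
      rw [hw', disc_add_smul hH] at h
      have e1 : H.disc w0 = (H.disc w0 + 2 * (4 * l) * bil H w0 y + (4 * l) ^ 2 * H.disc y) -
          l * (8 * bil H w0 y + 16 * l * H.disc y) := by ring
      rw [e1]
      exact dvd_sub h (dvd_mul_right _ _)
    obtain ⟨κ, u₁, z₁, τ₁, u₂, z₂, τ₂, e1, e2, L1, L2, hf⟩ := conic_flip hl hl5 hk.ne' hlk hlw'
      (by
        have := hTR'
        simp only [gram] at this
        exact this) ha' hR'
    exact hfin w' κ u₁ z₁ τ₁ u₂ z₂ τ₂ hw'H e1 e2 L1 L2 (Or.inr ⟨hl2, hf⟩)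

/-- A class with vanishing Gram determinant is in the rational span of `h` and `A`. -/
theorem in_span (hH : H.IsCohomology) {k : ℤ} {A : Fin 23 → ℤ} (hA : H.IsHodge A)
    (hAd : H.disc A = 2 * k ^ 2) {v : Fin 23 → ℤ} (hv : H.IsHodge v) (h5 : gram H k A v = 0) :
    ∃ a b : ℤ, (3 * H.disc A) • v = a • H.h + b • A := by
  have h1 : H.disc (H.disc A • v + (-bil H A v) • A) = 0 := by
    have h3 : H.disc (H.disc A • v + (-bil H A v) • A) =
        H.disc A * (H.disc A * H.disc v - bil H A v ^ 2) := by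
      rw [disc_add_smul hH]
      have h3 : H.disc (H.disc A • v) = H.disc A ^ 2 * H.disc v := by
        simp only [H4.disc, H.ip_smul_left, H.ip_smul_right]
        ring
      have h4 : bil H (H.disc A • v) A = H.disc A * bil H A v := by
        simp only [bil, H.ip_smul_left, H.ip_smul_right, hH.comm v A]
        ring
      rw [h3, h4]
      ring
    simp only [gram] at h5
    rw [h3, hAd, h5, mul_zero]
  set y := H.disc A • v + (-bil H A v) • A with hy
  have hyH : H.IsHodge y := H.isHodge_add (H.isHodge_smul _ hv) (H.isHodge_smul _ hA)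
  have h2 : (3 : ℤ) • y - H.ip H.h y • H.h = 0 := by
    by_contra hne
    have h3 := hH.pos _ (H.isHodge_sub (H.isHodge_smul 3 hyH)
      (H.isHodge_smul (H.ip H.h y) hH.h_hodge)) hne
    rw [← three_disc hH, h1] at h3
    norm_num at h3
  refine ⟨H.ip H.h y, 3 * bil H A v, ?_⟩
  have h5 : (3 : ℤ) • y = H.ip H.h y • H.h := sub_eq_zero.1 h2
  have h6 : (3 * H.disc A) • v = (3 : ℤ) • y + (3 * bil H A v) • A := by
    rw [hy]
    module
  rw [h6, h5]

/-- If all Gram determinants vanish then the rank is at most two. -/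
theorem rank_contra (hH : H.IsCohomology) {k : ℤ} (hk : 0 < k) {A : Fin 23 → ℤ}
    (hA : H.IsHodge A) (hAd : H.disc A = 2 * k ^ 2) (hG : ∀ v, H.IsHodge v → gram H k A v = 0)
    (hr : 3 ≤ H.rank) : False := by
  obtain ⟨f, hf, hfH⟩ := exists_independent (H := H) hr
  have hN : (3 * H.disc A : ℤ) ≠ 0 := by
    rw [hAd]
    positivity
  let S := Submodule.span ℤ (Set.range (![H.h, A] : Fin 2 → Fin 23 → ℤ))
  have hmem : ∀ i, (3 * H.disc A) • f i ∈ S := by
    intro i
    obtain ⟨a, b, hab⟩ := in_span hH hA hAd (hfH i) (hG _ (hfH i))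
    rw [hab]
    refine S.add_mem (S.smul_mem _ (Submodule.subset_span ⟨0, rfl⟩))
      (S.smul_mem _ (Submodule.subset_span ⟨1, rfl⟩))
  let g : Fin 3 → S := fun i => ⟨_, hmem i⟩
  have hg : LinearIndependent ℤ g := by
    apply LinearIndependent.of_comp S.subtype
    rw [Fintype.linearIndependent_iff]
    intro c hc i
    have h1 : ∑ i, (c i * (3 * H.disc A)) • f i = 0 := by
      rw [← hc]
      refine Finset.sum_congr rfl fun i _ => ?_
      rw [mul_smul]
      rfl
    have h2 := Fintype.linearIndependent_iff.1 hf _ h1 i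
    exact (mul_eq_zero.1 h2).resolve_right hN
  have h1 := hg.fintype_card_le_finrank
  have h2 : Module.finrank ℤ S ≤ 2 := by
    have := finrank_range_le_card (R := ℤ) (![H.h, A] : Fin 2 → Fin 23 → ℤ)
    simpa [Set.finrank] using this
  rw [Fintype.card_fin] at h1
  omega

/-- **Rank two.** If all Gram determinants vanish and `k` has no prime factor `p ≡ 1` modulo `3`,
then the congruences do not hold. -/
theorem rank_two (hH : H.IsCohomology) {k : ℤ} (hk : 0 < k) {A : Fin 23 → ℤ} (hA : H.IsHodge A)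
    (hAd : H.disc A = 2 * k ^ 2) (hG : ∀ v, H.IsHodge v → gram H k A v = 0)
    (hC : Congruences H) (h3 : ∀ p : ℕ, p.Prime → p % 3 = 1 → ¬ (p : ℤ) ∣ k) : False := by
  have hA0 : 0 < H.disc A := by
    rw [hAd]
    positivity
  obtain ⟨w, m, l, hm, hsat, hw⟩ := hH.exists_saturated A hA0
  have hwH : H.IsHodge w := by
    refine H.isHodge_of_smul hm.ne' ?_
    have h1 : m • w = A - l • H.h := by
      rw [hw]
      abel
    rw [h1]
    exact H.isHodge_sub hA (H.isHodge_smul _ hH.h_hodge)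
  have hdw : m ^ 2 * H.disc w = 2 * k ^ 2 := by
    rw [← hAd, hw, hH.disc_comb]
  -- `m` divides `k`
  obtain ⟨k0, hk0⟩ : m ∣ k := by
    obtain ⟨c, hc⟩ := disc_even hH w
    rw [← Int.pow_dvd_pow_iff two_ne_zero]
    refine ⟨c, ?_⟩
    have h1 : 2 * k ^ 2 = 2 * (m ^ 2 * c) := by
      rw [← hdw, hc]
      ring
    exact mul_left_cancel₀ two_ne_zero h1
  have hdw0 : H.disc w = 2 * k0 ^ 2 := by
    rw [hk0] at hdw
    have h1 : m ^ 2 * H.disc w = m ^ 2 * (2 * k0 ^ 2) := by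
      rw [hdw]
      ring
    exact mul_left_cancel₀ (by positivity) h1
  have hk0pos : 0 < k0 := by
    rw [hk0] at hk
    exact (mul_pos_iff_of_pos_left hm).1 hk
  have h6 := hH.six_lt hwH (by rw [hdw0]; positivity)
  have hk01 : k0 ≠ 1 := by
    rintro rfl
    rw [hdw0] at h6
    norm_num at h6
  -- all Hodge classes
  have hall : ∀ v, H.IsHodge v → ∃ b : ℤ, H.disc v = b ^ 2 * (2 * k0 ^ 2) := by
    intro v hv
    obtain ⟨a, b, hab⟩ := in_span hH hA hAd hv (hG v hv)
    have h4 : (3 * H.disc A) • v = (a + b * l) • H.h + (b * m) • w := by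
      rw [hab, hw]
      module
    obtain ⟨a', b', hv'⟩ := hsat v _ _ _ (by positivity : (3 * H.disc A) ≠ 0) h4
    refine ⟨b', ?_⟩
    rw [hv', add_comm, hH.disc_comb, hdw0]
  -- a prime factor of `k0`
  obtain ⟨p, hp, hpk⟩ := Nat.exists_prime_and_dvd (n := k0.natAbs) (by omega)
  have hpk0 : (p : ℤ) ∣ k0 := Int.natCast_dvd.2 hpk
  obtain ⟨q, hq⟩ := hpk0
  have hnot : p % 3 ≠ 1 := fun h => h3 p hp h (by
    rw [hk0, hq]
    exact ⟨m * q, by ring⟩)
  by_cases hp2 : p = 2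
  · subst hp2
    obtain ⟨⟨v, hv, h4⟩, -, -⟩ := hC
    obtain ⟨b, hb⟩ := hall v hv
    exact h4 ⟨b ^ 2 * (2 * q ^ 2), by rw [hb, hq]; push_cast; ring⟩
  by_cases hp3 : p = 3
  · subst hp3
    obtain ⟨-, ⟨v, hv, h⟩, -⟩ := hC
    obtain ⟨b, hb⟩ := hall v hv
    have h5 := disc_three hH v h
    have h7 : (9 : ℤ) ∣ H.disc v := ⟨b ^ 2 * (2 * q ^ 2), by rw [hb, hq]; push_cast; ring⟩
    omega
  · have hp0 : p % 3 ≠ 0 := by
      intro h
      exact hp3 ((Nat.prime_dvd_prime_iff_eq Nat.prime_three hp).1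
        (Nat.dvd_of_mod_eq_zero h)).symm
    obtain ⟨v, hv, h⟩ := hC.2.2 p hp (by
      have := hp.two_le
      omega) (by omega)
    obtain ⟨b, hb⟩ := hall v hv
    exact h ⟨b ^ 2 * (2 * p * q ^ 2), by rw [hb, hq]; ring⟩

/-- **All ranks.** -/
theorem twice_square (hH : H.IsCohomology) {k : ℤ} (hk : 0 < k) {A : Fin 23 → ℤ}
    (hA : H.IsHodge A) (hAd : H.disc A = 2 * k ^ 2) (hC : Congruences H)
    (h : 4 ≤ H.rank ∨ (H.rank = 3 ∧ ∀ p : ℕ, p.Prime → p % 12 = 1 → (p : ℤ) ∣ k →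
      ∃ w, H.IsHodge w ∧ ¬ (p : ℤ) ∣ H.disc w) ∨
      ∀ p : ℕ, p.Prime → p % 3 = 1 → ¬ (p : ℤ) ∣ k) : HilbertSquare H := by
  by_cases hr4 : 4 ≤ H.rank
  · exact rank_four hH hr4 hk hA hAd hC
  have hr3 : H.rank ≤ 3 := by omega
  by_cases hG : ∃ v, H.IsHodge v ∧ 0 < gram H k A v
  · obtain ⟨vs, hvs, hG⟩ := hG
    refine rank_three hH hr3 hk hA hAd hvs hG hC fun p hp h1 hpk => ?_
    rcases h with h | h | h
    · exact absurd h hr4
    · exact h.2 p hp h1 hpk
    · exact absurd hpk (h p hp (by omega))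
  · push Not at hG
    have hG0 : ∀ v, H.IsHodge v → gram H k A v = 0 := by
      intro v hv
      have h1 := gram_nonneg hH hA (by rw [hAd]; positivity) hv
      rw [hAd] at h1
      exact le_antisymm (hG v hv) h1
    rcases h with h | h | h
    · exact absurd h hr4
    · exfalso
      exact rank_contra hH hk hA hAd hG0 h.1.ge
    · exact (rank_two hH hk hA hAd hG0 hC h).elim

end Pool.Agent.L5helper19.GS
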