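import Pool.Agent.L5helper19.GS.Main3

/-!
# The divisors `C_{2 k ^ 2}`: the final form
-/

set_option autoImplicit false

namespace Pool.Agent.L5helper19.GS

open Pool.Agent.Y95.Q

variable {X : CubicFourfold} {H : H4 X}

/-- A class with nonzero Gram determinant gives rank three. -/
theorem three_le_rank (hH : H.IsCohomology) {k : ℤ} (hk : 0 < k) {A v : Fin 23 → ℤ}
    (hA : H.IsHodge A) (hAd : H.disc A = 2 * k ^ 2) (hv : H.IsHodge v)
    (hg : gram H k A v ≠ 0) : 3 ≤ H.rank := by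
  have hLI : LinearIndependent ℤ (![H.h, A, v] : Fin 3 → Fin 23 → ℤ) := by
    rw [Fintype.linearIndependent_iff]
    intro f hf
    simp only [Fin.sum_univ_three, Matrix.cons_val_zero, Matrix.cons_val_one, Matrix.cons_val]
      at hf
    have h1 : bil H (f 0 • H.h + f 1 • A + f 2 • v) v = 0 := by
      rw [hf]
      simp [bil, H.ip_zero_left, H.ip_zero_right]
    have h2 : bil H (f 0 • H.h + f 1 • A + f 2 • v) v =
        f 1 * bil H A v + f 2 * H.disc v := by
      rw [← bil_self v]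
      simp only [bil, H.ip_add_left, H.ip_add_right, H.ip_smul_left, H.ip_smul_right, hH.h_self]
      ring
    have h3 : bil H A (f 0 • H.h + f 1 • A + f 2 • v) = 0 := by
      rw [hf]
      simp [bil, H.ip_zero_right]
    have h4 : bil H A (f 0 • H.h + f 1 • A + f 2 • v) =
        f 1 * (2 * k ^ 2) + f 2 * bil H A v := by
      rw [← hAd, ← bil_self A]
      simp only [bil, H.ip_add_right, H.ip_smul_right, hH.h_self, hH.comm A H.h]
      ring
    rw [h2] at h1
    rw [h4] at h3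
    have h5 : f 2 * gram H k A v = 0 := by
      simp only [gram]
      linear_combination (2 * k ^ 2) * h1 - bil H A v * h3
    have h6 : f 2 = 0 := (mul_eq_zero.1 h5).resolve_right hg
    have h7 : f 1 = 0 := by
      rw [h6] at h3
      have h8 : f 1 * (2 * k ^ 2) = 0 := by linear_combination h3
      exact (mul_eq_zero.1 h8).resolve_right (by positivity)
    have h8 : f 0 = 0 := by
      rw [h6, h7, zero_smul, zero_smul, add_zero, add_zero] at hf
      have h8 : H.ip (f 0 • H.h) H.h = 0 := by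
        rw [hf, H.ip_zero_left]
      rw [H.ip_smul_left, hH.h_self] at h8
      omega
    intro i
    fin_cases i
    · exact h8
    · exact h7
    · exact h6
  let S := Submodule.span ℤ {v | H.IsHodge v}
  have hmem : ∀ i, (![H.h, A, v] : Fin 3 → Fin 23 → ℤ) i ∈ S := by
    intro i
    apply Submodule.subset_span
    fin_cases i
    · exact hH.h_hodge
    · exact hA
    · exact hv
  let g : Fin 3 → S := fun i => ⟨_, hmem i⟩
  have hg4 : LinearIndependent ℤ g := by
    apply LinearIndependent.of_comp S.subtype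
    exact hLI
  have h1 := hg4.fintype_card_le_finrank
  rw [Fintype.card_fin] at h1
  exact h1

/-- The structure of the Hodge classes if all Gram determinants vanish. -/
theorem two_struct (hH : H.IsCohomology) {k : ℤ} (hk : 0 < k) {A : Fin 23 → ℤ}
    (hA : H.IsHodge A) (hAd : H.disc A = 2 * k ^ 2)
    (hG : ∀ v, H.IsHodge v → gram H k A v = 0) :
    ∃ k0 : ℤ, 1 < k0 ∧ ∀ v, H.IsHodge v → ∃ b : ℤ, H.disc v = b ^ 2 * (2 * k0 ^ 2) := by
  have hA0 : 0 < H.disc A := by
    rw [hAd]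
    positivity
  obtain ⟨w, m, l, hm, hsat, hw⟩ := hH.exists_saturated A hA0
  have hwH : H.IsHodge w := by
    refine H.isHodge_of_smul hm.ne' ?_
    have h1 : m • w = A - l • H.h := by
      rw [hw]
      abel
    rw [h1]
    exact H.isHodge_sub hA (H.isHodge_smul _ hH.h_hodge)
  have hdw : m ^ 2 * H.disc w = 2 * k ^ 2 := by
    rw [← hAd, hw, hH.disc_comb]
  obtain ⟨k0, hk0⟩ : m ∣ k := by
    obtain ⟨c, hc⟩ := disc_even hH w
    rw [← Int.pow_dvd_pow_iff two_ne_zero]
    refine ⟨c, ?_⟩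
    have h1 : 2 * k ^ 2 = 2 * (m ^ 2 * c) := by
      rw [← hdw, hc]
      ring
    exact mul_left_cancel₀ two_ne_zero h1
  have hdw0 : H.disc w = 2 * k0 ^ 2 := by
    rw [hk0] at hdw
    have h1 : m ^ 2 * H.disc w = m ^ 2 * (2 * k0 ^ 2) := by
      rw [hdw]
      ring
    exact mul_left_cancel₀ (by positivity) h1
  have hk0pos : 0 < k0 := by
    rw [hk0] at hk
    exact (mul_pos_iff_of_pos_left hm).1 hk
  have h6 := hH.six_lt hwH (by rw [hdw0]; positivity)
  have hk01 : k0 ≠ 1 := by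
    rintro rfl
    rw [hdw0] at h6
    norm_num at h6
  refine ⟨k0, by omega, fun v hv => ?_⟩
  obtain ⟨a, b, hab⟩ := in_span hH hA hAd hv (hG v hv)
  have h4 : (3 * H.disc A) • v = (a + b * l) • H.h + (b * m) • w := by
    rw [hab, hw]
    module
  obtain ⟨a', b', hv'⟩ := hsat v _ _ _ (by positivity : (3 * H.disc A) ≠ 0) h4
  refine ⟨b', ?_⟩
  rw [hv', add_comm, hH.disc_comb, hdw0]

/-- The condition of Galkin and Shinder needs rank three. -/
theorem HilbertSquare.rank_three (hH : H.IsCohomology) {k : ℤ} (hk : 0 < k) {A : Fin 23 → ℤ}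
    (hA : H.IsHodge A) (hAd : H.disc A = 2 * k ^ 2) (h : HilbertSquare H) : 3 ≤ H.rank := by
  by_contra hr
  have hG : ∀ v, H.IsHodge v → gram H k A v = 0 := by
    intro v hv
    by_contra hg
    exact hr (three_le_rank hH hk hA hAd hv hg)
  obtain ⟨k0, hk0, hall⟩ := two_struct hH hk hA hAd hG
  obtain ⟨d, ⟨a, n, hd⟩, v, hv, -, rfl⟩ := h
  obtain ⟨b, hb⟩ := hall v hv
  rw [hb] at hd
  have h1 : (2 * k0 * |a * b| - |2 * n + 1|) * (2 * k0 * |a * b| + |2 * n + 1|) = 3 := by
    have e1 : (2 * k0 * |a * b| - |2 * n + 1|) * (2 * k0 * |a * b| + |2 * n + 1|) =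
        4 * k0 ^ 2 * |a * b| ^ 2 - |2 * n + 1| ^ 2 := by ring
    rw [e1, sq_abs, sq_abs]
    linear_combination 2 * hd
  have h2 := abs_nonneg (a * b)
  have h3 := abs_nonneg (2 * n + 1)
  have h4 : 0 < |a * b| := by
    rcases h2.lt_or_eq with h | h
    · exact h
    · exfalso
      rw [← h] at h1
      nlinarith
  have h5 : 4 ≤ 2 * k0 * |a * b| := by nlinarith
  have h6 : 0 < 2 * k0 * |a * b| - |2 * n + 1| := by
    by_contra hcon
    push Not at hcon
    nlinarith
  nlinarith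

/-- **The divisors `C_{2 k ^ 2}`.** -/
theorem divisors (hH : H.IsCohomology) {k : ℤ} (hk : k ≠ 0) {A : Fin 23 → ℤ}
    (hA : H.IsHodge A) (hAd : H.disc A = 2 * k ^ 2)
    (h : 4 ≤ H.rank ∨ ∀ p : ℕ, p.Prime → p % 12 = 1 → (p : ℤ) ∣ k →
      ∃ w, H.IsHodge w ∧ ¬ (p : ℤ) ∣ H.disc w) :
    (HilbertSquare H ↔ 3 ≤ H.rank ∧ AssociatedK3 H) ∧
    (HilbertSquare H ↔ 3 ≤ H.rank ∧ Congruences H) ∧
    ((∀ p : ℕ, p.Prime → (p : ℤ) ∣ k → p % 12 = 7) → (HilbertSquare H ↔ 3 ≤ H.rank)) := by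
  -- the sign of `k`
  have hk' : 0 < |k| := abs_pos.2 hk
  have hAd' : H.disc A = 2 * |k| ^ 2 := by rw [sq_abs]; exact hAd
  have hmain : 3 ≤ H.rank → Congruences H → HilbertSquare H := by
    intro hr hC
    by_cases hr4 : 4 ≤ H.rank
    · exact rank_four hH hr4 hk' hA hAd' hC
    refine twice_square hH hk' hA hAd' hC (Or.inr (Or.inl ⟨by omega, fun p hp h1 hpk => ?_⟩))
    rcases h with h | h
    · exact absurd h hr4
    · exact h p hp h1 ((dvd_abs _ _).1 hpk)
  have h1 : HilbertSquare H → 3 ≤ H.rank := fun h => h.rank_three hH hk' hA hAd'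
  have h2 : HilbertSquare H → AssociatedK3 H := fun h => h.associated hH
  have h3 : AssociatedK3 H → Congruences H := fun h => h.congruences hH
  refine ⟨⟨fun h => ⟨h1 h, h2 h⟩, fun h => hmain h.1 (h3 h.2)⟩,
    ⟨fun h => ⟨h1 h, h3 (h2 h)⟩, fun h => hmain h.1 h.2⟩, fun h7 => ⟨h1, fun hr => ?_⟩⟩
  -- the class `A` satisfies the congruences
  refine hmain hr ⟨⟨A, hA, ?_⟩, ⟨A, hA, three_disc_conv hH A ?_⟩, fun p hp hp2 hp3 =>
    ⟨A, hA, ?_⟩⟩
  · intro h4
    rw [hAd] at h4
    have h2k : ¬ (2 : ℤ) ∣ k := fun h => by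
      have := h7 2 Nat.prime_two (by exact_mod_cast h)
      omega
    obtain ⟨c, hc⟩ : ∃ c, k = 2 * c + 1 := ⟨k / 2, by omega⟩
    rw [hc] at h4
    have e1 : 2 * (2 * c + 1) ^ 2 = 4 * (2 * c ^ 2 + 2 * c) + 2 := by ring
    omega
  · left
    have h3k : ¬ (3 : ℤ) ∣ k := fun h => by
      have := h7 3 Nat.prime_three (by exact_mod_cast h)
      omega
    rw [hAd]
    have h4 : k % 3 = 1 ∨ k % 3 = 2 := by omega
    have h5 : k ^ 2 % 3 = 1 := by
      rcases h4 with h4 | h4 <;> rw [pow_two, Int.mul_emod, h4] <;> rfl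
    omega
  · intro h4
    rw [hAd] at h4
    have hpi := Nat.prime_iff_prime_int.1 hp
    rcases hpi.dvd_or_dvd h4 with h5 | h5
    · have h6 : p ∣ 2 := by exact_mod_cast h5
      have := Nat.le_of_dvd (by norm_num) h6
      omega
    · have := h7 p hp (hpi.dvd_of_dvd_pow h5)
      omega

end Pool.Agent.L5helper19.GS
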