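import Pool.Agent.L5helper19.GS.Five

/-!
# Symplectic automorphisms: lattices of Hodge classes, minimal vectors
-/

set_option autoImplicit false

namespace Pool.Agent.L5helper19.GS

open Pool.Agent.Y95.Q

variable {X : CubicFourfold} {H : H4 X}

/-- Unimodularity. -/
theorem exists_smul_of_dvd (hH : H.IsCohomology) {l : ℤ} {v : Fin 23 → ℤ}
    (h : ∀ x, l ∣ H.ip v x) : ∃ w, v = l • w := by
  have h1 : ∀ j, l ∣ Matrix.vecMul v H.B j := by
    intro j
    have h2 := h (Pi.single j 1)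
    have h3 : H.ip v (Pi.single j 1) = Matrix.vecMul v H.B j := by
      unfold H4.ip Matrix.vecMul dotProduct
      refine Finset.sum_congr rfl fun i _ => ?_
      rw [Finset.sum_eq_single j]
      · simp
      · intro k _ hk
        simp [hk]
      · simp
    rwa [h3] at h2
  choose c hc using h1
  refine ⟨Matrix.vecMul c H.B⁻¹, ?_⟩
  have h4 : Matrix.vecMul v H.B = l • c := by
    ext j
    rw [hc j]
    rfl
  rw [← Matrix.smul_vecMul, ← h4, Matrix.vecMul_vecMul, Matrix.mul_nonsing_inv _ hH.unimodular,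
    Matrix.vecMul_one]

/-- Minimal vectors. -/
theorem exists_min (hH : H.IsCohomology) {P : (Fin 23 → ℤ) → Prop}
    (hP : ∀ v, P v → H.IsHodge v) (hne : ∃ v, P v) :
    ∃ m, P m ∧ ∀ v, P v → H.ip m m ≤ H.ip v v := by
  classical
  have h1 : ∃ n : ℕ, ∃ v, P v ∧ (H.ip v v).toNat = n := by
    obtain ⟨v, hv⟩ := hne
    exact ⟨_, v, hv, rfl⟩
  obtain ⟨m, hm, hmn⟩ := Nat.find_spec h1
  refine ⟨m, hm, fun v hv => ?_⟩
  have h2 : Nat.find h1 ≤ (H.ip v v).toNat := Nat.find_min' h1 ⟨v, hv, rfl⟩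
  rw [← hmn] at h2
  have h3 := hH.nonneg (hP v hv)
  have h4 := hH.nonneg (hP m hm)
  omega

/-- A saturated group of Hodge classes orthogonal to `h` which is not zero. -/
structure Piece (H : H4 X) (S : Submodule ℤ (Fin 23 → ℤ)) : Prop where
  hodge : ∀ v ∈ S, H.IsHodge v
  perp : ∀ v ∈ S, H.ip v H.h = 0
  sat : ∀ (n : ℤ) (v : Fin 23 → ℤ), n ≠ 0 → n • v ∈ S → v ∈ S
  ne_zero : ∃ v ∈ S, v ≠ 0

/-- A minimal vector. -/
structure MinVec (H : H4 X) (S : Submodule ℤ (Fin 23 → ℤ)) (m : Fin 23 → ℤ) : Prop where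
  mem : m ∈ S
  ne_zero : m ≠ 0
  le : ∀ v ∈ S, v ≠ 0 → H.ip m m ≤ H.ip v v

namespace Piece

variable {S : Submodule ℤ (Fin 23 → ℤ)}

theorem exists_minVec (hS : Piece H S) (hH : H.IsCohomology) : ∃ m, MinVec H S m := by
  obtain ⟨m, ⟨hm, hm0⟩, hle⟩ := exists_min hH (P := fun v => v ∈ S ∧ v ≠ 0)
    (fun v hv => hS.hodge v hv.1) hS.ne_zero
  exact ⟨m, hm, hm0, fun v hv hv0 => hle v ⟨hv, hv0⟩⟩

theorem pos (hS : Piece H S) (hH : H.IsCohomology) {v : Fin 23 → ℤ} (hv : v ∈ S) (h : v ≠ 0) :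
    0 < H.ip v v := hH.pos v (hS.hodge v hv) h

theorem nonneg (hS : Piece H S) (hH : H.IsCohomology) {v : Fin 23 → ℤ} (hv : v ∈ S) :
    0 ≤ H.ip v v := hH.nonneg (hS.hodge v hv)

theorem even (hS : Piece H S) (hH : H.IsCohomology) {v : Fin 23 → ℤ} (hv : v ∈ S) :
    Even (H.ip v v) := by
  have := hH.char v
  rwa [hS.perp v hv, sub_zero] at this

theorem ne_two (hS : Piece H S) (hH : H.IsCohomology) {v : Fin 23 → ℤ} (hv : v ∈ S) :
    H.ip v v ≠ 2 := hH.disc_six v (hS.hodge v hv) (hS.perp v hv)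

theorem disc_eq (hS : Piece H S) (hH : H.IsCohomology) {v : Fin 23 → ℤ} (hv : v ∈ S) :
    H.disc v = 3 * H.ip v v := by
  unfold H4.disc
  rw [hH.comm H.h v, hS.perp v hv]
  ring

end Piece

/-- Norms of a multiple. -/
theorem ip_smul_smul (n : ℤ) (v : Fin 23 → ℤ) : H.ip (n • v) (n • v) = n ^ 2 * H.ip v v := by
  rw [H.ip_smul_left, H.ip_smul_right]
  ring

theorem ip_add_self (hH : H.IsCohomology) (v w : Fin 23 → ℤ) :
    H.ip (v + w) (v + w) = H.ip v v + 2 * H.ip v w + H.ip w w := by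
  rw [H.ip_add_left, H.ip_add_right, H.ip_add_right, hH.comm w v]
  ring

theorem ip_sub_self (hH : H.IsCohomology) (v w : Fin 23 → ℤ) :
    H.ip (v - w) (v - w) = H.ip v v - 2 * H.ip v w + H.ip w w := by
  rw [H.ip_sub_left, H.ip_sub_right, H.ip_sub_right, hH.comm w v]
  ring

/-- A minimal vector is not divisible. -/
theorem MinVec.not_smul {S : Submodule ℤ (Fin 23 → ℤ)} {m : Fin 23 → ℤ} (hm : MinVec H S m)
    (hS : Piece H S) (hH : H.IsCohomology) {l : ℤ} (hl : 2 ≤ l) (w : Fin 23 → ℤ) :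
    m ≠ l • w := by
  intro h
  have hw : w ∈ S := hS.sat l w (by omega) (by rw [← h]; exact hm.mem)
  have hw0 : w ≠ 0 := by
    rintro rfl
    exact hm.ne_zero (by rw [h, smul_zero])
  have h1 := hm.le w hw hw0
  have h2 := hS.pos hH hw hw0
  rw [h, ip_smul_smul] at h1
  have h3 : 4 ≤ l ^ 2 := by nlinarith
  nlinarith

/-- If `l ≥ 3` and `m` is minimal, `u` of the same norm, then `m ± u` is divisible by `l` only if it is
zero. -/
theorem MinVec.eq_of_smul {S : Submodule ℤ (Fin 23 → ℤ)} {m : Fin 23 → ℤ} (hm : MinVec H S m)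
    (hS : Piece H S) (hH : H.IsCohomology) {l : ℤ} (hl : 3 ≤ l) {u w : Fin 23 → ℤ} (hu : u ∈ S)
    (hn : H.ip u u = H.ip m m) (h : m - u = l • w) : m = u := by
  by_contra hne
  have hne' : m - u ≠ 0 := sub_ne_zero.2 hne
  have hw : w ∈ S := hS.sat l w (by omega) (by rw [← h]; exact S.sub_mem hm.mem hu)
  have hw0 : w ≠ 0 := by
    rintro rfl
    exact hne' (by rw [h, smul_zero])
  have h1 := hm.le w hw hw0
  have h2 := hS.pos hH hw hw0
  have h3 : H.ip (m - u) (m - u) = l ^ 2 * H.ip w w := by rw [h, ip_smul_smul]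
  have h4 : 0 ≤ H.ip (m + u) (m + u) := hS.nonneg hH (S.add_mem hm.mem hu)
  rw [ip_add_self hH] at h4
  rw [ip_sub_self hH] at h3
  have h5 : l ^ 2 ≥ 9 := by nlinarith
  nlinarith

/-- The form is not degenerate modulo `l`. -/
def Nondeg (H : H4 X) (S : Submodule ℤ (Fin 23 → ℤ)) (l : ℤ) : Prop :=
  ∀ v ∈ S, (∀ u ∈ S, l ∣ H.ip v u) → ∃ w ∈ S, v = l • w

/-- The form is not zero modulo `l`. -/
def Nonzero (H : H4 X) (S : Submodule ℤ (Fin 23 → ℤ)) (l : ℤ) : Prop :=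
  ∃ v ∈ S, ∃ u ∈ S, ¬ l ∣ H.ip v u

theorem Nondeg.nonzero {S : Submodule ℤ (Fin 23 → ℤ)} {l : ℤ} (hl : 2 ≤ l) (h : Nondeg H S l)
    (hS : Piece H S) (hH : H.IsCohomology) : Nonzero H S l := by
  by_contra hcon
  unfold Nonzero at hcon
  push Not at hcon
  obtain ⟨m, hm⟩ := hS.exists_minVec hH
  obtain ⟨w, -, hw⟩ := h m hm.mem fun u hu => hcon m hm.mem u hu
  exact hm.not_smul hS hH hl w hw

theorem Nonzero.norm {S : Submodule ℤ (Fin 23 → ℤ)} {p : ℕ} (hp : p.Prime) (hp2 : 2 < p)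
    (h : Nonzero H S p) (hH : H.IsCohomology) : ∃ v ∈ S, ¬ (p : ℤ) ∣ H.ip v v := by
  by_contra hcon
  push Not at hcon
  obtain ⟨v, hv, u, hu, huv⟩ := h
  have h1 := hcon v hv
  have h2 := hcon u hu
  have h3 := hcon (v + u) (S.add_mem hv hu)
  rw [ip_add_self hH] at h3
  have h4 : (p : ℤ) ∣ 2 * H.ip v u := by
    have : 2 * H.ip v u = (H.ip v v + 2 * H.ip v u + H.ip u u) - H.ip v v - H.ip u u := by ring
    rw [this]
    exact dvd_sub (dvd_sub h3 h1) h2
  rcases (Nat.prime_iff_prime_int.1 hp).dvd_or_dvd h4 with h5 | h5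
  · have := Int.le_of_dvd (by norm_num) h5
    omega
  · exact huv h5

theorem Nonzero.two {S : Submodule ℤ (Fin 23 → ℤ)} (h : Nonzero H S 2) (hS : Piece H S)
    (hH : H.IsCohomology) : ∃ v ∈ S, H.ip v v % 4 = 2 := by
  by_contra hcon
  push Not at hcon
  obtain ⟨v, hv, u, hu, huv⟩ := h
  have h1 := hcon v hv
  have h2 := hcon u hu
  have h3 := hcon (v + u) (S.add_mem hv hu)
  obtain ⟨a, ha⟩ := hS.even hH hv
  obtain ⟨b, hb⟩ := hS.even hH hu
  rw [ip_add_self hH] at h3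
  rw [ha] at h1 h3
  rw [hb] at h2 h3
  omega

/-- The component orthogonal to `v` modulo three. -/
theorem orth_three {S : Submodule ℤ (Fin 23 → ℤ)} (hH : H.IsCohomology)
    (hcon : ∀ v ∈ S, H.ip v v % 3 ≠ 2) {v : Fin 23 → ℤ} (hv : v ∈ S) (hv1 : H.ip v v % 3 = 1) :
    ∀ w ∈ S, ∀ u ∈ S, 3 ∣ H.ip (w - H.ip w v • v) u := by
  have h1 : ∀ w ∈ S, 3 ∣ H.ip (w - H.ip w v • v) v := by
    intro w hw
    rw [H.ip_sub_left, H.ip_smul_left]
    obtain ⟨c, hc⟩ : ∃ c, H.ip v v = 3 * c + 1 := ⟨H.ip v v / 3, by omega⟩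
    rw [hc]
    exact ⟨-(H.ip w v * c), by ring⟩
  have hmem : ∀ w ∈ S, w - H.ip w v • v ∈ S := fun w hw => S.sub_mem hw (S.smul_mem _ hv)
  have h2 : ∀ w ∈ S, 3 ∣ H.ip w v → 3 ∣ H.ip w w := by
    intro w hw hwv
    have h3 := hcon w hw
    have h4 := hcon (v + w) (S.add_mem hv hw)
    rw [ip_add_self hH, hH.comm v w] at h4
    omega
  have h3 : ∀ w ∈ S, ∀ u ∈ S, 3 ∣ H.ip w v → 3 ∣ H.ip u v → 3 ∣ H.ip w u := by
    intro w hw u hu hwv huv
    have h4 := h2 w hw hwv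
    have h5 := h2 u hu huv
    have h6 := h2 (w + u) (S.add_mem hw hu) (by rw [H.ip_add_left]; exact dvd_add hwv huv)
    rw [ip_add_self hH] at h6
    omega
  have h4 : ∀ w ∈ S, ∀ u ∈ S, 3 ∣ H.ip w v → 3 ∣ H.ip w u := by
    intro w hw u hu hwv
    have h5 := h3 w hw _ (hmem u hu) hwv (h1 u hu)
    rw [H.ip_sub_right, H.ip_smul_right] at h5
    have h6 : 3 ∣ H.ip u v * H.ip w v := hwv.mul_left _
    have h7 : H.ip w u = (H.ip w u - H.ip u v * H.ip w v) + H.ip u v * H.ip w v := by ring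
    rw [h7]
    exact dvd_add h5 h6
  exact fun w hw u hu => h4 _ (hmem w hw) u hu (h1 w hw)

/-- Values modulo three. -/
theorem Nondeg.three {S : Submodule ℤ (Fin 23 → ℤ)} (h : Nondeg H S 3) (hS : Piece H S)
    (hH : H.IsCohomology) (σ : Module.End ℤ (Fin 23 → ℤ))
    (hσ : ∀ v w, H.ip (σ v) (σ w) = H.ip v w) (hσS : ∀ v ∈ S, σ v ∈ S)
    (hfix : ∀ v ∈ S, σ v = v ∨ σ v = -v → v = 0) : ∃ v ∈ S, H.ip v v % 3 = 2 := by
  by_contra hcon
  push Not at hcon
  obtain ⟨v, hv, hv3⟩ := (h.nonzero (by norm_num) hS hH).norm (p := 3) Nat.prime_three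
    (by norm_num) hH
  have hv1 : H.ip v v % 3 = 1 := by
    have := hcon v hv
    omega
  have hmem : ∀ w ∈ S, w - H.ip w v • v ∈ S := fun w hw => S.sub_mem hw (S.smul_mem _ hv)
  have h5 : ∀ w ∈ S, ∃ z ∈ S, w - H.ip w v • v = (3 : ℤ) • z := fun w hw =>
    h _ (hmem w hw) (orth_three hH hcon hv hv1 w hw)
  obtain ⟨m, hm⟩ := hS.exists_minVec hH
  obtain ⟨z, hz, hmz⟩ := h5 m hm.mem
  obtain ⟨z', hz', hmz'⟩ := h5 (σ m) (hσS m hm.mem)
  have h6 : ¬ 3 ∣ H.ip m v := by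
    rintro ⟨c, hc⟩
    refine hm.not_smul hS hH (l := 3) (by norm_num) (z + c • v) ?_
    have : m = (3 : ℤ) • z + H.ip m v • v := by rw [← hmz]; abel
    rw [this, hc, smul_add, smul_smul]
  -- `σ m` is `± m` modulo three
  have h7 : ∃ w, m - σ m = (3 : ℤ) • w ∨ m - -σ m = (3 : ℤ) • w := by
    by_cases h8 : 3 ∣ H.ip (σ m) v
    · -- then `σ m` is divisible by `3`
      exfalso
      obtain ⟨c, hc⟩ := h8
      have h9 : σ m = (3 : ℤ) • (z' + c • v) := by
        have : σ m = (3 : ℤ) • z' + H.ip (σ m) v • v := by rw [← hmz']; abel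
        rw [this, hc, smul_add, smul_smul]
      have h10 : H.ip m m = 9 * H.ip (z' + c • v) (z' + c • v) := by
        rw [← hσ m m, h9, ip_smul_smul]
        norm_num
      have h11 : z' + c • v ≠ 0 := by
        intro h0
        rw [h0, H.ip_zero_left, mul_zero] at h10
        exact (hS.pos hH hm.mem hm.ne_zero).ne' h10
      have h12 : z' + c • v ∈ S := S.add_mem hz' (S.smul_mem _ hv)
      have h13 := hm.le _ h12 h11
      have h14 := hS.pos hH h12 h11
      omega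
    · have h9 : (3 : ℤ) ∣ H.ip m v - H.ip (σ m) v ∨ (3 : ℤ) ∣ H.ip m v + H.ip (σ m) v := by
        have ha : H.ip m v % 3 = 1 ∨ H.ip m v % 3 = 2 := by omega
        have hb : H.ip (σ m) v % 3 = 1 ∨ H.ip (σ m) v % 3 = 2 := by omega
        rcases ha with ha | ha <;> rcases hb with hb | hb
        · left; omega
        · right; omega
        · right; omega
        · left; omega
      rcases h9 with ⟨c, hc⟩ | ⟨c, hc⟩
      · refine ⟨z - z' + c • v, Or.inl ?_⟩
        have e1 : m = (3 : ℤ) • z + H.ip m v • v := by rw [← hmz]; abel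
        have e2 : σ m = (3 : ℤ) • z' + H.ip (σ m) v • v := by rw [← hmz']; abel
        have e3 : m - σ m = (3 : ℤ) • z - (3 : ℤ) • z' + (H.ip m v - H.ip (σ m) v) • v := by
          rw [sub_smul]
          nth_rewrite 1 [e1]
          nth_rewrite 1 [e2]
          abel
        rw [e3, hc, smul_add, smul_sub, smul_smul]
      · refine ⟨z + z' + c • v, Or.inr ?_⟩
        have e1 : m = (3 : ℤ) • z + H.ip m v • v := by rw [← hmz]; abel
        have e2 : σ m = (3 : ℤ) • z' + H.ip (σ m) v • v := by rw [← hmz']; abel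
        have e3 : m - -σ m = (3 : ℤ) • z + (3 : ℤ) • z' + (H.ip m v + H.ip (σ m) v) • v := by
          rw [add_smul, sub_neg_eq_add]
          nth_rewrite 1 [e1]
          nth_rewrite 1 [e2]
          abel
        rw [e3, hc, smul_add, smul_add, smul_smul]
  obtain ⟨w, h7 | h7⟩ := h7
  · have := hm.eq_of_smul hS hH (l := 3) le_rfl (hσS m hm.mem) (hσ m m) h7
    exact hm.ne_zero (hfix m hm.mem (Or.inl this.symm))
  · have h8 := hm.eq_of_smul hS hH (l := 3) le_rfl (S.neg_mem (hσS m hm.mem))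
      (by rw [H.ip_neg_left, H.ip_neg_right, neg_neg]; exact hσ m m) h7
    refine hm.ne_zero (hfix m hm.mem (Or.inr ?_))
    nth_rewrite 2 [h8]
    rw [neg_neg]

end Pool.Agent.L5helper19.GS
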