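import Pool.Agent.L5helper19.GS.Sym1

/-!
# Lattices over the Gaussian and the Eisenstein integers
-/

set_option autoImplicit false

namespace Pool.Agent.L5helper19.GS

open Pool.Agent.Y95.Q

variable {X : CubicFourfold} {H : H4 X} {S : Submodule ℤ (Fin 23 → ℤ)}
  {σ : Module.End ℤ (Fin 23 → ℤ)} {e : ℤ}

/-- `σ` acts on `S` with `σ ^ 2 + e σ + 1 = 0`. -/
structure Quad (H : H4 X) (S : Submodule ℤ (Fin 23 → ℤ)) (σ : Module.End ℤ (Fin 23 → ℤ))
    (e : ℤ) : Prop where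
  e01 : e = 0 ∨ e = 1
  iso : ∀ v w, H.ip (σ v) (σ w) = H.ip v w
  mem : ∀ v ∈ S, σ v ∈ S
  quad : ∀ v ∈ S, σ (σ v) = -(e • σ v) - v

theorem norm_form_pos (he : e = 0 ∨ e = 1) {c d : ℤ} (h : c ^ 2 - e * c * d + d ^ 2 = 0) :
    c = 0 ∧ d = 0 := by
  rcases he with rfl | rfl
  · have h1 : c ^ 2 = 0 := by nlinarith [sq_nonneg c, sq_nonneg d]
    have h2 : d ^ 2 = 0 := by nlinarith [sq_nonneg c, sq_nonneg d]
    exact ⟨pow_eq_zero_iff two_ne_zero |>.1 h1, pow_eq_zero_iff two_ne_zero |>.1 h2⟩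
  · have h1 : c ^ 2 = 0 := by nlinarith [sq_nonneg (c - 2 * d), sq_nonneg c, sq_nonneg d]
    have h2 : d ^ 2 = 0 := by nlinarith [sq_nonneg (2 * c - d), sq_nonneg c, sq_nonneg d]
    exact ⟨pow_eq_zero_iff two_ne_zero |>.1 h1, pow_eq_zero_iff two_ne_zero |>.1 h2⟩

namespace Quad

theorem two_ip (hq : Quad H S σ e) (hH : H.IsCohomology) {v : Fin 23 → ℤ} (hv : v ∈ S) :
    2 * H.ip v (σ v) = -(e * H.ip v v) := by
  have h1 := hq.iso v (σ v)
  rw [hq.quad v hv, H.ip_sub_right, H.ip_neg_right, H.ip_smul_right, hq.iso, hH.comm (σ v) v] at h1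
  linarith

theorem norm_comb (hq : Quad H S σ e) (hH : H.IsCohomology) {v : Fin 23 → ℤ} (hv : v ∈ S)
    (a b : ℤ) : H.ip (a • v + b • σ v) (a • v + b • σ v) = (a ^ 2 - e * a * b + b ^ 2) * H.ip v v := by
  rw [ip_add_self hH, ip_smul_smul, ip_smul_smul, H.ip_smul_left, H.ip_smul_right, hq.iso]
  have := hq.two_ip hH hv
  linear_combination (a * b) * this

/-- The Euclidean algorithm. -/
theorem span_int (hq : Quad H S σ e) (hS : Piece H S) (hH : H.IsCohomology) {m w : Fin 23 → ℤ}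
    (hm : MinVec H S m) (hw : w ∈ S) {n a b : ℤ} (hn : n ≠ 0) (h : n • w = a • m + b • σ m) :
    ∃ i j : ℤ, w = i • m + j • σ m := by
  have hN : 0 < n ^ 2 := by positivity
  obtain ⟨N, hNn⟩ : ∃ N, N = n ^ 2 := ⟨_, rfl⟩
  have h1 : N • w = (n * a) • m + (n * b) • σ m := by
    rw [hNn, pow_two, ← smul_smul, h, smul_add, smul_smul, smul_smul]
  rw [← hNn] at hN
  generalize n * a = a' at h1
  generalize n * b = b' at h1
  obtain ⟨i, hi⟩ : ∃ i, i = (2 * a' + N) / (2 * N) := ⟨_, rfl⟩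
  obtain ⟨j, hj⟩ : ∃ j, j = (2 * b' + N) / (2 * N) := ⟨_, rfl⟩
  have hround : ∀ a i : ℤ, i = (2 * a + N) / (2 * N) → |2 * (a - N * i)| ≤ N := by
    intro a i hi
    have h3 := Int.emod_nonneg (2 * a + N) (b := 2 * N) (by omega)
    have h4 := Int.emod_lt_of_pos (2 * a + N) (b := 2 * N) (by omega)
    have h5 := Int.emod_add_mul_ediv (2 * a + N) (2 * N)
    rw [← hi] at h5
    rw [abs_le]
    constructor <;> nlinarith
  have hi' := hround a' i hi
  have hj' := hround b' j hj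
  refine ⟨i, j, ?_⟩
  have hw' : w - (i • m + j • σ m) ∈ S :=
    S.sub_mem hw (S.add_mem (S.smul_mem _ hm.mem) (S.smul_mem _ (hq.mem m hm.mem)))
  by_contra hne
  have hne' : w - (i • m + j • σ m) ≠ 0 := sub_ne_zero.2 hne
  have h2 : N • (w - (i • m + j • σ m)) = (a' - N * i) • m + (b' - N * j) • σ m := by
    rw [smul_sub, h1, smul_add, smul_smul, smul_smul, sub_smul, sub_smul]
    abel
  have h3 := congrArg (fun x => H.ip x x) h2
  simp only [ip_smul_smul, hq.norm_comb hH hm.mem] at h3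
  have h4 := hm.le _ hw' hne'
  have h5 := hS.pos hH hm.mem hm.ne_zero
  generalize H.ip (w - (i • m + j • σ m)) (w - (i • m + j • σ m)) = W at *
  generalize a' - N * i = α at *
  generalize b' - N * j = β at *
  generalize H.ip m m = M at *
  have h6 : 4 * (α ^ 2 - e * α * β + β ^ 2) ≤ 3 * N ^ 2 := by
    have h7 : (2 * α) ^ 2 ≤ N ^ 2 := by
      rw [← sq_abs (2 * α)]
      exact pow_le_pow_left₀ (abs_nonneg _) hi' 2
    have h8 : (2 * β) ^ 2 ≤ N ^ 2 := by
      rw [← sq_abs (2 * β)]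
      exact pow_le_pow_left₀ (abs_nonneg _) hj' 2
    have h9 : |(2 * α) * (2 * β)| ≤ N * N := by
      rw [abs_mul]
      exact mul_le_mul hi' hj' (abs_nonneg _) hN.le
    rw [abs_le] at h9
    rcases hq.e01 with rfl | rfl <;> nlinarith
  have h7 : 4 * (N ^ 2 * W) ≤ 3 * (N ^ 2 * M) := by
    rw [h3]
    nlinarith
  have h8 : 0 < N ^ 2 := by positivity
  have h9 : N ^ 2 * M ≤ N ^ 2 * W := mul_le_mul_of_nonneg_left h4 h8.le
  have h10 : 0 < N ^ 2 * M := mul_pos h8 h5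
  linarith

/-- Vectors which are not in the rational span of `m` and `σ m`. -/
def Out (S : Submodule ℤ (Fin 23 → ℤ)) (σ : Module.End ℤ (Fin 23 → ℤ)) (m w : Fin 23 → ℤ) : Prop :=
  w ∈ S ∧ ∀ n a b : ℤ, n ≠ 0 → n • w ≠ a • m + b • σ m

theorem comb_eq_zero (hq : Quad H S σ e) (hS : Piece H S) (hH : H.IsCohomology)
    {v : Fin 23 → ℤ} (hv : v ∈ S) (hv0 : v ≠ 0) {a b : ℤ} (h : a • v + b • σ v = 0) :
    a = 0 ∧ b = 0 := by
  have h1 := hq.norm_comb hH hv a b
  rw [h, H.ip_zero_left] at h1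
  have h2 := hS.pos hH hv hv0
  rcases mul_eq_zero.1 h1.symm with h3 | h3
  · exact norm_form_pos hq.e01 h3
  · omega

theorem five_le (hq : Quad H S σ e) (hS : Piece H S) (hH : H.IsCohomology) {m w : Fin 23 → ℤ}
    (hm : MinVec H S m) (hw : Out S σ m w) : 5 ≤ H.rank := by
  have hw0 : w ≠ 0 := by
    rintro rfl
    exact hw.2 1 0 0 one_ne_zero (by simp)
  have hli : LinearIndependent ℤ (![H.h, m, σ m, w, σ w] : Fin 5 → Fin 23 → ℤ) := by
    rw [Fintype.linearIndependent_iff]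
    intro g hg
    simp only [Fin.sum_univ_five, Matrix.cons_val_zero, Matrix.cons_val_one, Matrix.cons_val] at hg
    have h0 : g 0 = 0 := by
      have h1 := congrArg (fun x => H.ip x H.h) hg
      simp only [H.ip_add_left, H.ip_smul_left, H.ip_zero_left, hH.h_self, hS.perp m hm.mem,
        hS.perp _ (hq.mem m hm.mem), hS.perp w hw.1, hS.perp _ (hq.mem w hw.1)] at h1
      omega
    rw [h0, zero_smul, zero_add] at hg
    -- the coefficients of `w`
    have h1 : g 3 • w + g 4 • σ w = -(g 1 • m + g 2 • σ m) := by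
      rw [eq_neg_iff_add_eq_zero, ← hg]
      abel
    have h2 : g 3 • σ w + g 4 • σ (σ w) = -(g 1 • σ m + g 2 • σ (σ m)) := by
      have := congrArg σ h1
      simpa only [map_add, map_smul, map_neg] using this
    rw [hq.quad w hw.1, hq.quad m hm.mem] at h2
    have h3 : (g 3 ^ 2 - e * g 3 * g 4 + g 4 ^ 2) • w =
        (-(g 1 * (g 3 - e * g 4)) - g 4 * g 2) • m +
        (-(g 2 * (g 3 - e * g 4)) + g 4 * g 1 - g 4 * g 2 * e) • σ m := by
      have e1 : (g 3 ^ 2 - e * g 3 * g 4 + g 4 ^ 2) • w =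
          (g 3 - e * g 4) • (g 3 • w + g 4 • σ w) -
          g 4 • (g 3 • σ w + g 4 • (-(e • σ w) - w)) := by
        ext i
        simp only [Pi.smul_apply, Pi.add_apply, Pi.sub_apply, Pi.neg_apply, smul_eq_mul]
        ring
      rw [e1, h1, h2]
      ext i
      simp only [Pi.smul_apply, Pi.add_apply, Pi.sub_apply, Pi.neg_apply, smul_eq_mul]
      ring
    have h4 : g 3 ^ 2 - e * g 3 * g 4 + g 4 ^ 2 = 0 := by
      by_contra hne
      exact hw.2 _ _ _ hne h3
    obtain ⟨h5, h6⟩ := norm_form_pos hq.e01 h4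
    rw [h5, h6, zero_smul, zero_smul, add_zero, add_zero] at hg
    obtain ⟨h7, h8⟩ := hq.comb_eq_zero hS hH hm.mem hm.ne_zero hg
    intro i
    fin_cases i
    · exact h0
    · exact h7
    · exact h8
    · exact h5
    · exact h6
  have hf : ∀ i, H.IsHodge ((![H.h, m, σ m, w, σ w] : Fin 5 → Fin 23 → ℤ) i) := by
    intro i
    fin_cases i
    · exact hH.h_hodge
    · exact hS.hodge m hm.mem
    · exact hS.hodge _ (hq.mem m hm.mem)
    · exact hS.hodge w hw.1
    · exact hS.hodge _ (hq.mem w hw.1)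
  rw [H.rank_eq]
  let f' : Fin 5 → H.hodge := fun k => ⟨_, hf k⟩
  have h1 : LinearIndependent ℤ f' := LinearIndependent.of_comp H.hodge.subtype hli
  have h2 := h1.fintype_card_le_finrank
  rwa [Fintype.card_fin] at h2

end Quad

end Pool.Agent.L5helper19.GS
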