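import Pool.Agent.Y95.Q.Defs

/-!
# Symplectic automorphisms of the cohomology of a cubic fourfold
-/

set_option autoImplicit false

namespace Pool.Agent.L5helper19.GS

open Pool.Agent.Y95.Q

/-- The endomorphism `σ` of `H^4(X, ℤ)` is a symplectic automorphism: it preserves the intersection
form and `h`, and it acts trivially on `H^{3,1} = ℂ ω`, in the form `(σ v).ω = v.ω` for all `v`.
By the theorem of Torelli (Voisin) these are the maps induced by the automorphisms of `X` which act
trivially on `H^{3,1}(X)`. -/
structure IsSymplectic {X : CubicFourfold} (H : H4 X) (σ : Module.End ℤ (Fin 23 → ℤ)) : Prop where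
  isometry : ∀ v w, H.ip (σ v) (σ w) = H.ip v w
  map_h : σ H.h = H.h
  map_omega : ∀ v, ∑ i, ∑ j, (σ v i : ℂ) * H.B i j * H.ω j = ∑ i, ∑ j, (v i : ℂ) * H.B i j * H.ω j

end Pool.Agent.L5helper19.GS
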