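import Pool.Agent.L5helper19.GS.Sym2
import Pool.Agent.L5helper19.GS.SymDefs

/-!
# Symplectic automorphisms of odd prime order
-/

set_option autoImplicit false

namespace Pool.Agent.L5helper19.GS

open Pool.Agent.Y95.Q

variable {X : CubicFourfold} {H : H4 X} {σ τ : Module.End ℤ (Fin 23 → ℤ)}

/-- The pairing with `ω`. -/
noncomputable def per (H : H4 X) : (Fin 23 → ℤ) →+ ℂ where
  toFun v := ∑ i, ∑ j, (v i : ℂ) * H.B i j * H.ω j
  map_zero' := by simp
  map_add' v w := by
    rw [← Finset.sum_add_distrib]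
    refine Finset.sum_congr rfl fun i _ => ?_
    rw [← Finset.sum_add_distrib]
    refine Finset.sum_congr rfl fun j _ => ?_
    rw [Pi.add_apply]
    push_cast
    ring

theorem isHodge_iff {v : Fin 23 → ℤ} : H.IsHodge v ↔ per H v = 0 := Iff.rfl

namespace IsSymplectic

theorem per_eq (h : IsSymplectic H σ) (v : Fin 23 → ℤ) : per H (σ v) = per H v := h.map_omega v

theorem one : IsSymplectic H (1 : Module.End ℤ (Fin 23 → ℤ)) := ⟨fun _ _ => rfl, rfl, fun _ => rfl⟩

theorem mul (h : IsSymplectic H σ) (h' : IsSymplectic H τ) : IsSymplectic H (σ * τ) := by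
  refine ⟨fun v w => ?_, ?_, fun v => ?_⟩
  · rw [Module.End.mul_apply, Module.End.mul_apply, h.isometry, h'.isometry]
  · rw [Module.End.mul_apply, h'.map_h, h.map_h]
  · exact (h.per_eq (τ v)).trans (h'.per_eq v)

theorem pow (h : IsSymplectic H σ) (n : ℕ) : IsSymplectic H (σ ^ n) := by
  induction n with
  | zero => rw [pow_zero]; exact one
  | succ n ih => rw [pow_succ]; exact ih.mul h

end IsSymplectic

/-- The trace. -/
noncomputable def tr (σ : Module.End ℤ (Fin 23 → ℤ)) (p : ℕ) : Module.End ℤ (Fin 23 → ℤ) :=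
  ∑ i ∈ Finset.range p, σ ^ i

theorem tr_apply (p : ℕ) (v : Fin 23 → ℤ) : tr σ p v = ∑ i ∈ Finset.range p, (σ ^ i) v := by
  unfold tr
  rw [LinearMap.sum_apply]

theorem pow_apply_fixed {y : Fin 23 → ℤ} (hy : σ y = y) (i : ℕ) : (σ ^ i) y = y := by
  induction i with
  | zero => rfl
  | succ n ih => rw [pow_succ, Module.End.mul_apply, hy, ih]

theorem tr_fixed {p : ℕ} {y : Fin 23 → ℤ} (hy : σ y = y) : tr σ p y = (p : ℤ) • y := by
  rw [tr_apply, Finset.sum_congr rfl fun i _ => pow_apply_fixed hy i, Finset.sum_const,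
    Finset.card_range, natCast_zsmul]

theorem map_tr {p : ℕ} (hp : σ ^ p = 1) (v : Fin 23 → ℤ) : σ (tr σ p v) = tr σ p v := by
  have h1 : (σ - 1) * tr σ p = 0 := by
    unfold tr
    rw [mul_geom_sum, hp, sub_self]
  have h2 : ((σ - 1) * tr σ p) v = 0 := by rw [h1]; rfl
  rw [Module.End.mul_apply, LinearMap.sub_apply, Module.End.one_apply] at h2
  exact sub_eq_zero.1 h2

theorem tr_sub {p : ℕ} (hp : σ ^ p = 1) (v : Fin 23 → ℤ) : tr σ p (v - σ v) = 0 := by
  have h1 : tr σ p * (σ - 1) = 0 := by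
    unfold tr
    rw [geom_sum_mul, hp, sub_self]
  have h2 : (tr σ p * (σ - 1)) v = 0 := by rw [h1]; rfl
  rw [Module.End.mul_apply, LinearMap.sub_apply, Module.End.one_apply] at h2
  rw [← neg_sub, map_neg, h2, neg_zero]

theorem map_mem {p : ℕ} {v : Fin 23 → ℤ} (hv : tr σ p v = 0) : tr σ p (σ v) = 0 := by
  have h1 : tr σ p * σ = σ * tr σ p := by
    unfold tr
    rw [Finset.sum_mul, Finset.mul_sum]
    refine Finset.sum_congr rfl fun i _ => ?_
    rw [← pow_succ, ← pow_succ']
  have h2 : (tr σ p * σ) v = (σ * tr σ p) v := by rw [h1]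
  rw [Module.End.mul_apply, Module.End.mul_apply, hv, map_zero] at h2
  exact h2

/-- An element of the kernel of the trace is orthogonal to the invariants. -/
theorem ip_fixed (hs : IsSymplectic H σ) {p : ℕ} (hp : 0 < p) {v y : Fin 23 → ℤ}
    (hv : tr σ p v = 0) (hy : σ y = y) : H.ip v y = 0 := by
  have h1 : (p : ℤ) * H.ip v y = H.ip (tr σ p v) y := by
    rw [tr_apply, H.ip_sum_left]
    have h2 : ∀ i ∈ Finset.range p, H.ip ((σ ^ i) v) y = H.ip v y := by
      intro i _
      have h3 := (hs.pow i).isometry v y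
      rwa [pow_apply_fixed hy] at h3
    rw [Finset.sum_congr rfl h2, Finset.sum_const, Finset.card_range, nsmul_eq_mul]
  rw [hv, H.ip_zero_left] at h1
  rcases mul_eq_zero.1 h1 with h2 | h2
  · exact absurd (by exact_mod_cast h2) hp.ne'
  · exact h2

theorem hodge_of_tr (hs : IsSymplectic H σ) {p : ℕ} (hp : 0 < p) {v : Fin 23 → ℤ}
    (hv : tr σ p v = 0) : H.IsHodge v := by
  rw [isHodge_iff]
  have h1 : (p : ℂ) * per H v = per H (tr σ p v) := by
    rw [tr_apply, map_sum, Finset.sum_congr rfl fun i _ => (hs.pow i).per_eq v, Finset.sum_const,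
      Finset.card_range, nsmul_eq_mul]
  rw [hv, map_zero] at h1
  rcases mul_eq_zero.1 h1 with h2 | h2
  · exact absurd (by exact_mod_cast h2) hp.ne'
  · exact h2

/-- The assumptions. -/
structure OddSym (H : H4 X) (σ : Module.End ℤ (Fin 23 → ℤ)) (p : ℕ) : Prop where
  sym : IsSymplectic H σ
  prime : p.Prime
  two_lt : 2 < p
  pow_eq : σ ^ p = 1
  ne_one : σ ≠ 1

namespace OddSym

variable {p : ℕ}

theorem piece (hs : OddSym H σ p) : Piece H (LinearMap.ker (tr σ p)) where
  hodge v hv := hodge_of_tr hs.sym hs.prime.pos hv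
  perp v hv := ip_fixed hs.sym hs.prime.pos hv hs.sym.map_h
  sat n v hn hv := by
    rw [LinearMap.mem_ker] at hv ⊢
    rw [map_smul] at hv
    exact (smul_eq_zero.1 hv).resolve_left hn
  ne_zero := by
    obtain ⟨x, hx⟩ : ∃ x, σ x ≠ x := by
      by_contra hcon
      push Not at hcon
      exact hs.ne_one (LinearMap.ext hcon)
    exact ⟨x - σ x, tr_sub hs.pow_eq x, fun h => hx (sub_eq_zero.1 h).symm⟩

theorem nondeg (hs : OddSym H σ p) (hH : H.IsCohomology) {l : ℕ} (hl : l.Prime) (hlp : l ≠ p) :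
    Nondeg H (LinearMap.ker (tr σ p)) l := by
  intro v hv h
  have h1 : ∀ x, (l : ℤ) ∣ H.ip v x := by
    intro x
    have hmem : (p : ℤ) • x - tr σ p x ∈ LinearMap.ker (tr σ p) := by
      rw [LinearMap.mem_ker, map_sub, map_smul, tr_fixed (map_tr hs.pow_eq x), sub_self]
    have h2 := h _ hmem
    rw [H.ip_sub_right, ip_fixed hs.sym hs.prime.pos hv (map_tr hs.pow_eq x), sub_zero,
      H.ip_smul_right] at h2
    rcases (Nat.prime_iff_prime_int.1 hl).dvd_or_dvd h2 with h3 | h3
    · exact absurd ((Nat.prime_dvd_prime_iff_eq hl hs.prime).1 (by exact_mod_cast h3)) hlp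
    · exact h3
  obtain ⟨w, hw⟩ := exists_smul_of_dvd hH h1
  refine ⟨w, hs.piece.sat l w (by exact_mod_cast hl.ne_zero) ?_, hw⟩
  rw [← hw]
  exact hv

theorem fix (hs : OddSym H σ p) : ∀ v ∈ LinearMap.ker (tr σ p), σ v = v ∨ σ v = -v → v = 0 := by
  intro v hv h
  rcases h with h | h
  · rw [LinearMap.mem_ker, tr_fixed h] at hv
    exact (smul_eq_zero.1 hv).resolve_left (by exact_mod_cast hs.prime.ne_zero)
  · have h1 : (σ ^ 2) v = v := by
      rw [pow_two, Module.End.mul_apply, h, map_neg, h, neg_neg]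
    obtain ⟨k, hk⟩ : Odd p := hs.prime.odd_of_ne_two (by have := hs.two_lt; omega)
    have h2 : (σ ^ p) v = -v := by
      rw [hk, pow_succ, Module.End.mul_apply, h, map_neg, pow_mul, pow_apply_fixed h1]
    rw [hs.pow_eq, Module.End.one_apply] at h2
    have h3 : (2 : ℤ) • v = 0 := by
      rw [two_smul]
      nth_rewrite 1 [h2]
      rw [neg_add_cancel]
    exact (smul_eq_zero.1 h3).resolve_left two_ne_zero

theorem mem (_hs : OddSym H σ p) : ∀ v ∈ LinearMap.ker (tr σ p), σ v ∈ LinearMap.ker (tr σ p) :=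
  fun _ hv => map_mem hv

theorem nonzero_self (hs : OddSym H σ p) (hH : H.IsCohomology) :
    Nonzero H (LinearMap.ker (tr σ p)) p := by
  by_contra hcon
  unfold Nonzero at hcon
  push Not at hcon
  obtain ⟨m, hm⟩ := hs.piece.exists_minVec hH
  have h1 : ∀ x, (p : ℤ) ∣ H.ip (m - σ m) x := by
    intro x
    have h2 := hcon (σ m) (hs.mem m hm.mem) (x - σ x) (tr_sub hs.pow_eq x)
    rw [H.ip_sub_right, hs.sym.isometry] at h2
    rw [H.ip_sub_left, ← neg_sub]
    exact h2.neg_right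
  obtain ⟨w, hw⟩ := exists_smul_of_dvd hH h1
  have h3 := hm.eq_of_smul hs.piece hH (l := p) (by exact_mod_cast hs.two_lt) (hs.mem m hm.mem)
    (hs.sym.isometry m m) hw
  exact hm.ne_zero (hs.fix m hm.mem (Or.inl h3.symm))

theorem nonzero (hs : OddSym H σ p) (hH : H.IsCohomology) {l : ℕ} (hl : l.Prime) :
    Nonzero H (LinearMap.ker (tr σ p)) l := by
  by_cases h : l = p
  · rw [h]
    exact hs.nonzero_self hH
  · exact (hs.nondeg hH hl h).nonzero (by exact_mod_cast hl.two_le) hs.piece hH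

end OddSym

end Pool.Agent.L5helper19.GS
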