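import Pool.Agent.L5helper19.GS.Sym3

/-!
# Symplectic automorphisms of order three
-/

set_option autoImplicit false

namespace Pool.Agent.L5helper19.GS

open Pool.Agent.Y95.Q

variable {X : CubicFourfold} {H : H4 X} {σ : Module.End ℤ (Fin 23 → ℤ)}

namespace OddSym

theorem tr_three (v : Fin 23 → ℤ) : tr σ 3 v = v + σ v + σ (σ v) := by
  rw [tr_apply]
  simp only [Finset.sum_range_succ, Finset.sum_range_zero, zero_add, pow_zero, pow_one,
    Module.End.one_apply, pow_two, Module.End.mul_apply]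

theorem cube (hs : OddSym H σ 3) (v : Fin 23 → ℤ) : σ (σ (σ v)) = v := by
  have h1 := congrArg (fun f => f v) hs.pow_eq
  simpa only [pow_succ, pow_zero, one_mul, Module.End.mul_apply, Module.End.one_apply] using h1

theorem quad (hs : OddSym H σ 3) : Quad H (LinearMap.ker (tr σ 3)) σ 1 where
  e01 := Or.inr rfl
  iso := hs.sym.isometry
  mem := hs.mem
  quad v hv := by
    rw [LinearMap.mem_ker, tr_three] at hv
    rw [one_smul]
    have h1 : σ (σ v) = (v + σ v + σ (σ v)) - v - σ v := by abel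
    rw [h1, hv]
    abel

/-- The pairing with `x - σ x`. -/
theorem ip_sub_map (hs : OddSym H σ 3) (v x : Fin 23 → ℤ) :
    H.ip v (x - σ x) = H.ip (v - σ (σ v)) x := by
  have h1 : H.ip v (σ x) = H.ip (σ (σ v)) x := by
    rw [← hs.sym.isometry (σ (σ v)) x, hs.cube]
  rw [H.ip_sub_right, H.ip_sub_left, h1]

/-- There are vectors outside the span of a minimal vector. -/
theorem exists_out (hs : OddSym H σ 3) (hH : H.IsCohomology) {m : Fin 23 → ℤ}
    (hm : MinVec H (LinearMap.ker (tr σ 3)) m) : ∃ w, Quad.Out (LinearMap.ker (tr σ 3)) σ m w := by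
  by_contra hcon
  have h1 : ∀ w ∈ LinearMap.ker (tr σ 3), ∃ i j : ℤ, w = i • m + j • σ m := by
    intro w hw
    by_contra h
    apply hcon
    refine ⟨w, hw, fun n a b hn hw' => h ?_⟩
    exact hs.quad.span_int hs.piece hH hm hw hn hw'
  have hq := hs.quad.two_ip hH hm.mem
  obtain ⟨k, hk⟩ := hs.piece.even hH hm.mem
  have hpos := hs.piece.pos hH hm.mem hm.ne_zero
  have hmσ : H.ip m (σ m) = -k := by omega
  have h2 : ∀ x, k ∣ H.ip (m - σ (σ m)) x := by
    intro x
    rw [← hs.ip_sub_map]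
    obtain ⟨i, j, hij⟩ := h1 (x - σ x) (tr_sub hs.pow_eq x)
    rw [hij, H.ip_add_right, H.ip_smul_right, H.ip_smul_right, hmσ, hk]
    exact ⟨2 * i - j, by ring⟩
  obtain ⟨y, hy⟩ := exists_smul_of_dvd hH h2
  have hk0 : 0 < k := by omega
  have hmem2 : σ (σ m) ∈ LinearMap.ker (tr σ 3) := hs.mem _ (hs.mem m hm.mem)
  have hy1 : y ∈ LinearMap.ker (tr σ 3) := by
    refine hs.piece.sat k y hk0.ne' ?_
    rw [← hy]
    exact Submodule.sub_mem _ hm.mem hmem2
  have hy0 : y ≠ 0 := by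
    rintro rfl
    rw [smul_zero, sub_eq_zero] at hy
    have h3 : σ m = m := by
      nth_rewrite 1 [hy]
      rw [hs.cube]
    exact hm.ne_zero (hs.fix m hm.mem (Or.inl h3))
  have h4 := hm.le y hy1 hy0
  have h5 : H.ip (m - σ (σ m)) (m - σ (σ m)) = 6 * k := by
    rw [ip_sub_self hH, hs.sym.isometry, hs.sym.isometry]
    have h6 : H.ip m (σ (σ m)) = -k := by
      rw [← hs.sym.isometry, hs.cube, hH.comm, hmσ]
    rw [h6, hk]
    ring
  rw [hy, ip_smul_smul] at h5
  have h6 : k = 1 := by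
    by_contra hne
    have h7 : 2 ≤ k := by omega
    nlinarith [mul_le_mul h7 h7 (by norm_num) hk0.le]
  exact hs.piece.ne_two hH hm.mem (by rw [hk, h6]; norm_num)

/-- The value two modulo three. -/
theorem three (hs : OddSym H σ 3) (hH : H.IsCohomology) :
    ∃ v ∈ LinearMap.ker (tr σ 3), H.ip v v % 3 = 2 := by
  by_contra hcon
  push Not at hcon
  obtain ⟨v, hv, hv3⟩ := (hs.nonzero_self hH).norm (p := 3) Nat.prime_three (by norm_num) hH
  have hv1 : H.ip v v % 3 = 1 := by
    have := hcon v hv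
    omega
  have hfree : ∀ u w : Fin 23 → ℤ, (3 : ℤ) • u = (3 : ℤ) • w → u = w := by
    intro u w h
    have h1 : (3 : ℤ) • (u - w) = 0 := by rw [smul_sub, h, sub_self]
    exact sub_eq_zero.1 ((smul_eq_zero.1 h1).resolve_left (by norm_num))
  -- `(1 - σ) (1 - σ²) = 3` on the kernel of the trace
  have hthree : ∀ r, tr σ 3 r = 0 → (r - σ (σ r)) - σ (r - σ (σ r)) = (3 : ℤ) • r := by
    intro r hr
    rw [tr_three] at hr
    have h1 : σ (σ r) = -r - σ r := by
      have : σ (σ r) = (r + σ r + σ (σ r)) - r - σ r := by abel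
      rw [this, hr]
      abel
    rw [map_sub, hs.cube, h1]
    ext i
    simp only [Pi.sub_apply, Pi.neg_apply, Pi.smul_apply, smul_eq_mul]
    ring
  have h1 : ∀ w, tr σ 3 w = 0 → ∃ s, tr σ 3 s = 0 ∧ w = H.ip w v • v + (s - σ s) := by
    intro w hw
    have hmem : w - H.ip w v • v ∈ LinearMap.ker (tr σ 3) :=
      Submodule.sub_mem _ hw (Submodule.smul_mem _ _ hv)
    have h2 : ∀ x, (3 : ℤ) ∣ H.ip ((w - H.ip w v • v) - σ (σ (w - H.ip w v • v))) x := by
      intro x
      rw [← hs.ip_sub_map]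
      exact orth_three hH hcon hv hv1 w hw _ (tr_sub hs.pow_eq x)
    obtain ⟨s, hsm⟩ := exists_smul_of_dvd hH h2
    have hs1 : s ∈ LinearMap.ker (tr σ 3) := by
      refine hs.piece.sat 3 s (by norm_num) ?_
      rw [← hsm]
      exact Submodule.sub_mem _ hmem (hs.mem _ (hs.mem _ hmem))
    refine ⟨s, hs1, ?_⟩
    have h3 := hthree _ hmem
    rw [hsm, map_smul, ← smul_sub] at h3
    rw [hfree _ _ h3]
    abel
  obtain ⟨m, hm⟩ := hs.piece.exists_minVec hH
  have hnorm : ∀ t, tr σ 3 t = 0 → H.ip (t - σ t) (t - σ t) = 3 * H.ip t t := by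
    intro t ht
    rw [ip_sub_self hH, hs.sym.isometry]
    have := hs.quad.two_ip hH ht
    linarith
  -- `m` is not in `(1 - σ) S`
  have h2 : ∀ t, tr σ 3 t = 0 → m ≠ t - σ t := by
    intro t ht h
    have h3 := hnorm t ht
    rw [← h] at h3
    have hpos := hs.piece.pos hH hm.mem hm.ne_zero
    have ht0 : t ≠ 0 := by
      rintro rfl
      rw [H.ip_zero_left] at h3
      omega
    have h4 := hm.le t ht ht0
    omega
  have h3v : ∀ c : ℤ, ∃ t, tr σ 3 t = 0 ∧ (3 * c) • v = t - σ t := by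
    intro c
    refine ⟨c • (v - σ (σ v)), ?_, ?_⟩
    · rw [map_smul]
      have : v - σ (σ v) ∈ LinearMap.ker (tr σ 3) :=
        Submodule.sub_mem _ hv (hs.mem _ (hs.mem _ hv))
      rw [LinearMap.mem_ker.1 this, smul_zero]
    · rw [map_smul, ← smul_sub, hthree v hv, smul_smul, mul_comm]
  obtain ⟨s, hs0, hms⟩ := h1 m hm.mem
  have h4 : ¬ 3 ∣ H.ip m v := by
    rintro ⟨c, hc⟩
    obtain ⟨t, ht0, ht⟩ := h3v c
    refine h2 (t + s) (by rw [map_add, ht0, hs0, add_zero]) ?_
    rw [hc, ht] at hms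
    rw [hms, map_add]
    abel
  -- all vectors are multiples of `m` modulo `1 - σ`
  have h5 : ∀ w, tr σ 3 w = 0 → ∃ a : ℤ, a ^ 2 ≤ 1 ∧ ∃ t, tr σ 3 t = 0 ∧ w - a • m = t - σ t := by
    intro w hw
    obtain ⟨s', hs', hws⟩ := h1 w hw
    obtain ⟨a, ha, c, hc⟩ : ∃ a : ℤ, a ^ 2 ≤ 1 ∧ 3 ∣ H.ip w v - a * H.ip m v := by
      have h6 : H.ip m v % 3 = 1 ∨ H.ip m v % 3 = 2 := by omega
      have h7 : H.ip w v % 3 = 0 ∨ H.ip w v % 3 = 1 ∨ H.ip w v % 3 = 2 := by omega
      rcases h6 with h6 | h6 <;> rcases h7 with h7 | h7 | h7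
      · exact ⟨0, by norm_num, by omega⟩
      · exact ⟨1, by norm_num, by omega⟩
      · exact ⟨-1, by norm_num, by omega⟩
      · exact ⟨0, by norm_num, by omega⟩
      · exact ⟨-1, by norm_num, by omega⟩
      · exact ⟨1, by norm_num, by omega⟩
    obtain ⟨t, ht0, ht⟩ := h3v c
    refine ⟨a, ha, t + s' - a • s, by rw [map_sub, map_add, map_smul, ht0, hs', hs0]; simp, ?_⟩
    have h8 : w - a • m = (H.ip w v - a * H.ip m v) • v + ((s' - a • s) - σ (s' - a • s)) := by
      nth_rewrite 1 [hws]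
      nth_rewrite 1 [hms]
      rw [smul_add, smul_smul, sub_smul, map_sub, map_smul, smul_sub]
      abel
    rw [h8, hc, ht, map_sub, map_sub, map_add, map_smul]
    abel
  -- a minimal vector outside the span of `m`, `σ m`
  obtain ⟨w, hw, hwmin⟩ := exists_min hH (P := Quad.Out (LinearMap.ker (tr σ 3)) σ m)
    (fun v hv => hs.piece.hodge v hv.1) (hs.exists_out hH hm)
  obtain ⟨a, ha, t, ht, hwt⟩ := h5 w hw.1
  have hw0 : w ≠ 0 := by
    rintro rfl
    exact hw.2 1 0 0 one_ne_zero (by simp)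
  have hmw := hm.le w hw.1 hw0
  have hwpos := hs.piece.pos hH hw.1 hw0
  have hσσ : σ (σ m) = -m - σ m := by
    have := hs.quad.quad m hm.mem
    rw [one_smul] at this
    rw [this]
    abel
  -- vectors `t` with `w - u = t - σ t`, `u` in the span of `m` and `σ m`
  have hout : ∀ t, tr σ 3 t = 0 → ∀ b c : ℤ, w - (b • m + c • σ m) = t - σ t →
      H.ip w w ≤ H.ip t t := by
    intro t ht b c hbc
    refine hwmin t ⟨ht, fun n α β hn hnt => ?_⟩
    refine hw.2 n (n * b + (α + β)) (n * c + (2 * β - α)) hn ?_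
    have h6 : n • w = n • (w - (b • m + c • σ m)) + n • (b • m + c • σ m) := by
      rw [← smul_add, sub_add_cancel]
    rw [h6, hbc, smul_sub, ← map_smul, hnt, map_add, map_smul, map_smul, hσσ]
    ext i
    simp only [Pi.add_apply, Pi.sub_apply, Pi.neg_apply, Pi.smul_apply, smul_eq_mul]
    ring
  have ha0 := hout t ht a 0 (by rw [← hwt]; simp)
  have ht1 : tr σ 3 (t + a • m) = 0 := by rw [map_add, map_smul, ht, hm.mem]; simp
  have ht1' : w - ((0 : ℤ) • m + a • σ m) = (t + a • m) - σ (t + a • m) := by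
    have : (t + a • m) - σ (t + a • m) = (t - σ t) + (a • m - a • σ m) := by
      rw [map_add, map_smul]
      abel
    rw [this, ← hwt, zero_smul, zero_add]
    abel
  have ha1 := hout _ ht1 0 a ht1'
  have ht2 : tr σ 3 (t + a • (m + σ m)) = 0 := by
    rw [map_add, map_smul, map_add, ht, LinearMap.mem_ker.1 hm.mem,
      LinearMap.mem_ker.1 (hs.mem m hm.mem)]
    simp
  have ht2' : w - ((-a) • m + (-a) • σ m) = (t + a • (m + σ m)) - σ (t + a • (m + σ m)) := by
    have : (t + a • (m + σ m)) - σ (t + a • (m + σ m)) =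
        (t - σ t) + (a • (m + σ m) - a • (σ m + σ (σ m))) := by
      rw [map_add, map_smul, map_add]
      abel
    rw [this, ← hwt, hσσ]
    ext i
    simp only [Pi.add_apply, Pi.sub_apply, Pi.neg_apply, Pi.smul_apply, smul_eq_mul]
    ring
  have ha2 := hout _ ht2 (-a) (-a) ht2'
  have n0 := hnorm _ ht
  have n1 := hnorm _ ht1
  have n2 := hnorm _ ht2
  rw [← hwt, ip_sub_self hH, ip_smul_smul, H.ip_smul_right] at n0
  rw [← ht1', zero_smul, zero_add, ip_sub_self hH, ip_smul_smul, H.ip_smul_right,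
    hs.sym.isometry] at n1
  have hneg : (-a) • m + (-a) • σ m = a • σ (σ m) := by
    rw [hσσ]
    ext i
    simp only [Pi.add_apply, Pi.sub_apply, Pi.neg_apply, Pi.smul_apply, smul_eq_mul]
    ring
  rw [← ht2', hneg, ip_sub_self hH, ip_smul_smul, H.ip_smul_right, hs.sym.isometry,
    hs.sym.isometry, hσσ, H.ip_sub_right, H.ip_neg_right] at n2
  have hmpos := hs.piece.pos hH hm.mem hm.ne_zero
  have h9 : a ^ 2 * H.ip m m ≤ H.ip w w := by nlinarith
  nlinarith

end OddSym

end Pool.Agent.L5helper19.GS
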