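import Pool.Agent.L5helper19.GS.Sym4

/-!
# Symplectic automorphisms of prime order at least five
-/

set_option autoImplicit false

namespace Pool.Agent.L5helper19.GS

open Pool.Agent.Y95.Q Polynomial

variable {Y : CubicFourfold} {H : H4 Y} {σ : Module.End ℤ (Fin 23 → ℤ)} {p : ℕ}

/-- The class in rational cohomology. -/
def castQ (v : Fin 23 → ℤ) : Fin 23 → ℚ := fun i => (v i : ℚ)

theorem castQ_eq_zero {v : Fin 23 → ℤ} (h : castQ v = 0) : v = 0 := by
  ext i
  have := congrFun h i
  simpa [castQ] using this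

theorem castQ_zero : castQ 0 = 0 := by
  ext i
  simp [castQ]

theorem castQ_add (v w : Fin 23 → ℤ) : castQ (v + w) = castQ v + castQ w := by
  ext i
  simp [castQ]

theorem castQ_smul (n : ℤ) (v : Fin 23 → ℤ) : castQ (n • v) = (n : ℚ) • castQ v := by
  ext i
  simp [castQ]

theorem castQ_sum {ι : Type*} (s : Finset ι) (f : ι → Fin 23 → ℤ) :
    castQ (∑ i ∈ s, f i) = ∑ i ∈ s, castQ (f i) := by
  ext i
  simp [castQ]

/-- The endomorphism of the rational cohomology. -/
noncomputable def ext (σ : Module.End ℤ (Fin 23 → ℤ)) : Module.End ℚ (Fin 23 → ℚ) :=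
  Matrix.toLin' ((LinearMap.toMatrix' σ).map (Int.castRingHom ℚ))

theorem ext_castQ (v : Fin 23 → ℤ) : ext σ (castQ v) = castQ (σ v) := by
  unfold ext
  rw [Matrix.toLin'_apply]
  have h1 : σ v = (LinearMap.toMatrix' σ).mulVec v := (LinearMap.toMatrix'_mulVec σ v).symm
  rw [h1]
  ext i
  simp only [Matrix.mulVec, dotProduct, castQ, Matrix.map_apply, eq_intCast]
  push_cast
  rfl

theorem ext_pow_castQ (n : ℕ) (v : Fin 23 → ℤ) : (ext σ ^ n) (castQ v) = castQ ((σ ^ n) v) := by
  induction n with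
  | zero => rfl
  | succ n ih => rw [pow_succ', pow_succ', Module.End.mul_apply, Module.End.mul_apply, ih, ext_castQ]

theorem OddSym.indep (hs : OddSym H σ p) (h5 : 5 ≤ p) {m : Fin 23 → ℤ} (hm : tr σ p m = 0)
    (hm0 : m ≠ 0) {a b c d : ℤ}
    (h : d • m + c • σ m + b • (σ ^ 2) m + a • (σ ^ 3) m = 0) : a = 0 ∧ b = 0 ∧ c = 0 ∧ d = 0 := by
  have : Fact p.Prime := ⟨hs.prime⟩
  obtain ⟨f, hf⟩ : ∃ f : ℚ[X], f = C (a : ℚ) * X ^ 3 + C (b : ℚ) * X ^ 2 + C (c : ℚ) * X + C (d : ℚ) :=
    ⟨_, rfl⟩
  by_cases hf0 : f = 0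
  · rw [hf0] at hf
    have h3 := congrArg (fun g => coeff g 3) hf
    have h2 := congrArg (fun g => coeff g 2) hf
    have h1 := congrArg (fun g => coeff g 1) hf
    have h0 := congrArg (fun g => coeff g 0) hf
    simp only [coeff_zero, coeff_add, coeff_C_mul, coeff_X_pow, coeff_X, coeff_C] at h3 h2 h1 h0
    norm_num at h3 h2 h1 h0
    exact ⟨by exact_mod_cast h3.symm, by exact_mod_cast h2.symm, by exact_mod_cast h1.symm,
      by exact_mod_cast h0.symm⟩
  · exfalso
    have hdeg : f.natDegree ≤ 3 := by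
      rw [hf]
      exact natDegree_cubic_le
    have hirr : Irreducible (cyclotomic p ℚ) := cyclotomic.irreducible_rat hs.prime.pos
    have hndvd : ¬ cyclotomic p ℚ ∣ f := by
      intro hd
      have h1 := natDegree_le_of_dvd hd hf0
      rw [natDegree_cyclotomic, Nat.totient_prime hs.prime] at h1
      omega
    obtain ⟨u, v, huv⟩ := (hirr.coprime_iff_not_dvd.2 hndvd)
    have e1 : aeval (ext σ) (cyclotomic p ℚ) (castQ m) = 0 := by
      rw [cyclotomic_prime, map_sum]
      simp only [map_pow, aeval_X]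
      rw [LinearMap.sum_apply, Finset.sum_congr rfl fun i _ => ext_pow_castQ i m, ← castQ_sum,
        ← tr_apply, hm, castQ_zero]
    have e2 : aeval (ext σ) f (castQ m) = 0 := by
      rw [hf]
      simp only [map_add, map_mul, aeval_C, aeval_X, map_pow, LinearMap.add_apply,
        Module.End.mul_apply, Module.algebraMap_end_apply]
      rw [ext_pow_castQ, ext_pow_castQ, ext_castQ, ← castQ_smul, ← castQ_smul, ← castQ_smul,
        ← castQ_smul, ← castQ_add, ← castQ_add, ← castQ_add]
      rw [show a • (σ ^ 3) m + b • (σ ^ 2) m + c • σ m + d • m = 0 by rw [← h]; abel, castQ_zero]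
    have e3 := congrArg (fun g => aeval (ext σ) g (castQ m)) huv
    simp only [map_add, map_mul, map_one, LinearMap.add_apply, Module.End.mul_apply,
      Module.End.one_apply] at e3
    rw [e1, e2, map_zero, map_zero, add_zero] at e3
    exact hm0 (castQ_eq_zero e3.symm)

theorem OddSym.five_le (hs : OddSym H σ p) (h5 : 5 ≤ p) (hH : H.IsCohomology) : 5 ≤ H.rank := by
  obtain ⟨m, hm, hm0⟩ := hs.piece.ne_zero
  have hmem : ∀ n, (σ ^ n) m ∈ LinearMap.ker (tr σ p) := by
    intro n
    induction n with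
    | zero => exact hm
    | succ n ih =>
      rw [pow_succ', Module.End.mul_apply]
      exact hs.mem _ ih
  have hli : LinearIndependent ℤ (![H.h, m, σ m, (σ ^ 2) m, (σ ^ 3) m] : Fin 5 → Fin 23 → ℤ) := by
    rw [Fintype.linearIndependent_iff]
    intro g hg
    simp only [Fin.sum_univ_five, Matrix.cons_val_zero, Matrix.cons_val_one, Matrix.cons_val] at hg
    have h0 : g 0 = 0 := by
      have h1 := congrArg (fun x => H.ip x H.h) hg
      simp only [H.ip_add_left, H.ip_smul_left, H.ip_zero_left, hH.h_self, hs.piece.perp m hm,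
        hs.piece.perp _ (hs.mem m hm), hs.piece.perp _ (hmem 2), hs.piece.perp _ (hmem 3)] at h1
      omega
    rw [h0, zero_smul, zero_add] at hg
    obtain ⟨h4, h3, h2, h1⟩ := hs.indep h5 hm hm0 hg
    intro i
    fin_cases i
    · exact h0
    · exact h1
    · exact h2
    · exact h3
    · exact h4
  have hf : ∀ i, H.IsHodge ((![H.h, m, σ m, (σ ^ 2) m, (σ ^ 3) m] : Fin 5 → Fin 23 → ℤ) i) := by
    intro i
    fin_cases i
    · exact hH.h_hodge
    · exact hs.piece.hodge m hm
    · exact hs.piece.hodge _ (hs.mem m hm)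
    · exact hs.piece.hodge _ (hmem 2)
    · exact hs.piece.hodge _ (hmem 3)
  rw [H.rank_eq]
  let f' : Fin 5 → H.hodge := fun k => ⟨_, hf k⟩
  have h1 : LinearIndependent ℤ f' := LinearIndependent.of_comp H.hodge.subtype hli
  have h2 := h1.fintype_card_le_finrank
  rwa [Fintype.card_fin] at h2

end Pool.Agent.L5helper19.GS
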