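import Pool.Agent.L5helper19.GS.Sym3

/-!
# Symplectic automorphisms of order four
-/

set_option autoImplicit false

namespace Pool.Agent.L5helper19.GS

open Pool.Agent.Y95.Q

variable {X : CubicFourfold} {H : H4 X} {σ : Module.End ℤ (Fin 23 → ℤ)}

/-- The assumptions. -/
structure FourSym (H : H4 X) (σ : Module.End ℤ (Fin 23 → ℤ)) : Prop where
  sym : IsSymplectic H σ
  pow_eq : σ ^ 4 = 1
  sq_ne : σ ^ 2 ≠ 1

/-- The lattice on which `σ ^ 2 = - 1`. -/
noncomputable def anti (σ : Module.End ℤ (Fin 23 → ℤ)) : Submodule ℤ (Fin 23 → ℤ) :=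
  LinearMap.ker (1 + σ ^ 2)

theorem mem_anti {v : Fin 23 → ℤ} : v ∈ anti σ ↔ σ (σ v) = -v := by
  unfold anti
  rw [LinearMap.mem_ker, LinearMap.add_apply, Module.End.one_apply, pow_two, Module.End.mul_apply,
    add_comm, add_eq_zero_iff_eq_neg]

namespace FourSym

theorem four (hs : FourSym H σ) (v : Fin 23 → ℤ) : σ (σ (σ (σ v))) = v := by
  have h1 := congrArg (fun f => f v) hs.pow_eq
  simpa only [pow_succ, pow_zero, one_mul, Module.End.mul_apply, Module.End.one_apply] using h1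

theorem sub_mem (hs : FourSym H σ) (x : Fin 23 → ℤ) : x - σ (σ x) ∈ anti σ := by
  rw [mem_anti, map_sub, map_sub, hs.four, neg_sub]

theorem mem (_hs : FourSym H σ) : ∀ v ∈ anti σ, σ v ∈ anti σ := by
  intro v hv
  rw [mem_anti] at hv ⊢
  rw [hv, map_neg]

theorem piece (hs : FourSym H σ) : Piece H (anti σ) where
  hodge v hv := by
    rw [mem_anti] at hv
    rw [isHodge_iff]
    have h1 := (hs.sym.per_eq (σ v)).trans (hs.sym.per_eq v)
    rw [hv, map_neg] at h1
    have h2 : (2 : ℂ) * per H v = 0 := by linear_combination -h1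
    exact (mul_eq_zero.1 h2).resolve_left two_ne_zero
  perp v hv := by
    rw [mem_anti] at hv
    have h1 := (hs.sym.isometry (σ v) (σ H.h)).trans (hs.sym.isometry v H.h)
    rw [hv, hs.sym.map_h, hs.sym.map_h, H.ip_neg_left] at h1
    omega
  sat n v hn hv := by
    unfold anti at hv ⊢
    rw [LinearMap.mem_ker] at hv ⊢
    rw [map_smul] at hv
    exact (smul_eq_zero.1 hv).resolve_left hn
  ne_zero := by
    obtain ⟨x, hx⟩ : ∃ x, σ (σ x) ≠ x := by
      by_contra hcon
      push Not at hcon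
      refine hs.sq_ne (LinearMap.ext fun x => ?_)
      rw [pow_two, Module.End.mul_apply, hcon, Module.End.one_apply]
    exact ⟨x - σ (σ x), hs.sub_mem x, fun h => hx (sub_eq_zero.1 h).symm⟩

theorem quad (hs : FourSym H σ) : Quad H (anti σ) σ 0 where
  e01 := Or.inl rfl
  iso := hs.sym.isometry
  mem := hs.mem
  quad v hv := by
    rw [mem_anti] at hv
    rw [hv, zero_smul, neg_zero, zero_sub]

/-- The pairing with `x - σ σ x`. -/
theorem ip_sub_map (hs : FourSym H σ) {v : Fin 23 → ℤ} (hv : v ∈ anti σ) (x : Fin 23 → ℤ) :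
    H.ip v (x - σ (σ x)) = 2 * H.ip v x := by
  have h1 : H.ip v (σ (σ x)) = - H.ip v x := by
    have h2 : H.ip (σ (σ (σ (σ v)))) (σ (σ x)) = H.ip (σ (σ v)) x := by
      rw [hs.sym.isometry, hs.sym.isometry]
    rw [hs.four, mem_anti.1 hv, H.ip_neg_left] at h2
    exact h2
  rw [H.ip_sub_right, h1]
  ring

theorem nondeg (hs : FourSym H σ) (hH : H.IsCohomology) {l : ℕ} (hl : l.Prime) (hl2 : 2 < l) :
    Nondeg H (anti σ) l := by
  intro v hv h
  have h1 : ∀ x, (l : ℤ) ∣ H.ip v x := by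
    intro x
    have h2 := h _ (hs.sub_mem x)
    rw [hs.ip_sub_map hv] at h2
    rcases (Nat.prime_iff_prime_int.1 hl).dvd_or_dvd h2 with h3 | h3
    · have := Int.le_of_dvd (by norm_num) h3
      omega
    · exact h3
  obtain ⟨w, hw⟩ := exists_smul_of_dvd hH h1
  refine ⟨w, hs.piece.sat l w (by exact_mod_cast hl.ne_zero) ?_, hw⟩
  rw [← hw]
  exact hv

theorem fix (_hs : FourSym H σ) : ∀ v ∈ anti σ, σ v = v ∨ σ v = -v → v = 0 := by
  intro v hv h
  have h1 : v = -v := by
    rw [mem_anti] at hv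
    rcases h with h | h
    · rw [h, h] at hv
      exact hv
    · rw [h, map_neg, h, neg_neg] at hv
      exact hv
  have h3 : (2 : ℤ) • v = 0 := by
    rw [two_smul]
    nth_rewrite 1 [h1]
    rw [neg_add_cancel]
  exact (smul_eq_zero.1 h3).resolve_left two_ne_zero

/-- The value two modulo four. -/
theorem two (hs : FourSym H σ) (hH : H.IsCohomology) :
    ∃ v, H.IsHodge v ∧ H.ip v H.h = 0 ∧ H.ip v v % 4 = 2 := by
  by_contra hcon
  push Not at hcon
  -- `x.(x - σ x)` is even
  have h1 : ∀ x, 2 ∣ H.ip x x - H.ip x (σ x) := by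
    intro x
    have hx : H.IsHodge (x - σ x) := by
      rw [isHodge_iff, map_sub, hs.sym.per_eq, sub_self]
    have hxh : H.ip (x - σ x) H.h = 0 := by
      have := hs.sym.isometry x H.h
      rw [hs.sym.map_h] at this
      rw [H.ip_sub_left, this, sub_self]
    have h2 := hcon _ hx hxh
    have h3 := hH.char (x - σ x)
    rw [hxh, sub_zero] at h3
    rw [ip_sub_self hH, hs.sym.isometry] at h2
    omega
  have h2 : ∀ x y, 2 ∣ H.ip x (σ y) + H.ip y (σ x) := by
    intro x y
    have h3 := h1 (x + y)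
    have h4 := h1 x
    have h5 := h1 y
    rw [map_add, ip_add_self hH, H.ip_add_left, H.ip_add_right, H.ip_add_right] at h3
    omega
  -- `σ σ y - y` is divisible by two
  have h3 : ∀ y, ∃ z, y - σ (σ y) = (2 : ℤ) • z := by
    intro y
    refine exists_smul_of_dvd hH fun x => ?_
    have h4 := h2 (σ y) (σ (σ x))
    -- `σ y . σ σ σ x + σ σ x . σ σ y = y . σ σ x + x . y`
    have h6 := h2 y x
    have h7 : H.ip x (σ y) = H.ip (σ x) (σ (σ y)) := (hs.sym.isometry _ _).symm
    have h8 : H.ip y (σ x) = H.ip (σ x) y := hH.comm _ _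
    have h9 : ∀ x y, 2 ∣ H.ip (σ x) (y - σ (σ y)) := by
      intro x y
      have h6 := h2 y x
      have h7 : H.ip x (σ y) = H.ip (σ x) (σ (σ y)) := (hs.sym.isometry _ _).symm
      have h8 : H.ip y (σ x) = H.ip (σ x) y := hH.comm _ _
      rw [H.ip_sub_right]
      omega
    have h10 := h9 (σ (σ (σ x))) y
    rw [hs.four] at h10
    rw [hH.comm]
    exact h10
  obtain ⟨m, hm⟩ := hs.piece.exists_minVec hH
  obtain ⟨y, hy⟩ : ∃ y, ¬ 2 ∣ H.ip m y := by
    by_contra h
    push Not at h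
    obtain ⟨w, hw⟩ := exists_smul_of_dvd hH h
    exact hm.not_smul hs.piece hH le_rfl w hw
  obtain ⟨z, hz⟩ := h3 y
  have hzm : z ∈ anti σ := by
    refine hs.piece.sat 2 z two_ne_zero ?_
    rw [← hz]
    exact hs.sub_mem y
  have h4 := hs.ip_sub_map hm.mem y
  rw [hz, H.ip_smul_right] at h4
  have h5 : Nonzero H (anti σ) 2 := ⟨m, hm.mem, z, hzm, by rw [mul_left_cancel₀ two_ne_zero h4]; exact hy⟩
  obtain ⟨v, hv, hv2⟩ := h5.two hs.piece hH
  exact hcon v (hs.piece.hodge v hv) (hs.piece.perp v hv) hv2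

/-- There are vectors outside the span of a minimal vector. -/
theorem exists_out (hs : FourSym H σ) (hH : H.IsCohomology) {m : Fin 23 → ℤ}
    (hm : MinVec H (anti σ) m) : ∃ w, Quad.Out (anti σ) σ m w := by
  by_contra hcon
  have h1 : ∀ w ∈ anti σ, ∃ i j : ℤ, w = i • m + j • σ m := by
    intro w hw
    by_contra h
    apply hcon
    refine ⟨w, hw, fun n a b hn hw' => h ?_⟩
    exact hs.quad.span_int hs.piece hH hm hw hn hw'
  have hq := hs.quad.two_ip hH hm.mem
  obtain ⟨k, hk⟩ := hs.piece.even hH hm.mem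
  have hpos := hs.piece.pos hH hm.mem hm.ne_zero
  have hmσ : H.ip m (σ m) = 0 := by omega
  have h2 : ∀ x, k ∣ H.ip m x := by
    intro x
    obtain ⟨i, j, hij⟩ := h1 (x - σ (σ x)) (hs.sub_mem x)
    have h3 := hs.ip_sub_map hm.mem x
    rw [hij, H.ip_add_right, H.ip_smul_right, H.ip_smul_right, hmσ, hk] at h3
    exact ⟨i, by linarith⟩
  obtain ⟨y, hy⟩ := exists_smul_of_dvd hH h2
  have h6 : k = 1 := by
    by_contra hne
    exact hm.not_smul hs.piece hH (l := k) (by omega) y hy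
  exact hs.piece.ne_two hH hm.mem (by rw [hk, h6]; norm_num)

end FourSym

end Pool.Agent.L5helper19.GS
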