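import Pool.Agent.L5helper19.GS.Sym5
import Pool.Agent.L5helper19.GS.Sym6

/-!
# Symplectic automorphisms: the main theorem
-/

set_option autoImplicit false

namespace Pool.Agent.L5helper19.GS

open Pool.Agent.Y95.Q

variable {X : CubicFourfold} {H : H4 X} {σ : Module.End ℤ (Fin 23 → ℤ)} {p : ℕ}

/-- The congruences from the values in a piece. -/
theorem Piece.congruences {S : Submodule ℤ (Fin 23 → ℤ)} (hS : Piece H S) (hH : H.IsCohomology)
    (h2 : ∃ v, H.IsHodge v ∧ H.ip v H.h = 0 ∧ H.ip v v % 4 = 2)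
    (h3 : ∃ v ∈ S, H.ip v v % 3 = 2)
    (h : ∀ l : ℕ, l.Prime → 2 < l → Nonzero H S l) : Congruences H := by
  refine ⟨?_, ?_, fun l hl hl2 hl3 => ?_⟩
  · obtain ⟨v, hv, hvh, hv2⟩ := h2
    refine ⟨v, hv, ?_⟩
    unfold H4.disc
    rw [hH.comm H.h v, hvh]
    omega
  · obtain ⟨v, hv, hv3⟩ := h3
    exact ⟨v, hS.hodge v hv, Or.inr hv3⟩
  · obtain ⟨v, hv, hvl⟩ := (h l hl hl2).norm hl hl2 hH
    refine ⟨v, hS.hodge v hv, fun hd => ?_⟩
    rw [hS.disc_eq hH hv] at hd
    rcases (Nat.prime_iff_prime_int.1 hl).dvd_or_dvd hd with h5 | h5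
    · have h6 : l ∣ 3 := by exact_mod_cast h5
      have h7 := (Nat.prime_dvd_prime_iff_eq hl Nat.prime_three).1 h6
      omega
    · exact hvl h5

theorem OddSym.main (hs : OddSym H σ p) (hH : H.IsCohomology) : Congruences H ∧ 5 ≤ H.rank := by
  have h2 : ∃ v, H.IsHodge v ∧ H.ip v H.h = 0 ∧ H.ip v v % 4 = 2 := by
    obtain ⟨v, hv, hv2⟩ := (hs.nonzero hH Nat.prime_two).two hs.piece hH
    exact ⟨v, hs.piece.hodge v hv, hs.piece.perp v hv, hv2⟩
  by_cases h : p = 3
  · subst h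
    obtain ⟨m, hm⟩ := hs.piece.exists_minVec hH
    obtain ⟨w, hw⟩ := hs.exists_out hH hm
    exact ⟨hs.piece.congruences hH h2 (hs.three hH) fun l hl _ => hs.nonzero hH hl,
      hs.quad.five_le hs.piece hH hm hw⟩
  · have h5 : 5 ≤ p := by
      have h3 := hs.two_lt
      have h4 : p ≠ 4 := by
        rintro rfl
        exact absurd hs.prime (by norm_num)
      omega
    refine ⟨hs.piece.congruences hH h2 ?_ fun l hl _ => hs.nonzero hH hl, hs.five_le h5 hH⟩
    exact (hs.nondeg hH Nat.prime_three (Ne.symm h)).three hs.piece hH σ hs.sym.isometry hs.mem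
      hs.fix

theorem FourSym.main (hs : FourSym H σ) (hH : H.IsCohomology) : Congruences H ∧ 5 ≤ H.rank := by
  obtain ⟨m, hm⟩ := hs.piece.exists_minVec hH
  obtain ⟨w, hw⟩ := hs.exists_out hH hm
  refine ⟨hs.piece.congruences hH (hs.two hH) ?_ fun l hl hl2 =>
    (hs.nondeg hH hl hl2).nonzero (by exact_mod_cast hl.two_le) hs.piece hH,
    hs.quad.five_le hs.piece hH hm hw⟩
  exact (hs.nondeg hH Nat.prime_three (by norm_num)).three hs.piece hH σ hs.sym.isometry hs.mem
    hs.fix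

/-- Every symplectic automorphism of finite order greater than two has a power of order four or of
odd prime order. -/
theorem exists_power (hσ : IsSymplectic H σ) {n : ℕ} (hn : 0 < n) (h : σ ^ n = 1)
    (h2 : σ ^ 2 ≠ 1) : (∃ k, FourSym H (σ ^ k)) ∨ ∃ k p, OddSym H (σ ^ k) p := by
  have hfin : IsOfFinOrder σ := isOfFinOrder_iff_pow_eq_one.2 ⟨n, hn, h⟩
  have hpos : 0 < orderOf σ := hfin.orderOf_pos
  have h3 : 2 < orderOf σ := by
    by_contra hcon
    have h4 : orderOf σ ∣ 2 := by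
      have : orderOf σ = 1 ∨ orderOf σ = 2 := by omega
      rcases this with h | h <;> rw [h]
      norm_num
    exact h2 (orderOf_dvd_iff_pow_eq_one.1 h4)
  rcases Nat.four_dvd_or_exists_odd_prime_and_dvd_of_two_lt h3 with ⟨k, hk⟩ | ⟨p, hp, ⟨k, hk⟩, hodd⟩
  · left
    refine ⟨k, hσ.pow k, ?_, ?_⟩
    · rw [← pow_mul, mul_comm, ← hk, pow_orderOf_eq_one]
    · rw [← pow_mul]
      intro hcon
      have h5 := Nat.le_of_dvd (by omega) (orderOf_dvd_of_pow_eq_one hcon)
      omega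
  · right
    have hp2 : 2 < p := by
      have h5 := hp.two_le
      rcases hodd with ⟨j, hj⟩
      omega
    refine ⟨k, p, hσ.pow k, hp, hp2, ?_, ?_⟩
    · rw [← pow_mul, mul_comm, ← hk, pow_orderOf_eq_one]
    · intro hcon
      have hk0 : 0 < k := by
        rcases Nat.eq_zero_or_pos k with h | h
        · rw [h] at hk
          omega
        · exact h
      have h5 := Nat.le_of_dvd hk0 (orderOf_dvd_of_pow_eq_one hcon)
      rw [hk] at h5
      nlinarith

theorem symplectic_main (hH : H.IsCohomology) (hσ : IsSymplectic H σ) {n : ℕ} (hn : 0 < n)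
    (h : σ ^ n = 1) (h2 : σ ^ 2 ≠ 1) : Congruences H ∧ 5 ≤ H.rank := by
  rcases exists_power hσ hn h h2 with ⟨k, hk⟩ | ⟨k, p, hk⟩
  · exact hk.main hH
  · exact hk.main hH

end Pool.Agent.L5helper19.GS
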