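import Pool.Agent.L5helper19.GS.Sym7

/-!
# Symplectic automorphisms have finite order
-/

set_option autoImplicit false

namespace Pool.Agent.L5helper19.GS

open Pool.Agent.Y95.Q

variable {X : CubicFourfold} {H : H4 X} {σ : Module.End ℤ (Fin 23 → ℤ)}

/-- There are finitely many Hodge classes of bounded norm. -/
theorem finite_short (hH : H.IsCohomology) (C : ℤ) :
    {v | H.IsHodge v ∧ H.ip v v ≤ C}.Finite := by
  obtain ⟨N, hN⟩ : ∃ N : ℕ, 4 * C < (N : ℤ) ^ 2 ∧ 0 < N := by
    refine ⟨(4 * C).natAbs + 1, ?_, Nat.succ_pos _⟩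
    push_cast
    nlinarith [abs_nonneg (4 * C), le_abs_self (4 * C)]
  have : NeZero N := ⟨hN.2.ne'⟩
  let f : (Fin 23 → ℤ) → (Fin 23 → ZMod N) := fun v i => (v i : ZMod N)
  refine Set.Finite.of_injOn (f := f) (t := Set.univ) (fun _ _ => Set.mem_univ _) ?_ Set.finite_univ
  intro v hv w hw hvw
  by_contra hne
  have h1 : ∀ i, ∃ c, v i - w i = (N : ℤ) * c := by
    intro i
    have h2 : ((v i - w i : ℤ) : ZMod N) = 0 := by
      push_cast
      rw [sub_eq_zero]
      exact congrFun hvw i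
    exact (ZMod.intCast_zmod_eq_zero_iff_dvd _ _).1 h2
  choose c hc using h1
  have h2 : v - w = (N : ℤ) • c := by
    ext i
    rw [Pi.sub_apply, hc i]
    rfl
  have hcH : H.IsHodge c := by
    refine H.isHodge_of_smul (n := N) (by exact_mod_cast hN.2.ne') ?_
    rw [← h2]
    exact H.isHodge_sub hv.1 hw.1
  have hc0 : c ≠ 0 := by
    rintro rfl
    rw [smul_zero, sub_eq_zero] at h2
    exact hne h2
  have h3 := hH.pos c hcH hc0
  have h4 : H.ip (v - w) (v - w) = (N : ℤ) ^ 2 * H.ip c c := by rw [h2, ip_smul_smul]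
  have h5 := hH.nonneg (H.isHodge_add hv.1 hw.1)
  rw [ip_sub_self hH] at h4
  rw [ip_add_self hH] at h5
  have h6 := hv.2
  have h7 := hw.2
  nlinarith [hN.1]

theorem IsSymplectic.isHodge (hσ : IsSymplectic H σ) {v : Fin 23 → ℤ} (hv : H.IsHodge v) :
    H.IsHodge (σ v) := by
  rw [isHodge_iff] at hv ⊢
  rw [hσ.per_eq, hv]

/-- A symplectic automorphism is determined by its values at the Hodge classes. -/
theorem IsSymplectic.eq_one (hσ : IsSymplectic H σ) (hH : H.IsCohomology)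
    (h : ∀ v, H.IsHodge v → σ v = v) : σ = 1 := by
  refine LinearMap.ext fun x => ?_
  rw [Module.End.one_apply]
  have h1 : H.IsHodge (σ x - x) := by
    rw [isHodge_iff, map_sub, hσ.per_eq, sub_self]
  by_contra hne
  have h2 := hH.pos _ h1 (sub_ne_zero.2 hne)
  have h3 : H.ip (σ x - x) (σ x - x) = 0 := by
    rw [H.ip_sub_left]
    nth_rewrite 1 [← h _ h1]
    rw [hσ.isometry, sub_self]
  omega

theorem IsSymplectic.finite_order (hσ : IsSymplectic H σ) (hH : H.IsCohomology) :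
    ∃ n : ℕ, 0 < n ∧ σ ^ n = 1 := by
  classical
  let b := Module.finBasis ℤ H.hodge
  obtain ⟨C, hC⟩ : ∃ C : ℤ, ∀ i, H.ip (b i : Fin 23 → ℤ) (b i) ≤ C :=
    ⟨∑ i, |H.ip (b i : Fin 23 → ℤ) (b i)|, fun i => (le_abs_self _).trans
      (Finset.single_le_sum (f := fun i => |H.ip (b i : Fin 23 → ℤ) (b i)|)
        (fun _ _ => abs_nonneg _) (Finset.mem_univ i))⟩
  have hfin := finite_short hH C
  have hfin' : Finite {v | H.IsHodge v ∧ H.ip v v ≤ C} := hfin
  -- the images of the basis under the powers of `σ`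
  let F : ℕ → (Fin (Module.finrank ℤ H.hodge) → {v | H.IsHodge v ∧ H.ip v v ≤ C}) := fun n i =>
    ⟨(σ ^ n) (b i), (hσ.pow n).isHodge (b i).2, by
      rw [(hσ.pow n).isometry]
      exact hC i⟩
  obtain ⟨m, n, hmn, hF⟩ := Finite.exists_ne_map_eq_of_infinite F
  wlog hlt : m < n generalizing m n with hwlog
  · exact hwlog n m hmn.symm hF.symm (by omega)
  refine ⟨n - m, by omega, (hσ.pow _).eq_one hH fun v hv => ?_⟩
  have hinj : Function.Injective (σ ^ m) := by
    rw [← LinearMap.ker_eq_bot, LinearMap.ker_eq_bot']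
    intro x hx
    have h1 : ∀ y, (1 : ℤ) * H.ip x y = 0 := by
      intro y
      rw [one_mul, ← (hσ.pow m).isometry, hx, H.ip_zero_left]
    obtain ⟨w, hw⟩ := exists_smul_of_dvd hH (l := 0) (v := x) fun y => by
      have := h1 y
      rw [one_mul] at this
      rw [this]
    rw [hw, zero_smul]
  have hb : ∀ i, (σ ^ (n - m)) (b i) = (b i : Fin 23 → ℤ) := by
    intro i
    apply hinj
    have h1 : (σ ^ m) ((σ ^ (n - m)) (b i)) = (σ ^ n) (b i) := by
      rw [← Module.End.mul_apply, ← pow_add, Nat.add_sub_cancel' hlt.le]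
    rw [h1]
    exact (congrArg Subtype.val (congrFun hF i)).symm
  have hlin : ((σ ^ (n - m)) ∘ₗ H.hodge.subtype) = H.hodge.subtype := by
    refine b.ext fun i => ?_
    exact hb i
  exact LinearMap.congr_fun hlin ⟨v, hv⟩

/-- The main theorem. -/
theorem symplectic_final (hH : H.IsCohomology) (hσ : IsSymplectic H σ) (h2 : σ ^ 2 ≠ 1) :
    HilbertSquare H ∧ AssociatedK3 H ∧ 5 ≤ H.rank := by
  obtain ⟨n, hn, h⟩ := hσ.finite_order hH
  obtain ⟨hc, hr⟩ := symplectic_main hH hσ hn h h2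
  have := rank_five hH hr hc
  exact ⟨this, this.associated hH, hr⟩

end Pool.Agent.L5helper19.GS
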