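import Pool.Agent.L5helper19.GS.Glue2

/-!
# Rank three
-/

set_option autoImplicit false

namespace Pool.Agent.L5helper19.GS

open Pool.Agent.Y95.Q
open NumberTheorySymbols

/-- Odd multiplicity is the same for numbers in the same square class. -/
theorem odd_transfer {l : ℕ} (hl : l.Prime) {T T' γ δ : ℤ} (hγ : γ ≠ 0) (hδ : δ ≠ 0)
    (hT' : T' ≠ 0) (h : γ ^ 2 * T = δ ^ 2 * T') {a : ℕ} {R : ℤ} (ha : Odd a)
    (hT : T = (l : ℤ) ^ a * R) (hR : ¬ (l : ℤ) ∣ R) :
    ∃ (a' : ℕ) (R' : ℤ), Odd a' ∧ T' = (l : ℤ) ^ a' * R' ∧ ¬ (l : ℤ) ∣ R' := by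
  have hlp := Nat.prime_iff_prime_int.1 hl
  obtain ⟨m, hm1, hm2⟩ := exists_kappa hl hγ
  obtain ⟨γ', hγ'⟩ := hm1
  obtain ⟨a', ha1, ha2⟩ := exists_kappa hl hT'
  obtain ⟨R', hR'⟩ := ha1
  have hR'l : ¬ (l : ℤ) ∣ R' := by
    rintro ⟨c, rfl⟩
    exact ha2 ⟨c, by rw [hR']; ring⟩
  have hγ'l : ¬ (l : ℤ) ∣ γ' := by
    rintro ⟨c, rfl⟩
    exact hm2 ⟨c, by rw [hγ']; ring⟩
  refine ⟨a', R', ?_, hR', hR'l⟩
  -- `(δ R') ^ 2 l ^ a' = l ^ (2 m + a) ...`
  obtain ⟨a0, ha0⟩ := ha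
  by_contra hodd
  rw [Nat.not_odd_iff_even] at hodd
  obtain ⟨b, hb⟩ := hodd
  -- `δ ^ 2 l ^ (2 b) R' = γ' ^ 2 l ^ (2 m + 2 a0 + 1) R`
  have hl0 : (l : ℤ) ≠ 0 := hlp.ne_zero
  obtain ⟨m2, hm3, hm4⟩ := exists_kappa hl hδ
  obtain ⟨δ', hδ'⟩ := hm3
  have hδ'l : ¬ (l : ℤ) ∣ δ' := by
    rintro ⟨c, rfl⟩
    exact hm4 ⟨c, by rw [hδ']; ring⟩
  have e1 : (l : ℤ) ^ (2 * m + a) * (γ' ^ 2 * R) = (l : ℤ) ^ (2 * m2 + a') * (δ' ^ 2 * R') := by
    have e2 : (l : ℤ) ^ (2 * m + a) * (γ' ^ 2 * R) = γ ^ 2 * T := by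
      rw [hT, hγ']
      ring
    have e3 : (l : ℤ) ^ (2 * m2 + a') * (δ' ^ 2 * R') = δ ^ 2 * T' := by
      rw [hR', hδ']
      ring
    rw [e2, e3, h]
  have n1 : ¬ (l : ℤ) ∣ γ' ^ 2 * R := by
    intro h1
    rcases hlp.dvd_or_dvd h1 with h2 | h2
    · exact hγ'l (hlp.dvd_of_dvd_pow h2)
    · exact hR h2
  have n2 : ¬ (l : ℤ) ∣ δ' ^ 2 * R' := by
    intro h1
    rcases hlp.dvd_or_dvd h1 with h2 | h2
    · exact hδ'l (hlp.dvd_of_dvd_pow h2)
    · exact hR'l h2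
  have e4 : 2 * m + a = 2 * m2 + a' := by
    rcases lt_trichotomy (2 * m + a) (2 * m2 + a') with h1 | h1 | h1
    · exfalso
      obtain ⟨j, hj⟩ := Nat.exists_eq_add_of_lt h1
      apply n1
      refine ⟨(l : ℤ) ^ j * (δ' ^ 2 * R'), mul_left_cancel₀ (pow_ne_zero (2 * m + a) hl0) ?_⟩
      rw [e1, hj]
      ring
    · exact h1
    · exfalso
      obtain ⟨j, hj⟩ := Nat.exists_eq_add_of_lt h1
      apply n2
      refine ⟨(l : ℤ) ^ j * (γ' ^ 2 * R), mul_left_cancel₀ (pow_ne_zero (2 * m2 + a') hl0) ?_⟩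
      rw [← e1, hj]
      ring
  omega

theorem jacobi_transfer {T T' γ δ : ℤ} {n : ℕ} (hγ : IsCoprime γ n) (hδ : IsCoprime δ n)
    (h : γ ^ 2 * T = δ ^ 2 * T') : J(T | n) = J(T' | n) := by
  have h1 := congrArg (fun t => J(t | n)) h
  simp only [jacobiSym.mul_left] at h1
  rwa [jacobiSym.sq_one' (Int.isCoprime_iff_gcd_eq_one.1 hγ),
    jacobiSym.sq_one' (Int.isCoprime_iff_gcd_eq_one.1 hδ), one_mul, one_mul] at h1

variable {X : CubicFourfold} {H : H4 X}

/-- In rank three the Gram determinants lie in one square class. -/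
theorem square_class (hH : H.IsCohomology) (hr : H.rank ≤ 3) {k : ℤ} (hk : 0 < k)
    {A v v' : Fin 23 → ℤ} (hA : H.IsHodge A) (hAd : H.disc A = 2 * k ^ 2) (hv : H.IsHodge v)
    (hv' : H.IsHodge v') (hg : 0 < gram H k A v) (hg' : 0 < gram H k A v') :
    ∃ γ δ : ℤ, γ ≠ 0 ∧ δ ≠ 0 ∧ γ ^ 2 * gram H k A v = δ ^ 2 * gram H k A v' := by
  have hdep : ¬ LinearIndependent ℤ (![H.h, A, v, v'] : Fin 4 → Fin 23 → ℤ) := by
    intro hLI
    let S := Submodule.span ℤ {v | H.IsHodge v}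
    have hmem : ∀ i, (![H.h, A, v, v'] : Fin 4 → Fin 23 → ℤ) i ∈ S := by
      intro i
      apply Submodule.subset_span
      fin_cases i
      · exact hH.h_hodge
      · exact hA
      · exact hv
      · exact hv'
    let g : Fin 4 → S := fun i => ⟨_, hmem i⟩
    have hg4 : LinearIndependent ℤ g := by
      apply LinearIndependent.of_comp S.subtype
      exact hLI
    have h1 := hg4.fintype_card_le_finrank
    have h2 : Module.finrank ℤ S = H.rank := rfl
    rw [h2, Fintype.card_fin] at h1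
    omega
  rw [Fintype.not_linearIndependent_iff] at hdep
  obtain ⟨f, hf, i, hi⟩ := hdep
  simp only [Fin.sum_univ_four, Matrix.cons_val_zero, Matrix.cons_val_one, Matrix.cons_val] at hf
  -- the form which kills `h` and `A`
  have hG : ∀ y : Fin 23 → ℤ, f 2 * (2 * k ^ 2 * bil H v y - bil H A v * bil H A y) +
      f 3 * (2 * k ^ 2 * bil H v' y - bil H A v' * bil H A y) = 0 := by
    intro y
    have h1 : bil H (f 0 • H.h + f 1 • A + f 2 • v + f 3 • v') y = 0 := by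
      rw [hf]
      simp [bil, H.ip_zero_left, H.ip_zero_right]
    have h2 : bil H (f 0 • H.h + f 1 • A + f 2 • v + f 3 • v') y =
        f 1 * bil H A y + f 2 * bil H v y + f 3 * bil H v' y := by
      simp only [bil, H.ip_add_left, H.ip_add_right, H.ip_smul_left, H.ip_smul_right, hH.h_self]
      ring
    have h3 : bil H A (f 0 • H.h + f 1 • A + f 2 • v + f 3 • v') = 0 := by
      rw [hf]
      simp [bil, H.ip_zero_right]
    have h4 : bil H A (f 0 • H.h + f 1 • A + f 2 • v + f 3 • v') =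
        f 1 * (2 * k ^ 2) + f 2 * bil H A v + f 3 * bil H A v' := by
      rw [← hAd, ← bil_self A]
      simp only [bil, H.ip_add_right, H.ip_smul_right, hH.h_self, hH.comm A H.h]
      ring
    rw [h2] at h1
    rw [h4] at h3
    linear_combination (2 * k ^ 2) * h1 - bil H A y * h3
  have h1 := hG v
  have h2 := hG v'
  rw [bil_self, bil_comm hH v' v] at h1
  rw [bil_self] at h2
  have h3 : f 2 ^ 2 * gram H k A v = f 3 ^ 2 * gram H k A v' := by
    simp only [gram]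
    linear_combination f 2 * h1 - f 3 * h2
  have hne : ¬ (f 2 = 0 ∧ f 3 = 0) := by
    rintro ⟨h4, h5⟩
    rw [h4, h5, zero_smul, zero_smul, add_zero, add_zero] at hf
    have h6 : f 1 = 0 := by
      have h7 : H.disc (f 1 • A + f 0 • H.h) = f 1 ^ 2 * H.disc A := hH.disc_comb _ _ _
      rw [add_comm, hf, hAd] at h7
      have h8 : H.disc 0 = 0 := by simp [H4.disc, H.ip_zero_left, H.ip_zero_right]
      rw [h8] at h7
      have h9 : f 1 ^ 2 * (2 * k ^ 2) = 0 := h7.symm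
      have h10 : (2 * k ^ 2 : ℤ) ≠ 0 := by positivity
      exact pow_eq_zero_iff two_ne_zero |>.1 ((mul_eq_zero.1 h9).resolve_right h10)
    rw [h6, zero_smul, add_zero] at hf
    have h7 : f 0 = 0 := by
      have h8 : H.ip (f 0 • H.h) H.h = 0 := by
        rw [hf, H.ip_zero_left]
      rw [H.ip_smul_left, hH.h_self] at h8
      omega
    apply hi
    fin_cases i
    · exact h7
    · exact h6
    · exact h4
    · exact h5
  refine ⟨f 2, f 3, fun h4 => hne ⟨h4, ?_⟩, fun h5 => hne ⟨?_, h5⟩, h3⟩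
  · rw [h4] at h3
    have h5 : f 3 ^ 2 * gram H k A v' = 0 := by rw [← h3]; ring
    exact pow_eq_zero_iff two_ne_zero |>.1 ((mul_eq_zero.1 h5).resolve_right hg'.ne')
  · rw [h5] at h3
    have h4 : f 2 ^ 2 * gram H k A v = 0 := by rw [h3]; ring
    exact pow_eq_zero_iff two_ne_zero |>.1 ((mul_eq_zero.1 h4).resolve_right hg.ne')

/-- From an integer with the right symbol. -/
theorem hilbert_of_n (hH : H.IsCohomology) {k : ℤ} (hk : 0 < k) {A v : Fin 23 → ℤ}
    (hA : H.IsHodge A) (hAd : H.disc A = 2 * k ^ 2) (hv : H.IsHodge v) (hg : 0 < gram H k A v)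
    {x r d : ℤ} (hd : 0 < d) (ht : bil H A v - k * x = d * r)
    (h4 : 4 * d ∣ x ^ 2 + 3 - 2 * H.disc v) {n : ℕ} (hn : 24 * k ∣ n - r)
    (hc : IsCoprime (n : ℤ) (24 * k * (3 * gram H k A v))) (hJ : J(3 * gram H k A v | n) = 1) :
    HilbertSquare H :=
  hilbert_of_sol hH hA hAd hv (sol_of_data hk hd hg ht h4 n hn hc hJ)

/-- **The step with two local solutions.** -/
theorem pair_step (hH : H.IsCohomology) (hr : H.rank ≤ 3) {k : ℤ} (hk : 0 < k)
    {A vs : Fin 23 → ℤ} (hA : H.IsHodge A) (hAd : H.disc A = 2 * k ^ 2) (hvs : H.IsHodge vs)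
    (hG : 0 < gram H k A vs) (w : ℕ → Fin 23 → ℤ) (u : ℕ → ℤ) (c : ℕ → ℕ)
    (hw : ∀ p ∈ bad k, H.IsHodge (w p) ∧ Loc p k (bil H A (w p)) (H.disc (w p)) (u p) (c p))
    {p : ℕ} (hp : p ∈ bad k) {a : ℕ} {R : ℤ} (ha : Odd a)
    (hT : 3 * gram H k A vs = (p : ℤ) ^ a * R) (hR : ¬ (p : ℤ) ∣ R)
    {wb : Fin 23 → ℤ} {ub : ℤ} (hwb : H.IsHodge wb)
    (hLb : Loc p k (bil H A wb) (H.disc wb) ub (c p)) {τa τb : ℤ}
    (hτa : bil H A (w p) - k * u p = (p : ℤ) ^ c p * τa)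
    (hτb : bil H A wb - k * ub = (p : ℤ) ^ c p * τb)
    (hflip : (p = 2 ∧ 8 ∣ τb - τa - 4) ∨ (p ≠ 2 ∧ J(τb | p) = -J(τa | p))) :
    HilbertSquare H := by
  classical
  have hpp := ((mem_bad hk p).1 hp).1
  have hpi := Nat.prime_iff_prime_int.1 hpp
  set E : ℕ := (24 * k).natAbs with hE
  obtain ⟨v, x, r, hv, hg, ht, hr24, h4, hcong⟩ := data hH hk hA hAd hvs hG w u c hw E
  obtain ⟨v', x', r', hv', hg', ht', hr24', h4', hcong'⟩ := data hH hk hA hAd hvs hG
    (Function.update w p wb) (Function.update u p ub) c (by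
      intro q hq
      by_cases hqp : q = p
      · subst hqp
        rw [Function.update_self, Function.update_self]
        exact ⟨hwb, hLb⟩
      · rw [Function.update_of_ne hqp, Function.update_of_ne hqp]
        exact hw q hq) E
  have hd := dd_pos hk c
  obtain ⟨n, hn1, hn2⟩ := exists_prime_class (K := 24 * k) (T := 3 * gram H k A v) (by positivity)
    (by positivity) hr24
  have hgcd : (3 * gram H k A v).gcd n = 1 :=
    Int.isCoprime_iff_gcd_eq_one.1 hn2.of_mul_right_right.symm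
  rcases jacobiSym.eq_one_or_neg_one hgcd with hJ | hJ
  · exact hilbert_of_n hH hk hA hAd hv hg hd ht h4 hn1 hn2 hJ
  -- the flip
  obtain ⟨γ0, δ0, hγ0, hδ0, h0⟩ := square_class hH hr hk hA hAd hvs hv hG hg
  obtain ⟨a', R', ha', hTR', hR'⟩ := odd_transfer hpp (T := 3 * gram H k A vs)
    (T' := 3 * gram H k A v) hγ0 hδ0 (by positivity) (by linear_combination 3 * h0) ha hT hR
  obtain ⟨b, hb1, hb2⟩ := exists_kappa hpp (k := 24 * k) (by positivity)
  obtain ⟨K', hK'⟩ := hb1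
  have hpK' : ¬ (p : ℤ) ∣ K' := by
    rintro ⟨c, rfl⟩
    exact hb2 ⟨c, by rw [hK']; ring⟩
  have hK'0 : K' ≠ 0 := by
    rintro rfl
    exact hpK' (dvd_zero _)
  obtain ⟨γ, δ, hγ, hδ, hγδ⟩ := square_class hH hr hk hA hAd hv hv' hg hg'
  have hpK : (p : ℤ) ∣ 24 * k := by
    have := ((mem_bad hk p).1 hp).2
    exact this.trans ⟨4, by ring⟩
  -- the difference of `r` and `r'` away from `p`
  have hmod' : K' ∣ r' - r := by
    rw [← Int.natAbs_dvd_natAbs, Nat.dvd_iff_prime_pow_dvd_dvd]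
    intro q j hq hqj
    rcases Nat.eq_zero_or_pos j with rfl | hj
    · simp
    have h1 : (q : ℤ) ^ j ∣ K' := by
      have := Int.natCast_dvd.2 hqj
      exact_mod_cast this
    have hqi := Nat.prime_iff_prime_int.1 hq
    have hqK' : (q : ℤ) ∣ K' := (dvd_pow_self _ hj.ne').trans h1
    have hqp : q ≠ p := by
      rintro rfl
      exact hpK' hqK'
    have hq24 : (q : ℤ) ∣ 24 * k := by
      rw [hK']
      exact hqK'.mul_left _
    have hqb : q ∈ bad k := (mem_bad hk q).2 ⟨hq,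
      hqi.dvd_of_dvd_pow (n := 3) (hq24.trans ⟨9 * k ^ 2, by ring⟩)⟩
    have hjE : j ≤ E := by
      have h2 : q ^ j ≤ K'.natAbs := Nat.le_of_dvd (Int.natAbs_pos.2 hK'0) hqj
      have h3 : j < q ^ j := Nat.lt_pow_self hq.one_lt
      have h4 : K'.natAbs ∣ E := by
        rw [hE, hK', Int.natAbs_mul]
        exact dvd_mul_left _ _
      have h5 : K'.natAbs ≤ E := Nat.le_of_dvd (Int.natAbs_pos.2 (by positivity)) h4
      omega
    have c1 := hcong q hqb
    have c2 := hcong' q hqb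
    rw [Function.update_of_ne hqp, Function.update_of_ne hqp] at c2
    obtain ⟨d', hd', hqd'⟩ := dd_split hk c hqb
    have c3 : (q : ℤ) ^ (c q + 3 + E) ∣ dd k c * (r' - r) := by
      have e1 : dd k c * (r' - r) = ((bil H A v' - k * x') - (bil H A (w q) - k * u q)) -
          ((bil H A v - k * x) - (bil H A (w q) - k * u q)) := by
        rw [ht, ht']
        ring
      rw [e1]
      exact dvd_sub c2 c1
    have c4 : (q : ℤ) ^ (3 + E) ∣ d' * (r' - r) := by
      obtain ⟨y, hy⟩ := c3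
      refine ⟨y, mul_left_cancel₀ (pow_ne_zero (c q) hqi.ne_zero) ?_⟩
      rw [hd'] at hy
      linear_combination hy
    have c5 : (q : ℤ) ^ (3 + E) ∣ r' - r :=
      ((hqi.coprime_iff_not_dvd.2 hqd').pow_left).dvd_of_dvd_mul_left c4
    have c6 := Int.natAbs_dvd_natAbs.2 ((pow_dvd_pow (q : ℤ) (by omega : j ≤ 3 + E)).trans c5)
    rwa [Int.natAbs_pow, Int.natAbs_natCast] at c6
  have hKn : K' ∣ (n : ℤ) - r := Dvd.dvd.trans ⟨(p : ℤ) ^ b, by rw [hK']; ring⟩ hn1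
  have hmod : K' ∣ r' - n := by
    have e1 : r' - n = (r' - r) - (n - r) := by ring
    rw [e1]
    exact dvd_sub hmod' hKn
  -- the symbols at `p`
  obtain ⟨d', hd', hpd'⟩ := dd_split hk c hp
  have hpc : (p : ℤ) ^ c p ≠ 0 := pow_ne_zero _ hpi.ne_zero
  have c1 : (p : ℤ) ^ 3 ∣ d' * r - τa := by
    obtain ⟨y, hy⟩ := hcong p hp
    refine ⟨p ^ E * y, mul_left_cancel₀ hpc ?_⟩
    rw [ht, hτa, hd'] at hy
    linear_combination hy
  have c2 : (p : ℤ) ^ 3 ∣ d' * r' - τb := by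
    obtain ⟨y, hy⟩ := hcong' p hp
    rw [Function.update_self, Function.update_self] at hy
    refine ⟨p ^ E * y, mul_left_cancel₀ hpc ?_⟩
    rw [ht', hτb, hd'] at hy
    linear_combination hy
  have h8n : (8 : ℤ) ∣ (n : ℤ) - r := Dvd.dvd.trans ⟨3 * k, by ring⟩ hn1
  have hfl : (p = 2 ∧ 8 ∣ r' - n - 4) ∨ (p ≠ 2 ∧ J(r' | p) = -J((n : ℤ) | p)) := by
    rcases hflip with ⟨hp2, h⟩ | ⟨hp2, h⟩
    · left
      refine ⟨hp2, ?_⟩
      subst hp2
      norm_num at c1 c2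
      have hd2 : ¬ (2 : ℤ) ∣ d' := by exact_mod_cast hpd'
      have h5 : (8 : ℤ) ∣ d' * (r' - r - 4) := by
        obtain ⟨m, hm⟩ : ∃ m, d' = 2 * m + 1 := ⟨d' / 2, by omega⟩
        have e1 : d' * (r' - r - 4) = (d' * r' - τb) - (d' * r - τa) + (τb - τa - 4) -
            8 * m := by
          rw [hm]
          ring
        rw [e1]
        exact dvd_sub (dvd_add (dvd_sub c2 c1) h) (dvd_mul_right _ _)
      have hcop : IsCoprime (8 : ℤ) d' := by
        have : IsCoprime ((2 : ℤ) ^ 3) d' :=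
          IsCoprime.pow_left (Int.prime_two.coprime_iff_not_dvd.2 hd2)
        norm_num at this
        exact this
      have h6 := hcop.dvd_of_dvd_mul_left h5
      omega
    · right
      refine ⟨hp2, ?_⟩
      have e1 : J(d' * r | p) = J(τa | p) :=
        jacobi_left_congr ((dvd_pow_self _ three_ne_zero).trans c1)
      have e2 : J(d' * r' | p) = J(τb | p) :=
        jacobi_left_congr ((dvd_pow_self _ three_ne_zero).trans c2)
      have e3 : J((n : ℤ) | p) = J(r | p) := jacobi_left_congr (hpK.trans hn1)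
      have e4 : J(d' | p) ≠ 0 := by
        apply jacobiSym.ne_zero
        rw [← Int.isCoprime_iff_gcd_eq_one, isCoprime_comm]
        exact hpi.coprime_iff_not_dvd.2 hpd'
      rw [jacobiSym.mul_left] at e1 e2
      rw [e3]
      apply mul_left_cancel₀ e4
      rw [e2, h, ← e1]
      ring
  obtain ⟨n', hn'1, hn'2, hn'3⟩ := flip_prime (K := 24 * k) (T := 3 * gram H k A v)
    (B := 3 * gram H k A v' * (|γ| * |δ|)) (by positivity) (by positivity)
    (by have := abs_pos.2 hγ; have := abs_pos.2 hδ; positivity) ⟨3 * k, by ring⟩ hpp hpK ha' hTR'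
    hR' hK' hpK' hn2 hr24' hmod hfl
  have hJ' : J(3 * gram H k A v' | n') = 1 := by
    have hγn : IsCoprime γ (n' : ℤ) := by
      have h5 : IsCoprime (n' : ℤ) |γ| := hn'2.of_isCoprime_of_dvd_right
        ⟨24 * k * (3 * gram H k A v) * (3 * gram H k A v') * |δ|, by ring⟩
      exact ((IsCoprime.abs_right_iff _ _).1 h5).symm
    have hδn : IsCoprime δ (n' : ℤ) := by
      have h5 : IsCoprime (n' : ℤ) |δ| := hn'2.of_isCoprime_of_dvd_right
        ⟨24 * k * (3 * gram H k A v) * (3 * gram H k A v') * |γ|, by ring⟩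
      exact ((IsCoprime.abs_right_iff _ _).1 h5).symm
    rw [← jacobi_transfer (T := 3 * gram H k A v) hγn hδn (by linear_combination 3 * hγδ), hn'3,
      hJ]
    norm_num
  refine hilbert_of_n hH hk hA hAd hv' hg' hd ht' h4' hn'1 ?_ hJ'
  exact hn'2.of_isCoprime_of_dvd_right
    ⟨(3 * gram H k A v) * (|γ| * |δ|), by ring⟩

end Pool.Agent.L5helper19.GS
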